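import Pool.Agent.Lib.MP_305fdd_al.Su.SM.Trd
import Pool.Agent.Lib.MP_305fdd_al.Fr.N.H.HB

/-!
# MP_305fdd_al, surface groups, block SM: the transcendence degree of the trace field

`Cv ρ`: the conjugates of `ρ` over domains are specialisations of `ρ`.  (The proofs are those of
`Fr/N/H/Conj.lean` and `Fr/N/H/Trk.lean`, where `ρ` is universal.)
-/

set_option autoImplicit false

namespace Pool.Agent.SuTk

open Matrix Pool.Agent.FrN Pool.Agent.FrAsm PowerSeries FrH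
open Pool.Agent.SuSM (Gn)

/-- conjugates over domains are specialisations -/
structure Cv {Γ F : Type} [Group Γ] [Field F] [Algebra (ZMod 2) F]
    (ρ : Γ →* SpecialLinearGroup (Fin 2) F) : Prop where
  frac : Frc (OO 2 ρ)
  univ : ∀ (R : Type) [CommRing R] [IsDomain R] [Algebra (ZMod 2) R] (f : F →+* R)
    (P Q : Matrix (Fin 2) (Fin 2) R) (hPQ : P * Q = 1), ∃ φ : OO 2 ρ →ₐ[ZMod 2] R,
      ∀ g i j, φ ⟨(ρ g).1 i j, mem_OO ρ g i j⟩ =
        (((conjM P Q hPQ).comp ((smap f).comp ρ)) g).1 i j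

variable {Γ F : Type} [Group Γ] [Field F] [Algebra (ZMod 2) F] {ρ : Γ →* SpecialLinearGroup (Fin 2) F}

theorem isFrac (h : Cv ρ) : IsFractionRing (OO 2 ρ) F := by
  refine IsFractionRing.of_field _ _ fun z => ?_
  obtain ⟨a, ha, b, hb, hb0, hz⟩ := h.frac z
  exact ⟨⟨a, ha⟩, ⟨b, hb⟩, (eq_div_iff hb0).2 hz⟩

/-- the homomorphism given by conjugation -/
theorem exists_conj (h : Cv ρ) (P Q : Matrix (Fin 2) (Fin 2) F⟦X⟧) (hPQ : P * Q = 1)
    (hP : P.map constantCoeff = 1) : ∃ f : F →+* LL F,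
      (∀ g i j, f ((ρ g).1 i j) =
        algebraMap F⟦X⟧ (LL F) ((P * (ρ g).1.map (C : F →+* F⟦X⟧) * Q) i j)) ∧
      ∀ z c, f z = algebraMap F (LL F) c → c = z := by
  have hQ : Q.map constantCoeff = (1 : Matrix (Fin 2) (Fin 2) F) := by
    have h1 := congrArg (fun M : Matrix (Fin 2) (Fin 2) F⟦X⟧ => M.map constantCoeff) hPQ
    rw [Matrix.map_mul, hP, one_mul] at h1
    rw [h1]
    ext i j
    rw [Matrix.map_apply, Matrix.one_apply, Matrix.one_apply]
    split_ifs <;> simp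
  let r : Γ →* SL2 F⟦X⟧ := (conjM P Q hPQ).comp ((smap (C : F →+* F⟦X⟧)).comp ρ)
  have hr : ∀ g, (r g).1 = P * (ρ g).1.map (C : F →+* F⟦X⟧) * Q := fun g => rfl
  obtain ⟨φ, hφ⟩ := h.univ F⟦X⟧ (C : F →+* F⟦X⟧) P Q hPQ
  have hε : ∀ x : OO 2 ρ, constantCoeff (φ x) = (x : F) := by
    have h2 : ∀ c : ZMod 2, (constantCoeff (algebraMap (ZMod 2) F⟦X⟧ c) : F) =
        algebraMap (ZMod 2) F c := fun c =>
      DFunLike.congr_fun (Subsingleton.elim
        ((constantCoeff (R := F)).comp (algebraMap (ZMod 2) F⟦X⟧)) (algebraMap (ZMod 2) F)) c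
    let ε : F⟦X⟧ →ₐ[ZMod 2] F := { constantCoeff with commutes' := h2 }
    have h3 : ε.comp φ = (OO 2 ρ).val := by
      refine AlgHom.adjoin_ext ?_
      rintro _ ⟨g, i, j, rfl⟩
      change constantCoeff (φ ⟨(ρ g).1 i j, mem_OO ρ g i j⟩) = (ρ g).1 i j
      rw [hφ, hr]
      have h4 : (P * (ρ g).1.map (C : F →+* F⟦X⟧) * Q).map constantCoeff = (ρ g).1 := by
        rw [Matrix.map_mul, Matrix.map_mul, hP, hQ, one_mul, mul_one, Matrix.map_map]
        ext a b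
        simp
      exact congrFun (congrFun h4 i) j
    exact fun x => DFunLike.congr_fun h3 x
  have hfr := isFrac h
  have hinj : Function.Injective φ := by
    intro x y hxy
    apply Subtype.ext
    rw [← hε, hxy, hε]
  let ψ : OO 2 ρ →+* LL F := (algebraMap F⟦X⟧ (LL F)).comp φ.toRingHom
  have hψ : Function.Injective ψ := by
    intro x y hxy
    exact hinj (IsFractionRing.injective F⟦X⟧ (LL F) hxy)
  let f : F →+* LL F := IsFractionRing.lift (A := OO 2 ρ) hψ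
  have hf : ∀ x : OO 2 ρ, f (x : F) = algebraMap F⟦X⟧ (LL F) (φ x) := fun x =>
    IsFractionRing.lift_algebraMap hψ x
  refine ⟨f, fun g i j => ?_, fun z c hz => ?_⟩
  · rw [← hr, ← hφ]
    exact hf ⟨(ρ g).1 i j, mem_OO ρ g i j⟩
  · obtain ⟨a, ha, b, hb, hb0, hab⟩ := h.frac z
    have h1 : f z * f b = f a := by rw [← map_mul, hab]
    rw [hz, algebraMap_LL, hf ⟨a, ha⟩, hf ⟨b, hb⟩, ← map_mul] at h1
    have h2 := IsFractionRing.injective F⟦X⟧ (LL F) h1
    have h3 := congrArg (constantCoeff (R := F)) h2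
    rw [map_mul, hε, hε, constantCoeff_C] at h3
    change c * b = a at h3
    rw [← hab] at h3
    exact mul_right_cancel₀ hb0 h3

/-- the lower left entry is not zero -/
theorem c_ne (h : Cv ρ) (g : Γ) (hg : ρ g ≠ 1) : (ρ g).1 1 0 ≠ 0 := by
  intro hc
  have key : ∀ (P Q : Matrix (Fin 2) (Fin 2) F), P * Q = 1 → (P * (ρ g).1 * Q) 1 0 = 0 := by
    intro P Q hPQ
    obtain ⟨φ, hφ⟩ := h.univ F (RingHom.id F) P Q hPQ
    have h1 := hφ g 1 0
    have h2 : (⟨(ρ g).1 1 0, mem_OO ρ g 1 0⟩ : OO 2 ρ) = 0 := Subtype.ext hc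
    rw [h2, map_zero] at h1
    exact h1.symm
  have hdet := det_eq (ρ g)
  have hc' : ρ g 1 0 = 0 := hc
  have h1 := key !![0, 1; -1, 0] !![0, -1; 1, 0] (by
    ext i j
    fin_cases i <;> fin_cases j <;> simp)
  have h2 := key !![1, 0; 1, 1] !![1, 0; -1, 1] (by
    ext i j
    fin_cases i <;> fin_cases j <;> simp)
  rw [conj_ent] at h1 h2
  simp at h1 h2
  have hb : ρ g 0 1 = 0 := h1
  have hd : ρ g 0 0 + ρ g 1 0 + (-ρ g 1 1 + -ρ g 0 1) = 0 := h2
  rw [hb, hc'] at hd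
  have hd' : ρ g 1 1 = ρ g 0 0 := by linear_combination -hd
  rw [hb, hc', hd'] at hdet
  have h3 := two_eq_zero F
  have h4 : (ρ g 0 0 - 1) ^ 2 = 0 := by linear_combination hdet + (1 - ρ g 0 0) * h3
  have h5 : ρ g 0 0 = 1 := by
    have := pow_eq_zero_iff (two_ne_zero) |>.1 h4
    exact sub_eq_zero.1 this
  apply hg
  refine ext_ent ?_ ?_ ?_ ?_
  · rw [h5, one_ent, if_pos rfl]
  · rw [hb, one_ent, if_neg Fin.zero_ne_one]
  · rw [hc', one_ent, if_neg Fin.zero_ne_one.symm]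
  · rw [hd', h5, one_ent, if_pos rfl]

/-- conjugation by a lower unipotent matrix -/
theorem exists_low (h : Cv ρ) : ∃ f : F →+* LL F,
    (∀ w ∈ KK ρ, f w = algebraMap F (LL F) w) ∧
    (∀ z c, f z = algebraMap F (LL F) c → c = z) ∧
    ∀ g, f ((ρ g).1 1 0) = algebraMap F⟦X⟧ (LL F) (C ((ρ g).1 1 0) +
      C ((ρ g).1 0 0 - (ρ g).1 1 1) * X - C ((ρ g).1 0 1) * X ^ 2) := by
  have hPQ : (!![1, 0; X, 1] : Matrix (Fin 2) (Fin 2) F⟦X⟧) * !![1, 0; -X, 1] = 1 := by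
    ext i j
    fin_cases i <;> fin_cases j <;> simp
  obtain ⟨f, hf, hf'⟩ := exists_conj h !![1, 0; X, 1] !![1, 0; -X, 1] hPQ (by
    ext i j
    fin_cases i <;> fin_cases j <;> simp)
  refine ⟨f, fix_KK (trace_fix hPQ hf), hf', fun g => ?_⟩
  rw [hf, conj_ent]
  congr 1
  simp
  ring

/-- conjugation by an upper unipotent matrix -/
theorem exists_up (h : Cv ρ) : ∃ f : F →+* LL F,
    (∀ w ∈ KK ρ, f w = algebraMap F (LL F) w) ∧
    (∀ z c, f z = algebraMap F (LL F) c → c = z) ∧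
    (∀ g, f ((ρ g).1 1 0) = algebraMap F (LL F) ((ρ g).1 1 0)) ∧
    ∀ g, f ((ρ g).1 0 0) = algebraMap F⟦X⟧ (LL F) (C ((ρ g).1 0 0) + C ((ρ g).1 1 0) * X) := by
  have hPQ : (!![1, X; 0, 1] : Matrix (Fin 2) (Fin 2) F⟦X⟧) * !![1, -X; 0, 1] = 1 := by
    ext i j
    fin_cases i <;> fin_cases j <;> simp
  obtain ⟨f, hf, hf'⟩ := exists_conj h !![1, X; 0, 1] !![1, -X; 0, 1] hPQ (by
    ext i j
    fin_cases i <;> fin_cases j <;> simp)
  refine ⟨f, fix_KK (trace_fix hPQ hf), hf', fun g => ?_, fun g => ?_⟩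
  · rw [hf, algebraMap_LL, conj_ent]
    congr 1
    simp
  · rw [hf, conj_ent]
    congr 1
    simp
    ring

/-- conjugation by a diagonal matrix -/
theorem exists_tor (h : Cv ρ) : ∃ (f : F →+* LL F) (u : F⟦X⟧), (1 + X) * u = 1 ∧
    (∀ w ∈ KK ρ, f w = algebraMap F (LL F) w) ∧
    (∀ z c, f z = algebraMap F (LL F) c → c = z) ∧
    ∀ g, f ((ρ g).1 1 0) = algebraMap F⟦X⟧ (LL F) (C ((ρ g).1 1 0) * u) := by
  have h1 : IsUnit (1 + X : F⟦X⟧) := by
    rw [PowerSeries.isUnit_iff_constantCoeff]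
    simp
  obtain ⟨u, hu⟩ := h1.exists_right_inv
  have hPQ : (!![1 + X, 0; 0, 1] : Matrix (Fin 2) (Fin 2) F⟦X⟧) * !![u, 0; 0, 1] = 1 := by
    ext i j
    fin_cases i <;> fin_cases j <;> simp [hu]
  obtain ⟨f, hf, hf'⟩ := exists_conj h !![1 + X, 0; 0, 1] !![u, 0; 0, 1] hPQ (by
    ext i j
    fin_cases i <;> fin_cases j <;> simp)
  refine ⟨f, u, hu, fix_KK (trace_fix hPQ hf), hf', fun g => ?_⟩
  rw [hf, conj_ent]
  congr 1
  simp

/-- at least three -/
theorem three_le (h : Cv ρ) (g k : Γ)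
    (hN : ((ρ g).1 * (ρ k).1 - (ρ k).1 * (ρ g).1).det ≠ 0) (hg : (ρ g).1 1 0 ≠ 0) :
    3 ≤ Algebra.trdeg (KK ρ) F := by
  obtain ⟨f1, f1K, f1c, f1e⟩ := exists_low h
  obtain ⟨f2, u, hu, f2K, f2c, f2e⟩ := exists_tor h
  obtain ⟨f3, f3K, f3c, f3e, f3a⟩ := exists_up h
  have hinj := IsFractionRing.injective F⟦X⟧ (LL F)
  have hu0 : u ≠ 0 := by
    intro h0
    rw [h0, mul_zero] at hu
    exact zero_ne_one hu
  have hu1 : algebraMap F⟦X⟧ (LL F) u ≠ 0 := by
    intro h0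
    exact hu0 (hinj (h0.trans (map_zero _).symm))
  let z1 : F := (ρ k).1 1 0 / (ρ g).1 1 0
  let z2 : F := (ρ g).1 1 0
  let z3 : F := (ρ g).1 0 0
  let x0 : Empty → F := fun e => e.elim
  let x1 : Option Empty → F := fun o => o.elim z1 x0
  let x2 : Option (Option Empty) → F := fun o => o.elim z2 x1
  let x3 : Option (Option (Option Empty)) → F := fun o => o.elim z3 x2
  have i0 : AlgebraicIndependent (KK ρ) x0 :=
    (algebraicIndependent_empty_type_iff).2 (FaithfulSMul.algebraMap_injective (KK ρ) F)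
  -- the first element
  have n1 : ∀ c, f1 z1 ≠ algebraMap F (LL F) c := by
    intro c hc
    have h1 := f1c _ _ hc
    rw [h1] at hc
    have h2 : f1 z1 * f1 ((ρ g).1 1 0) = f1 ((ρ k).1 1 0) := by
      rw [← map_mul]
      congr 1
      exact div_mul_cancel₀ _ hg
    rw [hc, f1e, f1e, algebraMap_LL, ← map_mul] at h2
    have h3 := hinj h2
    have c0 := congrArg (PowerSeries.coeff 0) h3
    have c1 := congrArg (PowerSeries.coeff 1) h3
    have c2 := congrArg (PowerSeries.coeff 2) h3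
    simp [PowerSeries.coeff_C_mul, PowerSeries.coeff_X_pow] at c0 c1 c2
    apply hN
    rw [← dN_eq]
    have e1 : (ρ k).1 1 0 = z1 * (ρ g).1 1 0 := (div_mul_cancel₀ _ hg).symm
    have e2 : (ρ k).1 0 0 = (ρ k).1 1 1 + z1 * ((ρ g).1 0 0 - (ρ g).1 1 1) := by
      linear_combination -c1
    have e3 : (ρ k).1 0 1 = z1 * (ρ g).1 0 1 := by
      linear_combination -c2
    rw [e1, e2, e3]
    unfold dN
    ring
  have i1 : AlgebraicIndependent (KK ρ) x1 := (i0.option_iff_transcendental z1).2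
    (transc f1 const_of_alg _ (fix_adjoin f1K (by rintro _ ⟨e, rfl⟩; exact e.elim)) z1 n1)
  -- the second element
  have f21 : f2 z1 = algebraMap F (LL F) z1 := by
    change f2 (_ / _) = algebraMap F (LL F) (_ / _)
    rw [map_div₀, map_div₀, f2e, f2e, map_mul, map_mul, ← algebraMap_LL, ← algebraMap_LL,
      mul_div_mul_right _ _ hu1]
  have n2 : ∀ c, f2 z2 ≠ algebraMap F (LL F) c := by
    intro c hc
    have h1 := f2c _ _ hc
    rw [h1, f2e, algebraMap_LL] at hc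
    have h3 := hinj hc
    have hC : (C z2 : F⟦X⟧) ≠ 0 := by
      intro h0
      apply hg
      have := congrArg (constantCoeff (R := F)) h0
      rw [constantCoeff_C, map_zero] at this
      exact this
    have h4 : u = 1 := mul_left_cancel₀ hC (h3.trans (mul_one _).symm)
    rw [h4, mul_one] at hu
    have h5 : (X : F⟦X⟧) = 0 := by linear_combination hu
    exact PowerSeries.X_ne_zero h5
  have i2 : AlgebraicIndependent (KK ρ) x2 := (i1.option_iff_transcendental z2).2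
    (transc f2 const_of_alg _ (fix_adjoin f2K (by
      rintro _ ⟨e, rfl⟩
      cases e with
      | none => exact f21
      | some e => exact e.elim)) z2 n2)
  -- the third element
  have f31 : f3 z1 = algebraMap F (LL F) z1 := by
    change f3 (_ / _) = algebraMap F (LL F) (_ / _)
    rw [map_div₀, map_div₀, f3e, f3e]
  have f32 : f3 z2 = algebraMap F (LL F) z2 := f3e g
  have n3 : ∀ c, f3 z3 ≠ algebraMap F (LL F) c := by
    intro c hc
    have h1 := f3c _ _ hc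
    rw [h1, f3a, algebraMap_LL] at hc
    have h3 := hinj hc
    have h4 : (C ((ρ g).1 1 0) : F⟦X⟧) * X = 0 := by
      linear_combination h3
    rcases mul_eq_zero.1 h4 with h5 | h5
    · apply hg
      have := congrArg (constantCoeff (R := F)) h5
      rw [constantCoeff_C, map_zero] at this
      exact this
    · exact PowerSeries.X_ne_zero h5
  have i3 : AlgebraicIndependent (KK ρ) x3 := (i2.option_iff_transcendental z3).2
    (transc f3 const_of_alg _ (fix_adjoin f3K (by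
      rintro _ ⟨e, rfl⟩
      match e with
      | none => exact f32
      | some none => exact f31
      | some (some e) => exact e.elim)) z3 n3)
  have h9 := i3.cardinalMk_le_trdeg
  have h10 : Cardinal.mk (Option (Option (Option Empty))) = 3 := by
    rw [Cardinal.mk_fintype]
    simp
  rwa [h10] at h9

/-- at most three -/
theorem le_three (h : Cv ρ) (g k : Γ)
    (hN : ((ρ g).1 * (ρ k).1 - (ρ k).1 * (ρ g).1).det ≠ 0) (hg : (ρ g).1 1 0 ≠ 0) :
    Algebra.trdeg (KK ρ) F ≤ 3 := by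
  classical
  let s : Set F := {(ρ g).1 0 0, (ρ g).1 1 0, (ρ k).1 1 0}
  let R := Algebra.adjoin (KK ρ) s
  have hs : ∀ x ∈ s, IsAlgebraic R x := fun x hx =>
    isAlgebraic_algebraMap (⟨x, Algebra.subset_adjoin hx⟩ : R)
  have ha : IsAlgebraic R ((ρ g).1 0 0) := hs _ (by simp [s])
  have hc : IsAlgebraic R ((ρ g).1 1 0) := hs _ (by simp [s])
  have hc1 : IsAlgebraic R ((ρ k).1 1 0) := hs _ (by simp [s])
  have hT : ∀ x, IsAlgebraic R (ρ x).1.trace := fun x =>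
    isAlgebraic_algebraMap (algebraMap (KK ρ) R (TT ρ x))
  have hmul : ∀ x y, (ρ (x * y)).1.trace = (ρ x).1 0 0 * (ρ y).1 0 0 + (ρ x).1 0 1 * (ρ y).1 1 0 +
      ((ρ x).1 1 0 * (ρ y).1 0 1 + (ρ x).1 1 1 * (ρ y).1 1 1) := by
    intro x y
    rw [map_mul, Matrix.trace_fin_two]
    change ((ρ x).1 * (ρ y).1) 0 0 + ((ρ x).1 * (ρ y).1) 1 1 = _
    rw [Matrix.mul_apply, Matrix.mul_apply, Fin.sum_univ_two, Fin.sum_univ_two]
  obtain ⟨hb, hd, ha1, hb1, hd1⟩ := alg_pair ha hc hc1 (hT g) (hT k) (hT (g * k)) hg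
    (Matrix.trace_fin_two _).symm (Matrix.trace_fin_two _).symm (hmul g k).symm
    (det_eq (ρ g)) (det_eq (ρ k))
  rw [← dN_eq] at hN
  have hent : ∀ x i j, IsAlgebraic R ((ρ x).1 i j) := by
    intro x
    have h3 : (ρ (x * (g * k))).1.trace = (ρ x).1 0 0 * ((ρ g).1 0 0 * (ρ k).1 0 0 +
        (ρ g).1 0 1 * (ρ k).1 1 0) + (ρ x).1 0 1 * ((ρ g).1 1 0 * (ρ k).1 0 0 +
        (ρ g).1 1 1 * (ρ k).1 1 0) + (ρ x).1 1 0 * ((ρ g).1 0 0 * (ρ k).1 0 1 +
        (ρ g).1 0 1 * (ρ k).1 1 1) + (ρ x).1 1 1 * ((ρ g).1 1 0 * (ρ k).1 0 1 +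
        (ρ g).1 1 1 * (ρ k).1 1 1) := by
      rw [hmul, map_mul ρ g k]
      change _ * ((ρ g).1 * (ρ k).1) 0 0 + _ * ((ρ g).1 * (ρ k).1) 1 0 +
        (_ * ((ρ g).1 * (ρ k).1) 0 1 + _ * ((ρ g).1 * (ρ k).1) 1 1) = _
      rw [Matrix.mul_apply, Matrix.mul_apply, Matrix.mul_apply, Matrix.mul_apply,
        Fin.sum_univ_two, Fin.sum_univ_two, Fin.sum_univ_two, Fin.sum_univ_two]
      ring
    obtain ⟨e1, e2, e3, e4⟩ := alg_all ha hb hc hd ha1 hb1 hc1 hd1 (hT x) (hT (x * g))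
      (hT (x * k)) (hT (x * (g * k))) hN (Matrix.trace_fin_two _).symm
      (show (ρ x).1 0 0 * (ρ g).1 0 0 + (ρ x).1 0 1 * (ρ g).1 1 0 + (ρ x).1 1 0 * (ρ g).1 0 1 +
        (ρ x).1 1 1 * (ρ g).1 1 1 = _ by rw [hmul]; ring)
      (show (ρ x).1 0 0 * (ρ k).1 0 0 + (ρ x).1 0 1 * (ρ k).1 1 0 + (ρ x).1 1 0 * (ρ k).1 0 1 +
        (ρ x).1 1 1 * (ρ k).1 1 1 = _ by rw [hmul]; ring) h3.symm
    intro i j
    fin_cases i <;> fin_cases j
    · exact e1
    · exact e2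
    · exact e3
    · exact e4
  have hO : ∀ x ∈ OO 2 ρ, IsAlgebraic R x := by
    intro x hx
    unfold OO at hx
    induction hx using Algebra.adjoin_induction with
    | mem x hx =>
      obtain ⟨y, i, j, rfl⟩ := hx
      exact hent y i j
    | algebraMap c =>
      have : algebraMap (ZMod 2) F c = algebraMap R F (algebraMap (ZMod 2) R c) := by
        exact DFunLike.congr_fun (Subsingleton.elim (algebraMap (ZMod 2) F)
          ((algebraMap R F).comp (algebraMap (ZMod 2) R))) c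
      rw [this]
      exact isAlgebraic_algebraMap _
    | add x y _ _ h1 h2 => exact h1.add h2
    | mul x y _ _ h1 h2 => exact h1.mul h2
  have hF : Algebra.IsAlgebraic R F := by
    refine ⟨fun x => ?_⟩
    obtain ⟨a, ha, b, hb, hb0, hx⟩ := h.frac x
    exact alg_of_mul (hO b hb) (hO a ha) hb0 hx
  have h1 := Algebra.IsAlgebraic.trdeg_le_cardinalMk (KK ρ) s (A := F)
  refine h1.trans ?_
  have h2 : Cardinal.mk s ≤ Cardinal.mk ({(ρ g).1 0 0, (ρ g).1 1 0, (ρ k).1 1 0} : Finset F) := by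
    refine Cardinal.mk_le_of_injective
      (f := fun x : s => ⟨x.1, by
        have h5 : x.1 ∈ s := x.2
        simp only [s, Set.mem_insert_iff, Set.mem_singleton_iff] at h5
        simp only [Finset.mem_insert, Finset.mem_singleton]
        exact h5⟩) ?_
    intro x y hxy
    have h6 := congrArg Subtype.val hxy
    exact Subtype.ext h6
  refine h2.trans ?_
  rw [Cardinal.mk_coe_finset]
  have h3 : ({(ρ g).1 0 0, (ρ g).1 1 0, (ρ k).1 1 0} : Finset F).card ≤ 3 := Finset.card_le_three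
  exact_mod_cast h3

/-- the transcendence degree of the trace field -/
theorem trdeg_KK (h : Cv ρ) (g k : Γ)
    (hN : ((ρ g).1 * (ρ k).1 - (ρ k).1 * (ρ g).1).det ≠ 0) :
    Algebra.trdeg (ZMod 2) (KK ρ) + 3 = Algebra.trdeg (ZMod 2) F := by
  have hg1 : ρ g ≠ 1 := by
    intro h0
    apply hN
    rw [h0]
    change (1 * (ρ k).1 - (ρ k).1 * 1).det = 0
    rw [one_mul, mul_one, sub_self, Matrix.det_zero]
  have hg := c_ne h g hg1
  have h1 := le_antisymm (le_three h g k hN hg) (three_le h g k hN hg)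
  rw [← h1]
  exact trdeg_add_eq (ZMod 2) (KK ρ) (A := F)


/-! ### generic representations -/

theorem _root_.Pool.Agent.SuSM.Gn.cv [Group.FG Γ] (h : Gn 2 ρ) (hf : Frc (OO 2 ρ)) : Cv ρ := by
  refine ⟨hf, fun R _ _ _ f P Q hPQ => ?_⟩
  obtain ⟨a, ha, b, hb, hab⟩ := h.good
  refine h.dom _ ha hb ?_
  change (conjM P Q hPQ (smap f (ρ (a * b * a⁻¹ * b⁻¹)))).1.trace ≠ 0
  rw [conjM_trace]
  have h1 : (smap f (ρ (a * b * a⁻¹ * b⁻¹))).1.trace = f (ρ (a * b * a⁻¹ * b⁻¹)).1.trace := by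
    rw [Matrix.trace_fin_two, Matrix.trace_fin_two, map_add]
    rfl
  rw [h1]
  exact (map_ne_zero f).2 hab

/-- the determinant of `A B - B A` in characteristic two -/
theorem det_comm_eq (A B : SpecialLinearGroup (Fin 2) F) :
    (A.1 * B.1 - B.1 * A.1).det = (A * B * A⁻¹ * B⁻¹).1.trace := by
  have h2 := FrH.two_eq_zero F
  have h3 : A * B * A⁻¹ * B⁻¹ * (B * A) = A * B := by group
  have h4 : (A * B * A⁻¹ * B⁻¹).1 * (B.1 * A.1) = A.1 * B.1 := congrArg Subtype.val h3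
  have h5 : A.1 * B.1 - B.1 * A.1 = ((A * B * A⁻¹ * B⁻¹).1 - 1) * (B.1 * A.1) := by
    rw [Matrix.sub_mul, h4, Matrix.one_mul]
  rw [h5, Matrix.det_mul, Matrix.det_mul, A.2, B.2, mul_one, mul_one]
  have h6 := (A * B * A⁻¹ * B⁻¹).2
  rw [Matrix.det_fin_two] at h6
  rw [Matrix.det_fin_two, Matrix.trace_fin_two]
  simp only [Matrix.sub_apply]
  rw [Matrix.one_apply_eq, Matrix.one_apply_eq, Matrix.one_apply_ne (by decide),
    Matrix.one_apply_ne (by decide)]
  linear_combination h6 + (1 - (A * B * A⁻¹ * B⁻¹).1 0 0 - (A * B * A⁻¹ * B⁻¹).1 1 1) * h2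

/-- THE TRANSCENDENCE DEGREE OF THE TRACE FIELD -/
theorem _root_.Pool.Agent.SuSM.Gn.trdeg_KK [Group.FG Γ] (h : Gn 2 ρ) (hf : Frc (OO 2 ρ)) :
    Algebra.trdeg (ZMod 2) (KK ρ) + 3 = Algebra.trdeg (ZMod 2) F := by
  obtain ⟨a, _, b, _, hab⟩ := h.good
  refine SuTk.trdeg_KK (h.cv hf) a b ?_
  rw [det_comm_eq]
  have h1 : ρ a * ρ b * (ρ a)⁻¹ * (ρ b)⁻¹ = ρ (a * b * a⁻¹ * b⁻¹) := by
    simp only [map_mul, map_inv]
  rw [h1]
  exact hab

end Pool.Agent.SuTk
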