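import Pool.Agent.Lib.MP_305fdd_al.Su.SM.Bad
import Pool.Agent.Lib.MP_305fdd_al.Su.CO.Main

/-!
# MP_305fdd_al, surface groups, block SM: the generic representation

`Gn p ρ`: the kernel of the map from the universal ring to the field `F` of `ρ` is the torsion
`ZZ p Λ` of the ideal of the bad representations.
-/

set_option autoImplicit false

namespace Pool.Agent.SuSM

open Matrix Pool.Agent.Lib.MP_305fdd_al Pool.Agent.FrN Pool.Agent.SuCO

/-- `ρ` is a generic representation -/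
def Gn (p : ℕ) {Λ F : Type} [Group Λ] [Field F] [Algebra (ZMod p) F]
    (ρ : Λ →* SpecialLinearGroup (Fin 2) F) : Prop :=
  ∀ x : SR p Λ, SR.lift (p := p) ρ x = 0 ↔ x ∈ ZZ p Λ

variable {p : ℕ} {Λ Δ F F' : Type} [Group Λ] [Group Δ] [Field F] [Field F'] [Algebra (ZMod p) F]
  [Algebra (ZMod p) F'] {ρ : Λ →* SpecialLinearGroup (Fin 2) F}
  {ρ' : Δ →* SpecialLinearGroup (Fin 2) F'}

theorem OO_eq_range (ρ : Λ →* SpecialLinearGroup (Fin 2) F) :
    OO p ρ = (SR.lift (p := p) ρ).range := by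
  rw [SR.range_lift]
  rfl

theorem lift_mem_OO (ρ : Λ →* SpecialLinearGroup (Fin 2) F) (x : SR p Λ) :
    SR.lift (p := p) ρ x ∈ OO p ρ := by
  rw [OO_eq_range]
  exact ⟨x, rfl⟩

/-- `r` is a specialisation of `ρ` iff it satisfies the same relations -/
theorem sp_iff {R : Type} [CommRing R] [Algebra (ZMod p) R] (r : Λ →* SpecialLinearGroup (Fin 2) R) :
    Sp p ρ r ↔ ∀ x : SR p Λ, SR.lift (p := p) ρ x = 0 → SR.lift (p := p) r x = 0 := by
  constructor
  · rintro ⟨φ, hφ⟩ x hx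
    have h1 : φ.comp ((SR.lift (p := p) ρ).codRestrict (OO p ρ) (lift_mem_OO ρ)) = SR.lift r := by
      refine SR.hom_ext fun g i j => ?_
      rw [SR.lift_rho, ← hφ, AlgHom.comp_apply]
      congr 1
      apply Subtype.ext
      exact SR.lift_rho ρ g i j
    rw [← h1, AlgHom.comp_apply]
    have h2 : ((SR.lift (p := p) ρ).codRestrict (OO p ρ) (lift_mem_OO ρ)) x = 0 :=
      Subtype.ext hx
    rw [h2, map_zero]
  · intro h
    have hs : Function.Surjective ((SR.lift (p := p) ρ).codRestrict (OO p ρ) (lift_mem_OO ρ)) := by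
      rintro ⟨y, hy⟩
      rw [OO_eq_range] at hy
      obtain ⟨x, hx⟩ := hy
      exact ⟨x, Subtype.ext hx⟩
    obtain ⟨φ, hφ⟩ := exists_lift ((SR.lift (p := p) ρ).codRestrict (OO p ρ) (lift_mem_OO ρ))
      (SR.lift (p := p) r) (fun x hx => h x (congrArg Subtype.val hx))
      (AlgHom.id (ZMod p) (OO p ρ)) fun y => hs y
    refine ⟨φ, fun g i j => ?_⟩
    rw [← SR.lift_rho (p := p) r g i j]
    refine hφ _ _ (Subtype.ext ?_)
    exact SR.lift_rho ρ g i j

theorem Gn.sp_iff (h : Gn p ρ) {R : Type} [CommRing R] [Algebra (ZMod p) R]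
    (r : Λ →* SpecialLinearGroup (Fin 2) R) :
    Sp p ρ r ↔ ∀ x ∈ ZZ p Λ, SR.lift (p := p) r x = 0 := by
  rw [SuSM.sp_iff]
  exact forall_congr' fun x => by rw [h x]

/-- a representation without torsion with respect to the bad ideal is a specialisation -/
theorem lift_zero_of_tor {R : Type} [CommRing R] [Algebra (ZMod p) R]
    (r : Λ →* SpecialLinearGroup (Fin 2) R)
    (hr : ∀ x : R, (∀ a ∈ Sq Λ, ∀ b ∈ Sq Λ, x * (r (a * b * a⁻¹ * b⁻¹)).1.trace = 0) → x = 0) :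
    ∀ x ∈ ZZ p Λ, SR.lift (p := p) r x = 0 := by
  rintro x ⟨k, hk⟩
  have key : ∀ k : ℕ, ∀ y : R, (∀ i ∈ bad r ^ k, i * y = 0) → y = 0 := by
    intro k
    induction k with
    | zero =>
      intro y hy
      have := hy 1 (by rw [pow_zero, Ideal.one_eq_top]; exact Submodule.mem_top)
      rwa [one_mul] at this
    | succ k ih =>
      intro y hy
      apply ih
      intro i hi
      apply hr
      intro a ha b hb
      have h1 : i * (r (a * b * a⁻¹ * b⁻¹)).1.trace ∈ bad r ^ (k + 1) := by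
        rw [pow_succ]
        exact Ideal.mul_mem_mul hi (Ideal.subset_span ⟨a, ha, b, hb, rfl⟩)
      have h2 := hy _ h1
      rw [mul_right_comm] at h2
      exact h2
  refine key k _ fun i hi => ?_
  have h1 : (SpecialLinearGroup.map ((SR.lift (p := p) r : SR p Λ →ₐ[ZMod p] R) :
      SR p Λ →+* R)).comp (SR.rho p Λ) = r := by
    ext x i j
    exact SR.lift_rho r x i j
  have h2 : bad r = (bad (SR.rho p Λ)).map ((SR.lift (p := p) r : SR p Λ →ₐ[ZMod p] R) :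
      SR p Λ →+* R) := by
    rw [← bad_map, h1]
  rw [h2, ← Ideal.map_pow] at hi
  induction hi using Submodule.span_induction with
  | mem i hi =>
    obtain ⟨j, hj, rfl⟩ := hi
    change SR.lift r j * SR.lift r x = 0
    rw [← map_mul, hk j hj, map_zero]
  | zero => exact zero_mul _
  | add a b _ _ h1 h2 => rw [add_mul, h1, h2, add_zero]
  | smul a b _ h1 => rw [smul_eq_mul, mul_assoc, h1, mul_zero]

/-- THE UNIVERSAL PROPERTY of generic representations -/
theorem Gn.ug (h : Gn p ρ) {R : Type} [CommRing R] [Algebra (ZMod p) R]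
    (r : Λ →* SpecialLinearGroup (Fin 2) R)
    (hr : ∀ x : R, (∀ a ∈ Sq Λ, ∀ b ∈ Sq Λ, x * (r (a * b * a⁻¹ * b⁻¹)).1.trace = 0) → x = 0) :
    Sp p ρ r := (h.sp_iff r).2 (lift_zero_of_tor r hr)

/-- good representations over domains are specialisations -/
theorem Gn.dom (h : Gn p ρ) {R : Type} [CommRing R] [IsDomain R] [Algebra (ZMod p) R]
    (r : Λ →* SpecialLinearGroup (Fin 2) R) {a b : Λ} (ha : a ∈ Sq Λ) (hb : b ∈ Sq Λ)
    (hab : (r (a * b * a⁻¹ * b⁻¹)).1.trace ≠ 0) : Sp p ρ r :=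
  h.ug r fun _ hx => (mul_eq_zero.1 (hx a ha b hb)).resolve_right hab

/-- the generic representation is good -/
theorem Gn.good [Fact p.Prime] [Group.FG Λ] (h : Gn p ρ) :
    ∃ a ∈ Sq Λ, ∃ b ∈ Sq Λ, (ρ (a * b * a⁻¹ * b⁻¹)).1.trace ≠ 0 := by
  have hnoeth : IsNoetherianRing (SR p Λ) := Algebra.FiniteType.isNoetherianRing (ZMod p) _
  by_contra hcon
  push Not at hcon
  have h1 : bad (SR.rho p Λ) ≤ ZZ p Λ := by
    rw [bad, Ideal.span_le]
    rintro _ ⟨a, ha, b, hb, rfl⟩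
    rw [SetLike.mem_coe, ← h, Matrix.trace_fin_two, map_add, SR.lift_rho, SR.lift_rho,
      ← Matrix.trace_fin_two]
    exact hcon a ha b hb
  obtain ⟨k, hk⟩ := tor_unif (bad (SR.rho p Λ))
  have h3 : (1 : SR p Λ) ∈ ZZ p Λ := by
    refine ⟨k + 1, fun i hi => ?_⟩
    rw [mul_one]
    have h4 : bad (SR.rho p Λ) ^ (k + 1) = ⊥ := by
      rw [pow_succ, eq_bot_iff, Ideal.mul_le]
      intro i hi j hj
      exact hk j (h1 hj) i hi
    rw [h4] at hi
    exact hi
  have h5 := (h 1).2 h3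
  rw [map_one] at h5
  exact one_ne_zero h5

/-- conjugates are specialisations -/
theorem Gn.cj [Fact p.Prime] [Group.FG Λ] (h : Gn p ρ) (P Q : Matrix (Fin 2) (Fin 2) F)
    (hPQ : P * Q = 1) : Sp p ρ ((cjM P Q hPQ).comp ρ) := by
  obtain ⟨a, ha, b, hb, hab⟩ := h.good
  refine h.dom _ ha hb ?_
  rw [MonoidHom.comp_apply, cjM_apply, Matrix.trace_mul_comm, ← Matrix.mul_assoc,
    mul_eq_one_comm.1 hPQ, Matrix.one_mul]
  exact hab

/-- TRANSPORT of the finite specialisations -/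
theorem Gn.tp [Fact p.Prime] [Group.FG Λ] [Group.FG Δ] (h : Gn p ρ) (h' : Gn p ρ')
    (Φ : NatBij Λ Δ) : Tp p Φ ρ ρ' := by
  intro R _ _ _ _ r hr
  rw [h'.sp_iff]
  exact tp_main Φ r ((h.sp_iff r).1 hr)

/-- the interface with block CO -/
theorem Gn.tr [Fact p.Prime] [Group.FG Λ] (h : Gn p ρ) {K : Type} [Field K] [Algebra (ZMod p) K]
    [Algebra K F] {T : Λ → K} (hT : ∀ g, (ρ g).1.trace = algebraMap K F (T g))
    (hf : Frc (BB p T)) : SuCO.TR p T ρ :=
  ⟨inferInstance, hT, hf, h.cj⟩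

/-- generic representations exist if the torsion is a prime ideal -/
theorem exists_gn (hp : (ZZ p Λ).IsPrime) : ∃ (F : Type) (_ : Field F) (_ : Algebra (ZMod p) F)
    (ρ : Λ →* SpecialLinearGroup (Fin 2) F), Gn p ρ ∧ Frc (OO p ρ) := by
  have hdom : IsDomain (SR p Λ ⧸ ZZ p Λ) := Ideal.Quotient.isDomain _
  let F := FractionRing (SR p Λ ⧸ ZZ p Λ)
  let e : SR p Λ →ₐ[ZMod p] F :=
    (IsScalarTower.toAlgHom (ZMod p) (SR p Λ ⧸ ZZ p Λ) F).comp (Ideal.Quotient.mkₐ (ZMod p) _)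
  have he : ∀ x, e x = algebraMap (SR p Λ ⧸ ZZ p Λ) F (Ideal.Quotient.mk _ x) := fun _ => rfl
  let ρ : Λ →* SpecialLinearGroup (Fin 2) F :=
    (SpecialLinearGroup.map (e : SR p Λ →+* F)).comp (SR.rho p Λ)
  have hρ : SR.lift (p := p) ρ = e := SR.lift_comp e
  have hmem : ∀ x, e x ∈ OO p ρ := fun x => by
    rw [← hρ]
    exact lift_mem_OO ρ x
  refine ⟨F, inferInstance, inferInstance, ρ, fun x => ?_, fun x => ?_⟩
  · rw [hρ, he, ← map_zero (algebraMap (SR p Λ ⧸ ZZ p Λ) F),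
      (IsFractionRing.injective (SR p Λ ⧸ ZZ p Λ) F).eq_iff, Ideal.Quotient.eq_zero_iff_mem]
  · obtain ⟨a, b, hb, rfl⟩ := IsFractionRing.div_surjective (A := SR p Λ ⧸ ZZ p Λ) x
    obtain ⟨a, rfl⟩ := Ideal.Quotient.mk_surjective a
    obtain ⟨b, rfl⟩ := Ideal.Quotient.mk_surjective b
    have hb0 : algebraMap (SR p Λ ⧸ ZZ p Λ) F (Ideal.Quotient.mk _ b) ≠ 0 := by
      intro h0
      rw [← map_zero (algebraMap (SR p Λ ⧸ ZZ p Λ) F),
        (IsFractionRing.injective (SR p Λ ⧸ ZZ p Λ) F).eq_iff] at h0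
      exact nonZeroDivisors.ne_zero hb h0
    exact ⟨e a, hmem a, e b, hmem b, hb0, div_mul_cancel₀ _ hb0⟩

end Pool.Agent.SuSM
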