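import Pool.Agent.Lib.MP_305fdd_al.Su.SM.Irr
import Pool.Agent.Lib.MP_305fdd_al.Su.SM.Pack

/-!
# MP_305fdd_al, surface groups, block SM: the transcendence degree
-/

set_option autoImplicit false

namespace Pool.Agent.SuSM

open Pool.Agent.Lib.MP_305fdd_al Pool.Agent.Lib.MP_305fdd_al.LW Pool.Agent.Su
  Pool.Agent.MP_305fdd_al Pool.Agent.FrN

variable {Λ F : Type} [Group Λ] [Field F] [Algebra (ZMod 2) F]
  {ρ : Λ →* Matrix.SpecialLinearGroup (Fin 2) F} {g : ℕ}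

/-- the map from the universal ring to the ring of the entries -/
noncomputable def toOO {p : ℕ} [Algebra (ZMod p) F] (ρ : Λ →* Matrix.SpecialLinearGroup (Fin 2) F) :
    SR p Λ →ₐ[ZMod p] OO p ρ := (SR.lift (p := p) ρ).codRestrict (OO p ρ) (lift_mem_OO ρ)

omit [Algebra (ZMod 2) F] in
theorem toOO_surjective {p : ℕ} [Algebra (ZMod p) F]
    (ρ : Λ →* Matrix.SpecialLinearGroup (Fin 2) F) : Function.Surjective (toOO (p := p) ρ) := by
  rintro ⟨y, hy⟩
  rw [OO_eq_range] at hy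
  obtain ⟨x, hx⟩ := hy
  exact ⟨x, Subtype.ext hx⟩

omit [Algebra (ZMod 2) F] in
theorem fg_OO {p : ℕ} [Algebra (ZMod p) F] [Group.FG Λ]
    (ρ : Λ →* Matrix.SpecialLinearGroup (Fin 2) F) : Algebra.FiniteType (ZMod p) (OO p ρ) :=
  Algebra.FiniteType.of_surjective (toOO ρ) (toOO_surjective ρ)

/-- THE LOWER BOUND -/
theorem le_trdeg [Group.FG Λ] (Φ : NatBij Λ (SurfaceGroup g)) (hg : 2 ≤ g) (h : Gn 2 ρ) :
    ((6 * g - 3 : ℕ) : Cardinal) ≤ Algebra.trdeg (ZMod 2) F := by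
  have h1 : (1 : SR 2 Λ) ∉ ZZ 2 Λ := fun h1 => zz_ne_top Φ hg ((Ideal.eq_top_iff_one _).2 h1)
  obtain ⟨x₀, hx₀, hx⟩ := exists_of_notMem h1
  obtain ⟨m, hm, hxm, k, hk⟩ := exists_point x₀ x₀ fun n => by
    rw [← pow_succ]
    have := hx (n + 1)
    rwa [mul_one] at this
  obtain ⟨κ, _, _, _, B, _, _, _, _, θ, hθx, -, t, ht⟩ := exists_dom Φ (by omega) m hm hx₀ hxm hk
  let iB : Algebra (ZMod 2) B := ((algebraMap κ B).comp (algebraMap (ZMod 2) κ)).toAlgebra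
  have iT : IsScalarTower (ZMod 2) κ B := IsScalarTower.of_algebraMap_eq fun _ => rfl
  have ht2 : AlgebraicIndependent (ZMod 2) fun i => θ (t i) :=
    ht.restrictScalars (algebraMap (ZMod 2) κ).injective
  -- the torsion is killed by `θ`
  have hkill : ∀ y ∈ ZZ 2 Λ, θ y = 0 := by
    rintro y ⟨n, hn⟩
    have h2 := congrArg θ (hn _ (Ideal.pow_mem_pow hx₀ n))
    rw [map_mul, map_pow, map_zero] at h2
    exact (mul_eq_zero.1 h2).resolve_left (pow_ne_zero n hθx)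
  let θ' : SR 2 Λ →ₐ[ZMod 2] B := zalg θ
  have hind : AlgebraicIndependent (ZMod 2) fun i => SR.lift (p := 2) ρ (t i) := by
    rw [algebraicIndependent_iff]
    intro P hP
    have e1 : SR.lift (p := 2) ρ (MvPolynomial.aeval t P) = 0 := by
      rw [← hP]
      exact (MvPolynomial.comp_aeval_apply t (SR.lift (p := 2) ρ) P)
    have e2 := hkill _ ((h _).1 e1)
    have e3 : MvPolynomial.aeval (fun i => θ' (t i)) P = θ' (MvPolynomial.aeval t P) :=
      (MvPolynomial.comp_aeval_apply t θ' P).symm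
    rw [algebraicIndependent_iff] at ht2
    exact ht2 P (e3.trans e2)
  have h3 := hind.cardinalMk_le_trdeg
  rwa [Cardinal.mk_fin] at h3

theorem arith_one {N D C q Q : ℕ} (hN : 1 ≤ N) (hq : q = Q ^ 2) (hQ : 0 < Q)
    {a : ℕ} (h1 : q ^ (N + 1 + 1) ≤ q * a + C * Q * q ^ (N + 1))
    (h3 : a ≤ q ^ N + D * q ^ (N - 1)) : Q ≤ 1 + D + C := by
  have hq0 : 0 < q := by rw [hq]; positivity
  have hqN : 0 < q ^ (N + 1) := pow_pos hq0 _
  have h4 : q ^ (N + 1) * q ≤ q ^ (N + 1) * ((1 + D + C) * Q) := by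
    obtain ⟨n, rfl⟩ : ∃ n, N = n + 1 := ⟨N - 1, by omega⟩
    rw [Nat.add_sub_cancel] at h3
    calc q ^ (n + 1 + 1) * q = q ^ (n + 1 + 1 + 1) := (pow_succ _ _).symm
      _ ≤ q * a + C * Q * q ^ (n + 1 + 1) := h1
      _ ≤ q * (q ^ (n + 1) + D * q ^ n) + C * Q * q ^ (n + 1 + 1) :=
        Nat.add_le_add_right (Nat.mul_le_mul_left _ h3) _
      _ = q ^ (n + 1 + 1) * 1 * 1 + D * q ^ (n + 1) * 1 * 1 + C * Q * q ^ (n + 1 + 1) := by ring
      _ ≤ q ^ (n + 1 + 1) * 1 * Q + D * q ^ (n + 1) * q * Q + C * Q * q ^ (n + 1 + 1) := by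
        refine Nat.add_le_add_right (Nat.add_le_add (Nat.mul_le_mul_left _ hQ) ?_) _
        exact Nat.mul_le_mul (Nat.mul_le_mul_left _ hq0) hQ
      _ = q ^ (n + 1 + 1) * ((1 + D + C) * Q) := by ring
  have h6 : q ≤ (1 + D + C) * Q := Nat.le_of_mul_le_mul_left h4 hqN
  rw [hq, pow_two] at h6
  exact Nat.le_of_mul_le_mul_right h6 hQ

/-- no large algebraically independent families -/
theorem not_indep [Group.FG Λ] (Φ : NatBij Λ (SurfaceGroup g)) (hg : 2 ≤ g)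
    (y : Fin (6 * g - 3 + 1) → OO 2 ρ) (hy : AlgebraicIndependent (ZMod 2) y) : False := by
  have hft : Algebra.FiniteType (ZMod 2) (OO 2 ρ) := fg_OO ρ
  have hdom : IsDomain (OO 2 ρ) := inferInstanceAs (IsDomain (OO 2 ρ).toSubring)
  obtain ⟨F₁, _, _, _, C, hC⟩ := FrH.domainStatement (ZMod 2) (OO 2 ρ) 1 one_ne_zero _ hy
  have hfin₁ : Module.Finite (ZMod 2) F₁ := Module.Finite.of_finite
  set r := Module.finrank (ZMod 2) F₁ with hr
  have hr0 : 0 < r := Module.finrank_pos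
  set D := 4 ^ (g - 1) with hD
  let e := r * (1 + D + C + 1)
  have he : 0 < e := by positivity
  let E := GaloisField 2 (e * 2)
  have hcard : Nat.card E = (2 ^ e) ^ 2 := by
    rw [← pow_mul]
    exact GaloisField.card 2 (e * 2) (by positivity)
  have hfinE : Finite E := Nat.finite_of_card_ne_zero (by
    rw [hcard]
    positivity)
  have hrank : Module.finrank (ZMod 2) E = e * 2 := GaloisField.finrank 2 (by positivity)
  have hdvd : r ∣ Module.finrank (ZMod 2) E := by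
    rw [hrank]
    exact ⟨(1 + D + C + 1) * 2, by simp only [e]; ring⟩
  obtain ⟨j⟩ := FiniteField.nonempty_algHom_of_finrank_dvd hdvd
  have h1 := hC E ⟨j⟩ (2 ^ e) hcard
  rw [Fintype.card_fin] at h1
  obtain ⟨hfinP, h3⟩ := card_points Φ hg E
  have h4 : Nat.card {ψ : OO 2 ρ →ₐ[ZMod 2] E // ψ 1 ≠ 0} ≤ Nat.card (SR 2 Λ →+* E) := by
    refine Nat.card_le_card_of_injective
      (fun ψ => ((ψ.1.comp (toOO ρ) : SR 2 Λ →ₐ[ZMod 2] E) : SR 2 Λ →+* E)) ?_
    rintro ⟨ψ, hψ⟩ ⟨ψ', hψ'⟩ heq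
    apply Subtype.ext
    refine AlgHom.ext fun z => ?_
    obtain ⟨x, rfl⟩ := toOO_surjective ρ z
    exact DFunLike.congr_fun heq x
  have h5 := arith_one (N := 6 * g - 3) (by omega) hcard (by positivity) h1 (h4.trans h3)
  have h9 : 1 + D + C + 1 ≤ e := Nat.le_mul_of_pos_left _ hr0
  have h10 : e < 2 ^ e := Nat.lt_pow_self one_lt_two
  omega

/-- THE TRANSCENDENCE DEGREE -/
theorem trdeg_eq [Group.FG Λ] (Φ : NatBij Λ (SurfaceGroup g)) (hg : 2 ≤ g) (h : Gn 2 ρ)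
    (hf : Frc (OO 2 ρ)) : Algebra.trdeg (ZMod 2) F = ((6 * g - 3 : ℕ) : Cardinal) := by
  refine le_antisymm ?_ (le_trdeg Φ hg h)
  have halg : Algebra.IsAlgebraic (Algebra.adjoin (ZMod 2) {x | ∃ g i j, x = (ρ g).1 i j}) F := by
    change Algebra.IsAlgebraic (OO 2 ρ) F
    refine ⟨fun x => ?_⟩
    obtain ⟨a, ha, b, hb, hb0, hx⟩ := hf x
    refine ⟨Polynomial.C ⟨b, hb⟩ * Polynomial.X - Polynomial.C ⟨a, ha⟩, fun h0 => hb0 ?_, ?_⟩
    · have h1 := congrArg (fun P => Polynomial.coeff P 1) h0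
      simp only [Polynomial.coeff_sub, Polynomial.coeff_C_mul, Polynomial.coeff_X_one, mul_one,
        Polynomial.coeff_C_succ, sub_zero, Polynomial.coeff_zero] at h1
      exact congrArg Subtype.val h1
    · rw [map_sub, map_mul, Polynomial.aeval_C, Polynomial.aeval_X, Polynomial.aeval_C,
        sub_eq_zero]
      change b * x = a
      rw [mul_comm]
      exact hx
  obtain ⟨T, hT, hTb⟩ := exists_isTranscendenceBasis_subset (R := ZMod 2)
    {x | ∃ g i j, x = (ρ g).1 i j}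
  rw [← hTb.cardinalMk_eq_trdeg]
  by_contra hcon
  rw [not_le] at hcon
  have h1 : Cardinal.mk (Fin (6 * g - 3 + 1)) ≤ Cardinal.mk T := by
    rw [Cardinal.mk_fin, Nat.cast_succ]
    exact Cardinal.add_one_le_of_lt hcon
  obtain ⟨i⟩ := (Cardinal.le_def _ _).1 h1
  have h2 : ∀ j, ((i j : T) : F) ∈ OO 2 ρ := fun j => Algebra.subset_adjoin (hT (i j).2)
  refine not_indep (ρ := ρ) Φ hg (fun j => ⟨_, h2 j⟩) ?_
  refine AlgebraicIndependent.of_comp (OO 2 ρ).val ?_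
  exact hTb.1.comp i i.injective

end Pool.Agent.SuSM
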