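import Pool.Agent.Lib.MP_305fdd_al.Su.SM.Rk
import Pool.Agent.Lib.MP_305fdd_al.Su.S.Defs

/-!
# MP_305fdd_al, surface groups: (E3) and (E4) for groups with `T g = 0 → g = 1`
-/

set_option autoImplicit false

namespace Pool.Agent.SuTk

open Matrix Pool.Agent.FrN Pool.Agent.FrAsm FrH Pool.Agent.FrS

variable {Γ F : Type} [Group Γ] [Field F] [Algebra (ZMod 2) F] {ρ : Γ →* SpecialLinearGroup (Fin 2) F}

/-- weakly universal representations with a good generic member -/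
theorem cv_of_WU (hf : Frc (OO 2 ρ)) (hu : SuS.WU ρ) (hg : SuS.Gd ρ) : Cv ρ := by
  refine ⟨hf, fun R _ _ _ f P Q hPQ => ?_⟩
  obtain ⟨a, ha, b, hb, hab⟩ := hg
  refine hu R _ ⟨a, ha, b, hb, ?_⟩
  change (conjM P Q hPQ (smap f (ρ (a * b * a⁻¹ * b⁻¹)))).1.trace ≠ 0
  rw [conjM_trace]
  have h1 : (smap f (ρ (a * b * a⁻¹ * b⁻¹))).1.trace = f (ρ (a * b * a⁻¹ * b⁻¹)).1.trace := by
    rw [Matrix.trace_fin_two, Matrix.trace_fin_two, map_add]
    rfl
  rw [h1]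
  exact (map_ne_zero f).2 hab

/-- `ρ` itself is good if `Γ` is not abelian -/
theorem gd_self (hinj : Function.Injective ρ) (hT : ∀ g, (ρ g).1.trace = 0 → g = 1)
    (hab : ¬ ∀ x y : Γ, x * y = y * x) : SuS.Gd ρ :=
  SuS.gd_of (G := ⊤) hinj hT (fun h => hab fun x y => h x trivial y trivial) ρ (RingHom.id F)
    fun _ _ => rfl

/-- the trivial representation is a specialisation -/
def Triv (ρ : Γ →* SpecialLinearGroup (Fin 2) F) : Prop :=
  ∃ φ : OO 2 ρ →ₐ[ZMod 2] ZMod 2, ∀ g i j, φ ⟨(ρ g).1 i j, mem_OO ρ g i j⟩ =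
    (1 : Matrix (Fin 2) (Fin 2) (ZMod 2)) i j

/-- traces are transcendental -/
theorem transc_trace (ht : Triv ρ) (z : Γ) (hz : (ρ z).1.trace ≠ 0) :
    Transcendental (ZMod 2) (ρ z).1.trace := by
  obtain ⟨φ, hφ⟩ := ht
  intro halg
  let t : OO 2 ρ := ⟨(ρ z).1 0 0, mem_OO ρ z 0 0⟩ + ⟨(ρ z).1 1 1, mem_OO ρ z 1 1⟩
  have ht0 : (t : F) = (ρ z).1.trace := by
    rw [Matrix.trace_fin_two]
    rfl
  have hφt : φ t = 0 := by
    rw [map_add, hφ, hφ, Matrix.one_apply_eq, Matrix.one_apply_eq]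
    rfl
  have hint : IsIntegral (ZMod 2) (ρ z).1.trace := isAlgebraic_iff_isIntegral.1 halg
  have hc := minpoly.coeff_zero_ne_zero hint hz
  apply hc
  have h1 : Polynomial.aeval t (minpoly (ZMod 2) (ρ z).1.trace) = 0 := by
    apply Subtype.ext
    have h2 := Polynomial.aeval_algHom_apply (OO 2 ρ).val t (minpoly (ZMod 2) (ρ z).1.trace)
    have h3 : (OO 2 ρ).val t = (ρ z).1.trace := ht0
    rw [h3, minpoly.aeval] at h2
    exact h2.symm
  have h4 := Polynomial.aeval_algHom_apply φ t (minpoly (ZMod 2) (ρ z).1.trace)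
  rw [h1, hφt, map_zero] at h4
  rw [Polynomial.coeff_zero_eq_eval_zero, ← Polynomial.coe_aeval_eq_eval]
  exact h4

section final

variable (hf : Frc (OO 2 ρ)) (hu : SuS.WU ρ) (hinj : Function.Injective ρ)
  (hT : ∀ g, (ρ g).1.trace = 0 → g = 1) (hab : ¬ ∀ x y : Γ, x * y = y * x) (ht : Triv ρ)
include hf hu hinj hT hab ht

/-- (E3) -/
theorem e3 {z : Γ} (hz : z ≠ 1) : 3 ≤ er {x : F | ∃ i j, x = (ρ z).1 i j} := by
  have h1 := E3 (cv_of_WU hf hu (gd_self hinj hT hab)) z (fun h => hz (hinj (h.trans (map_one ρ).symm)))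
    (transc_trace ht z fun h => hz (hT z h))
  refine h1.trans (er_mono ?_)
  rintro x ⟨g, hg, i, j, rfl⟩
  exact ⟨i, j, by rw [Set.mem_singleton_iff.1 hg]⟩

omit hf hu hinj hab ht in
theorem det_ne {g k : Γ} (hgk : g * k ≠ k * g) :
    ((ρ g).1 * (ρ k).1 - (ρ k).1 * (ρ g).1).det ≠ 0 := by
  rw [det_comm_eq]
  intro h
  have h1 : (ρ (g * k * g⁻¹ * k⁻¹)).1.trace = 0 := by
    simp only [map_mul, map_inv]
    exact h
  have h2 := hT _ h1
  rw [mul_inv_eq_one, mul_inv_eq_iff_eq_mul] at h2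
  exact hgk h2

omit ht in
/-- (E4): the rank of the entries of a subgroup which is not commutative -/
theorem e4_eq (A : Subgroup Γ) (hA : ¬ ∀ x ∈ A, ∀ y ∈ A, x * y = y * x) :
    er {x : F | ∃ a ∈ A, ∃ i j, x = (ρ a).1 i j} = er (trs ρ (A : Set Γ)) + 3 := by
  push Not at hA
  obtain ⟨g, hg, k, hk, hgk⟩ := hA
  exact E4 (cv_of_WU hf hu (gd_self hinj hT hab)) A hg hk (det_ne hT hgk)

omit hf hu hinj hab in
theorem one_le_trs {A : Set Γ} {z : Γ} (hzA : z ∈ A) (hz : z ≠ 1) : 1 ≤ er (trs ρ A) := by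
  refine le_er_iff.2 ⟨{(ρ z).1.trace}, ?_, ?_, Set.encard_singleton _⟩
  · rintro _ rfl
    exact ⟨z, hzA, rfl⟩
  · exact (algebraicIndependent_unique_type_iff).2 (transc_trace ht z fun h => hz (hT z h))

/-- (E4), the lower bound -/
theorem e4 (A : Subgroup Γ) (hA : ¬ ∀ x ∈ A, ∀ y ∈ A, x * y = y * x) :
    4 ≤ er {x : F | ∃ a ∈ A, ∃ i j, x = (ρ a).1 i j} := by
  rw [e4_eq hf hu hinj hT hab A hA]
  push Not at hA
  obtain ⟨g, hg, k, hk, hgk⟩ := hA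
  have h1 : 1 ≤ er (trs ρ (A : Set Γ)) := one_le_trs hT ht hg fun h => hgk (by
    rw [h, one_mul, mul_one])
  calc (4 : ℕ∞) = 1 + 3 := by norm_num
    _ ≤ _ := by gcongr

end final

end Pool.Agent.SuTk
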