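import Pool.Agent.Lib.MP_305fdd_al.Su.SM.Trk
import Pool.Agent.Lib.MP_305fdd_al.Fr.S.Rk

/-!
# MP_305fdd_al, surface groups: ranks of the entries of subgroups

`E3`: the entries of `ρ z` have rank `3` if the trace is transcendental.  `E4`: the entries of a
subgroup `H` with an irreducible pair have rank `3` more than the traces of `H`.
-/

set_option autoImplicit false

namespace Pool.Agent.SuTk

open Matrix Pool.Agent.FrN Pool.Agent.FrAsm PowerSeries FrH Pool.Agent.FrS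

variable {Γ F : Type} [Group Γ] [Field F] [Algebra (ZMod 2) F] {ρ : Γ →* SpecialLinearGroup (Fin 2) F}

/-- functions on `Option` -/
def cons1 {ι : Type} (z : F) (x : ι → F) : Option ι → F := fun o => o.elim z x

/-- the entries of the matrices `ρ g`, `g ∈ H` -/
def ents (ρ : Γ →* SpecialLinearGroup (Fin 2) F) (H : Set Γ) : Set F :=
  {x | ∃ g ∈ H, ∃ i j, x = (ρ g).1 i j}

theorem indep0 (ρ : Γ →* SpecialLinearGroup (Fin 2) F) :
    AlgebraicIndependent (KK ρ) (fun e : Empty => (e.elim : F)) :=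
  (algebraicIndependent_empty_type_iff).2 (FaithfulSMul.algebraMap_injective (KK ρ) F)

/-- two entries are independent over an algebraically independent family fixed by the torus and the
upper unipotent matrices -/
theorem indep_add (h : Cv ρ) (g : Γ) (hg : (ρ g).1 1 0 ≠ 0) {ι : Type} (x : ι → F)
    (hx : AlgebraicIndependent (KK ρ) x)
    (hx2 : ∀ (f : F →+* LL F) (u : F⟦X⟧), algebraMap F⟦X⟧ (LL F) u ≠ 0 →
      (∀ w ∈ KK ρ, f w = algebraMap F (LL F) w) →
      (∀ g, f ((ρ g).1 1 0) = algebraMap F⟦X⟧ (LL F) (C ((ρ g).1 1 0) * u)) →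
      ∀ i, f (x i) = algebraMap F (LL F) (x i)) :
    AlgebraicIndependent (KK ρ) (cons1 ((ρ g).1 0 0) (cons1 ((ρ g).1 1 0) x)) := by
  obtain ⟨f2, u, hu, f2K, f2c, f2e⟩ := exists_tor h
  obtain ⟨f3, f3K, f3c, f3e, f3a⟩ := exists_up h
  have hinj := IsFractionRing.injective F⟦X⟧ (LL F)
  have hu0 : u ≠ 0 := by
    intro h0
    rw [h0, mul_zero] at hu
    exact zero_ne_one hu
  have hu1 : algebraMap F⟦X⟧ (LL F) u ≠ 0 := by
    intro h0
    exact hu0 (hinj (h0.trans (map_zero _).symm))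
  let z2 : F := (ρ g).1 1 0
  let z3 : F := (ρ g).1 0 0
  have n2 : ∀ c, f2 z2 ≠ algebraMap F (LL F) c := by
    intro c hc
    have h1 := f2c _ _ hc
    rw [h1, f2e, algebraMap_LL] at hc
    have h3 := hinj hc
    have hC : (C z2 : F⟦X⟧) ≠ 0 := by
      intro h0
      apply hg
      have := congrArg (constantCoeff (R := F)) h0
      rw [constantCoeff_C, map_zero] at this
      exact this
    have h4 : u = 1 := mul_left_cancel₀ hC (h3.trans (mul_one _).symm)
    rw [h4, mul_one] at hu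
    have h5 : (X : F⟦X⟧) = 0 := by linear_combination hu
    exact PowerSeries.X_ne_zero h5
  have i2 : AlgebraicIndependent (KK ρ) (cons1 z2 x) := (hx.option_iff_transcendental z2).2
    (transc f2 const_of_alg _ (fix_adjoin f2K (by
      rintro _ ⟨e, rfl⟩
      exact hx2 f2 u hu1 f2K f2e e)) z2 n2)
  have f32 : f3 z2 = algebraMap F (LL F) z2 := f3e g
  have n3 : ∀ c, f3 z3 ≠ algebraMap F (LL F) c := by
    intro c hc
    have h1 := f3c _ _ hc
    rw [h1, f3a, algebraMap_LL] at hc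
    have h3 := hinj hc
    have h4 : (C ((ρ g).1 1 0) : F⟦X⟧) * X = 0 := by
      linear_combination h3
    rcases mul_eq_zero.1 h4 with h5 | h5
    · apply hg
      have := congrArg (constantCoeff (R := F)) h5
      rw [constantCoeff_C, map_zero] at this
      exact this
    · exact PowerSeries.X_ne_zero h5
  refine (i2.option_iff_transcendental z3).2
    (transc f3 const_of_alg _ (fix_adjoin f3K (by
      rintro _ ⟨e, rfl⟩
      match e with
      | none => exact f32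
      | some e =>
        refine hx2 f3 1 ?_ f3K (fun g => ?_) e
        · rw [map_one]; exact one_ne_zero
        · rw [f3e, mul_one, algebraMap_LL])) z3 n3)

/-- the quotient of two lower left entries is transcendental -/
theorem indep1 (h : Cv ρ) (g k : Γ) (hN : ((ρ g).1 * (ρ k).1 - (ρ k).1 * (ρ g).1).det ≠ 0)
    (hg : (ρ g).1 1 0 ≠ 0) :
    AlgebraicIndependent (KK ρ)
      (cons1 ((ρ k).1 1 0 / (ρ g).1 1 0) (fun e : Empty => (e.elim : F))) := by
  obtain ⟨f1, f1K, f1c, f1e⟩ := exists_low h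
  have hinj := IsFractionRing.injective F⟦X⟧ (LL F)
  let z1 : F := (ρ k).1 1 0 / (ρ g).1 1 0
  have n1 : ∀ c, f1 z1 ≠ algebraMap F (LL F) c := by
    intro c hc
    have h1 := f1c _ _ hc
    rw [h1] at hc
    have h2 : f1 z1 * f1 ((ρ g).1 1 0) = f1 ((ρ k).1 1 0) := by
      rw [← map_mul]
      congr 1
      exact div_mul_cancel₀ _ hg
    rw [hc, f1e, f1e, algebraMap_LL, ← map_mul] at h2
    have h3 := hinj h2
    have c0 := congrArg (PowerSeries.coeff 0) h3
    have c1 := congrArg (PowerSeries.coeff 1) h3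
    have c2 := congrArg (PowerSeries.coeff 2) h3
    simp [PowerSeries.coeff_C_mul, PowerSeries.coeff_X_pow] at c0 c1 c2
    apply hN
    rw [← dN_eq]
    have e1 : (ρ k).1 1 0 = z1 * (ρ g).1 1 0 := (div_mul_cancel₀ _ hg).symm
    have e2 : (ρ k).1 0 0 = (ρ k).1 1 1 + z1 * ((ρ g).1 0 0 - (ρ g).1 1 1) := by
      linear_combination -c1
    have e3 : (ρ k).1 0 1 = z1 * (ρ g).1 0 1 := by
      linear_combination -c2
    rw [e1, e2, e3]
    unfold dN
    ring
  exact ((indep0 ρ).option_iff_transcendental z1).2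
    (transc f1 const_of_alg _ (fix_adjoin f1K (by rintro _ ⟨e, rfl⟩; exact e.elim)) z1 n1)

/-- three elements of the field of the entries of two matrices -/
theorem indep3 (h : Cv ρ) (g k : Γ) (hN : ((ρ g).1 * (ρ k).1 - (ρ k).1 * (ρ g).1).det ≠ 0)
    (hg : (ρ g).1 1 0 ≠ 0) :
    AlgebraicIndependent (KK ρ) (cons1 ((ρ g).1 0 0) (cons1 ((ρ g).1 1 0)
      (cons1 ((ρ k).1 1 0 / (ρ g).1 1 0) (fun e : Empty => (e.elim : F))))) := by
  refine indep_add h g hg _ (indep1 h g k hN hg) ?_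
  intro f u hu hK he i
  match i with
  | none =>
    change f (_ / _) = algebraMap F (LL F) (_ / _)
    rw [map_div₀, map_div₀, he, he, map_mul, map_mul, ← algebraMap_LL, ← algebraMap_LL,
      mul_div_mul_right _ _ hu]
  | some e => exact e.elim

/-- two entries of one matrix -/
theorem indep2 (h : Cv ρ) (g : Γ) (hg : (ρ g).1 1 0 ≠ 0) :
    AlgebraicIndependent (KK ρ) (cons1 ((ρ g).1 0 0) (cons1 ((ρ g).1 1 0)
      (fun e : Empty => (e.elim : F)))) :=
  indep_add h g hg _ (indep0 ρ) fun _ _ _ _ _ e => e.elim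

/-! ### ranks -/

omit [Group Γ] in
theorem er_le_of_alg {X Y : Set F}
    (h : ∀ x ∈ X, IsAlgebraic (Algebra.adjoin (ZMod 2) Y) x) : er X ≤ er Y := by
  have h1 : X ⊆ (AlgebraicIndependent.matroid (ZMod 2) F).closure Y := by
    rw [AlgebraicIndependent.matroid_closure_eq]
    exact h
  calc er X ≤ er ((AlgebraicIndependent.matroid (ZMod 2) F).closure Y) := er_mono h1
    _ = er Y := Matroid.eRk_closure_eq _ _

theorem er_add_KK {ι : Type} (y : ι → F) (hy : AlgebraicIndependent (KK ρ) y)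
    (W : Set F) (hW : W ⊆ KK ρ) : ENat.card ι + er W ≤ er (Set.range y ∪ W) := by
  have h1 := er_add y hy (Subtype.val ⁻¹' W : Set (KK ρ))
  have h2 : algebraMap (KK ρ) F '' (Subtype.val ⁻¹' W : Set (KK ρ)) = W := by
    ext x
    constructor
    · rintro ⟨w, hw, rfl⟩
      exact hw
    · intro hx
      exact ⟨⟨x, hW hx⟩, hx, rfl⟩
  have h3 : er (Subtype.val ⁻¹' W : Set (KK ρ)) = er W := by
    have h4 := er_map ((KK ρ).val) (Subtype.val ⁻¹' W : Set (KK ρ))
    rw [← h4]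
    congr 1
  rw [h2, h3] at h1
  exact h1

theorem trs_sub (ρ : Γ →* SpecialLinearGroup (Fin 2) F) (H : Set Γ) : trs ρ H ⊆ KK ρ := by
  rintro _ ⟨g, _, rfl⟩
  exact trace_mem g

theorem alg_mem {Y : Set F} {x : F} (hx : x ∈ Y) : IsAlgebraic (Algebra.adjoin (ZMod 2) Y) x :=
  isAlgebraic_algebraMap (⟨x, Algebra.subset_adjoin hx⟩ : Algebra.adjoin (ZMod 2) Y)

omit [Algebra (ZMod 2) F] in
theorem ent_mem {H : Set Γ} {g : Γ} (hg : g ∈ H) (i j : Fin 2) : (ρ g).1 i j ∈ ents ρ H :=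
  ⟨g, hg, i, j, rfl⟩

theorem alg_tr {H : Set Γ} {x : F} (hx : x ∈ trs ρ H) :
    IsAlgebraic (Algebra.adjoin (ZMod 2) (ents ρ H)) x := by
  obtain ⟨g, hg, rfl⟩ := hx
  change IsAlgebraic _ (ρ g).1.trace
  rw [Matrix.trace_fin_two]
  exact (alg_mem (ent_mem hg 0 0)).add (alg_mem (ent_mem hg 1 1))

/-- (E3), general form: the entries of one matrix -/
theorem E3' (h : Cv ρ) (z : Γ) (hz : ρ z ≠ 1) : er (trs ρ {z}) + 2 ≤ er (ents ρ {z}) := by
  have hc := c_ne h z hz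
  have h1 := er_add_KK _ (indep2 h z hc) _ (trs_sub ρ {z})
  have h2 : ENat.card (Option (Option Empty)) = 2 := by
    rw [ENat.card_eq_coe_fintype_card]
    simp
  rw [h2, add_comm] at h1
  refine h1.trans (er_le_of_alg ?_)
  rintro x (⟨i, rfl⟩ | hx)
  · match i with
    | none => exact alg_mem (ent_mem (Set.mem_singleton z) 0 0)
    | some none => exact alg_mem (ent_mem (Set.mem_singleton z) 1 0)
    | some (some e) => exact e.elim
  · exact alg_tr hx

/-- (E3): the entries of `ρ z` have rank at least three if the trace is transcendental -/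
theorem E3 (h : Cv ρ) (z : Γ) (hz : ρ z ≠ 1)
    (ht : Transcendental (ZMod 2) (ρ z).1.trace) : 3 ≤ er (ents ρ {z}) := by
  refine le_trans ?_ (E3' h z hz)
  have h1 : (1 : ℕ∞) ≤ er (trs ρ {z}) := by
    refine le_er_iff.2 ⟨{(ρ z).1.trace}, ?_, ?_, ?_⟩
    · rintro _ rfl
      exact ⟨z, rfl, rfl⟩
    · exact (algebraicIndependent_unique_type_iff).2 ht
    · exact Set.encard_singleton _
  calc (3 : ℕ∞) = 1 + 2 := by norm_num
    _ ≤ _ := by gcongr

/-- (E4): the entries of a subgroup with an irreducible pair -/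
theorem E4_ge (h : Cv ρ) (H : Set Γ) {g k : Γ} (hgH : g ∈ H) (hkH : k ∈ H)
    (hN : ((ρ g).1 * (ρ k).1 - (ρ k).1 * (ρ g).1).det ≠ 0) :
    er (trs ρ H) + 3 ≤ er (ents ρ H) := by
  have hg1 : ρ g ≠ 1 := by
    intro h0
    apply hN
    rw [h0]
    change (1 * (ρ k).1 - (ρ k).1 * 1).det = 0
    rw [one_mul, mul_one, sub_self, Matrix.det_zero]
  have hc := c_ne h g hg1
  have h1 := er_add_KK _ (indep3 h g k hN hc) _ (trs_sub ρ H)
  have h2 : ENat.card (Option (Option (Option Empty))) = 3 := by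
    rw [ENat.card_eq_coe_fintype_card]
    simp
  rw [h2, add_comm] at h1
  refine h1.trans (er_le_of_alg ?_)
  rintro x (⟨i, rfl⟩ | hx)
  · match i with
    | none => exact alg_mem (ent_mem hgH 0 0)
    | some none => exact alg_mem (ent_mem hgH 1 0)
    | some (some none) =>
      change IsAlgebraic _ ((ρ k).1 1 0 / (ρ g).1 1 0)
      rw [div_eq_mul_inv]
      exact (alg_mem (ent_mem hkH 1 0)).mul (alg_mem (ent_mem hgH 1 0)).inv
    | some (some (some e)) => exact e.elim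
  · exact alg_tr hx

/-- (E4), the upper bound -/
theorem E4_le (h : Cv ρ) (H : Subgroup Γ) {g k : Γ} (hgH : g ∈ H) (hkH : k ∈ H)
    (hN : ((ρ g).1 * (ρ k).1 - (ρ k).1 * (ρ g).1).det ≠ 0) :
    er (ents ρ (H : Set Γ)) ≤ er (trs ρ (H : Set Γ)) + 3 := by
  classical
  have hg1 : ρ g ≠ 1 := by
    intro h0
    apply hN
    rw [h0]
    change (1 * (ρ k).1 - (ρ k).1 * 1).det = 0
    rw [one_mul, mul_one, sub_self, Matrix.det_zero]
  have hg := c_ne h g hg1
  let s : Set F := {(ρ g).1 0 0, (ρ g).1 1 0, (ρ k).1 1 0}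
  let R := Algebra.adjoin (ZMod 2) (trs ρ (H : Set Γ) ∪ s)
  have hs : ∀ x ∈ s, IsAlgebraic R x := fun x hx => alg_mem (Or.inr hx)
  have ha : IsAlgebraic R ((ρ g).1 0 0) := hs _ (by simp [s])
  have hc : IsAlgebraic R ((ρ g).1 1 0) := hs _ (by simp [s])
  have hc1 : IsAlgebraic R ((ρ k).1 1 0) := hs _ (by simp [s])
  have hT : ∀ x ∈ H, IsAlgebraic R (ρ x).1.trace := fun x hx => alg_mem (Or.inl ⟨x, hx, rfl⟩)
  have hmul : ∀ x y, (ρ (x * y)).1.trace = (ρ x).1 0 0 * (ρ y).1 0 0 + (ρ x).1 0 1 * (ρ y).1 1 0 +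
      ((ρ x).1 1 0 * (ρ y).1 0 1 + (ρ x).1 1 1 * (ρ y).1 1 1) := by
    intro x y
    rw [map_mul, Matrix.trace_fin_two]
    change ((ρ x).1 * (ρ y).1) 0 0 + ((ρ x).1 * (ρ y).1) 1 1 = _
    rw [Matrix.mul_apply, Matrix.mul_apply, Fin.sum_univ_two, Fin.sum_univ_two]
  obtain ⟨hb, hd, ha1, hb1, hd1⟩ := alg_pair ha hc hc1 (hT g hgH) (hT k hkH)
    (hT (g * k) (H.mul_mem hgH hkH)) hg
    (Matrix.trace_fin_two _).symm (Matrix.trace_fin_two _).symm (hmul g k).symm
    (det_eq (ρ g)) (det_eq (ρ k))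
  have hN' := hN
  rw [← dN_eq] at hN'
  have hent : ∀ x ∈ H, ∀ i j, IsAlgebraic R ((ρ x).1 i j) := by
    intro x hx
    have h3 : (ρ (x * (g * k))).1.trace = (ρ x).1 0 0 * ((ρ g).1 0 0 * (ρ k).1 0 0 +
        (ρ g).1 0 1 * (ρ k).1 1 0) + (ρ x).1 0 1 * ((ρ g).1 1 0 * (ρ k).1 0 0 +
        (ρ g).1 1 1 * (ρ k).1 1 0) + (ρ x).1 1 0 * ((ρ g).1 0 0 * (ρ k).1 0 1 +
        (ρ g).1 0 1 * (ρ k).1 1 1) + (ρ x).1 1 1 * ((ρ g).1 1 0 * (ρ k).1 0 1 +
        (ρ g).1 1 1 * (ρ k).1 1 1) := by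
      rw [hmul, map_mul ρ g k]
      change _ * ((ρ g).1 * (ρ k).1) 0 0 + _ * ((ρ g).1 * (ρ k).1) 1 0 +
        (_ * ((ρ g).1 * (ρ k).1) 0 1 + _ * ((ρ g).1 * (ρ k).1) 1 1) = _
      rw [Matrix.mul_apply, Matrix.mul_apply, Matrix.mul_apply, Matrix.mul_apply,
        Fin.sum_univ_two, Fin.sum_univ_two, Fin.sum_univ_two, Fin.sum_univ_two]
      ring
    obtain ⟨e1, e2, e3, e4⟩ := alg_all ha hb hc hd ha1 hb1 hc1 hd1 (hT x hx)
      (hT (x * g) (H.mul_mem hx hgH)) (hT (x * k) (H.mul_mem hx hkH))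
      (hT (x * (g * k)) (H.mul_mem hx (H.mul_mem hgH hkH))) hN' (Matrix.trace_fin_two _).symm
      (show (ρ x).1 0 0 * (ρ g).1 0 0 + (ρ x).1 0 1 * (ρ g).1 1 0 + (ρ x).1 1 0 * (ρ g).1 0 1 +
        (ρ x).1 1 1 * (ρ g).1 1 1 = _ by rw [hmul]; ring)
      (show (ρ x).1 0 0 * (ρ k).1 0 0 + (ρ x).1 0 1 * (ρ k).1 1 0 + (ρ x).1 1 0 * (ρ k).1 0 1 +
        (ρ x).1 1 1 * (ρ k).1 1 1 = _ by rw [hmul]; ring) h3.symm
    intro i j
    fin_cases i <;> fin_cases j
    · exact e1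
    · exact e2
    · exact e3
    · exact e4
  have h1 : er (ents ρ (H : Set Γ)) ≤ er (trs ρ (H : Set Γ) ∪ s) := by
    refine er_le_of_alg ?_
    rintro _ ⟨x, hx, i, j, rfl⟩
    exact hent x hx i j
  refine h1.trans ((er_union_le _ _).trans ?_)
  have h2 : er s ≤ 3 := by
    refine (Matroid.eRk_le_encard _ _).trans ?_
    refine (Set.encard_insert_le _ _).trans ?_
    have h3 : ({(ρ g).1 1 0, (ρ k).1 1 0} : Set F).encard ≤ 2 := by
      refine (Set.encard_insert_le _ _).trans ?_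
      rw [Set.encard_singleton]
      norm_num
    calc ({(ρ g).1 1 0, (ρ k).1 1 0} : Set F).encard + 1 ≤ 2 + 1 := by gcongr
      _ = 3 := by norm_num
  gcongr

theorem E4 (h : Cv ρ) (H : Subgroup Γ) {g k : Γ} (hgH : g ∈ H) (hkH : k ∈ H)
    (hN : ((ρ g).1 * (ρ k).1 - (ρ k).1 * (ρ g).1).det ≠ 0) :
    er (ents ρ (H : Set Γ)) = er (trs ρ (H : Set Γ)) + 3 :=
  le_antisymm (E4_le h H hgH hkH hN) (E4_ge h _ hgH hkH hN)

end Pool.Agent.SuTk
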