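import Pool.Agent.Lib.MP_305fdd_al.Su.SM.Ser

/-!
# MP_305fdd_al, surface groups, block SM: the dimension of the cotangent space, domains
-/

set_option autoImplicit false

namespace Pool.Agent.SuSM

open Finsupp Pool.Agent.Lib.MP_305fdd_al Pool.Agent.Lib.MP_305fdd_al.LW Pool.Agent.Su

/-! ### the dual numbers -/

section dual

variable {κ : Type} [Field κ]

/-- the dual numbers are a small extension -/
theorem small_dual : Small (TrivSqZeroExt.fstHom κ κ κ : DualNumber κ →ₐ[κ] κ).toRingHom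
    (TrivSqZeroExt.fstHom κ κ κ : DualNumber κ →ₐ[κ] κ).toRingHom
    (TrivSqZeroExt.inr : κ → DualNumber κ) where
  surj x := ⟨TrivSqZeroExt.inl x, TrivSqZeroExt.fst_inl κ x⟩
  add x y := TrivSqZeroExt.inr_add κ x y
  inj x hx := by
    have := congrArg TrivSqZeroExt.snd hx
    rwa [TrivSqZeroExt.snd_inr, TrivSqZeroExt.snd_zero] at this
  ker a := by
    constructor
    · intro ha
      refine ⟨a.snd, TrivSqZeroExt.ext ?_ ?_⟩
      · rw [TrivSqZeroExt.fst_inr]
        exact ha.symm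
      · rw [TrivSqZeroExt.snd_inr]
    · rintro ⟨x, rfl⟩
      exact TrivSqZeroExt.fst_inr κ x
  mul a x := by
    refine TrivSqZeroExt.ext ?_ ?_
    · rw [TrivSqZeroExt.fst_mul, TrivSqZeroExt.fst_inr, mul_zero, TrivSqZeroExt.fst_inr]
    · rw [TrivSqZeroExt.snd_mul, TrivSqZeroExt.snd_inr, TrivSqZeroExt.fst_inr,
        TrivSqZeroExt.snd_inr]
      simp only [MulOpposite.op_zero, zero_smul, add_zero, smul_eq_mul]
      rfl
  pi x := TrivSqZeroExt.fst_inr κ x

/-- products of elements of the kernel vanish -/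
theorem dual_mul_zero {a b : DualNumber κ} (ha : a.fst = 0) (hb : b.fst = 0) : a * b = 0 := by
  refine TrivSqZeroExt.ext ?_ ?_
  · rw [TrivSqZeroExt.fst_mul, ha, zero_mul, TrivSqZeroExt.fst_zero]
  · rw [TrivSqZeroExt.snd_mul, ha, hb, TrivSqZeroExt.snd_zero, zero_smul,
      MulOpposite.op_zero, zero_smul, add_zero]

end dual

/-- two homomorphisms to the dual numbers with the same values on the parameters -/
theorem hom_dual_ext {S κ : Type} [CommRing S] [Field κ] [Finite κ] [CharP κ 2] {z : S →+* κ}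
    {M : ℕ} {t : Fin M → S} (h : Par (RingHom.ker z) t) (f f' : S →+* DualNumber κ)
    (hf : ∀ x, (f x).fst = z x) (hf' : ∀ x, (f' x).fst = z x)
    (ht : ∀ i, (f (t i)).snd = (f' (t i)).snd) : f = f' := by
  have ht' : ∀ i, f (t i) = f' (t i) := fun i =>
    TrivSqZeroExt.ext (by rw [hf, hf']) (ht i)
  have hsq : ∀ f : S →+* DualNumber κ, (∀ x, (f x).fst = z x) → ∀ x ∈ RingHom.ker z ^ 2,
      f x = 0 := by
    intro f hf x hx
    rw [pow_two] at hx
    induction hx using Submodule.mul_induction_on' with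
    | mem_mul_mem a ha b hb =>
      rw [map_mul]
      exact dual_mul_zero ((hf a).trans ha) ((hf b).trans hb)
    | add a _ b _ ha hb => rw [map_add, ha, hb, add_zero]
  -- on the maximal ideal
  have hm : ∀ x ∈ RingHom.ker z, f x = f' x := by
    intro x hx
    obtain ⟨c, hc⟩ := h.gen x hx
    have h1 : x = (x - ∑ i, c i * t i) + ∑ i, c i * t i := by ring
    rw [h1, map_add, map_add, hsq f hf _ hc, hsq f' hf' _ hc, map_sum, map_sum]
    congr 1
    refine Finset.sum_congr rfl fun i _ => ?_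
    rw [map_mul, map_mul, ← ht' i, ← sub_eq_zero, ← sub_mul]
    refine dual_mul_zero ?_ ((hf _).trans (h.mem i))
    rw [TrivSqZeroExt.fst_sub, hf, hf', sub_self]
  refine RingHom.ext fun s => ?_
  have := Fintype.ofFinite κ
  obtain ⟨n, hn, hcard⟩ := FiniteField.card κ 2
  have hq : Fintype.card κ = 2 * 2 ^ ((n : ℕ) - 1) := by
    rw [hcard, ← pow_succ']
    congr 1
    have := n.pos
    omega
  have h1 : s ^ Fintype.card κ - s ∈ RingHom.ker z := by
    rw [RingHom.mem_ker, map_sub, map_pow, FiniteField.pow_card, sub_self]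
  have h2 := hm _ h1
  have h3 : f s ^ 2 = f' s ^ 2 := by
    have h4 : (f s - f' s) * (f s - f' s) = 0 :=
      dual_mul_zero (by rw [TrivSqZeroExt.fst_sub, hf, hf', sub_self])
        (by rw [TrivSqZeroExt.fst_sub, hf, hf', sub_self])
    have h5 : (2 : DualNumber κ) = 0 := by
      have h6 : (2 : κ) = 0 := CharTwo.two_eq_zero
      have h7 := congrArg (algebraMap κ (DualNumber κ)) h6
      rwa [map_ofNat, map_zero] at h7
    rw [← sub_eq_zero]
    linear_combination h4 + (f s * f' s - f' s ^ 2) * h5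
  rw [map_sub, map_sub, map_pow, map_pow, hq, pow_mul, pow_mul, h3] at h2
  exact sub_right_injective h2

/-- THE NUMBER OF PARAMETERS at a good point -/
theorem le_par {Λ : Type} [Group Λ] {g : ℕ} (Φ : NatBij Λ (SurfaceGroup g)) (hg : 1 ≤ g)
    {κ : Type} [Field κ] [Finite κ] [Algebra (ZMod 2) κ] (z : SR 2 Λ →+* κ) {M : ℕ}
    {t : Fin M → SR 2 Λ} (h : Par (RingHom.ker z) t) (x₀ : SR 2 Λ)
    (hx₀ : x₀ ∈ bad (SR.rho 2 Λ)) (hne : z x₀ ≠ 0) : 6 * g - 3 ≤ M := by
  have h2 : (2 : κ) = 0 := by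
    have h3 : (2 : ZMod 2) = 0 := rfl
    have h4 := congrArg (algebraMap (ZMod 2) κ) h3
    rwa [map_ofNat, map_zero] at h4
  have hch : CharP κ 2 := charP_of_injective_algebraMap (algebraMap (ZMod 2) κ).injective 2
  let r : Λ →* Matrix.SpecialLinearGroup (Fin 2) κ :=
    (Matrix.SpecialLinearGroup.map z).comp (SR.rho 2 Λ)
  have hfinD : Finite (DualNumber κ) := inferInstanceAs (Finite (κ × κ))
  have hr : bad ((Matrix.SpecialLinearGroup.map (RingHom.id κ)).comp r) ≠ ⊥ := by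
    rw [bad_map, bad_map, Ideal.map_map]
    intro h0
    apply hne
    have h1 := Ideal.mem_map_of_mem ((RingHom.id κ).comp z) hx₀
    rw [h0] at h1
    exact h1
  have hcard := card_lam' Φ hg h2 (small_dual (κ := κ)) (RingHom.id κ) rfl r hr
  -- the injection
  have hf : ∀ ψ : {ψ : Λ →* Matrix.SpecialLinearGroup (Fin 2) (DualNumber κ) //
      (Matrix.SpecialLinearGroup.map
        (TrivSqZeroExt.fstHom κ κ κ : DualNumber κ →ₐ[κ] κ).toRingHom).comp ψ = r},
      ∀ x, (SR.lift (p := 2) ψ.1 x).fst = z x := by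
    rintro ⟨ψ, hψ⟩ x
    have h1 : (zalg (TrivSqZeroExt.fstHom κ κ κ : DualNumber κ →ₐ[κ] κ).toRingHom :
        DualNumber κ →ₐ[ZMod 2] κ).comp (SR.lift (p := 2) ψ) = zalg z := by
      refine SR.hom_ext fun g i j => ?_
      rw [AlgHom.comp_apply, SR.lift_rho]
      exact congrArg (fun s : Λ →* Matrix.SpecialLinearGroup (Fin 2) κ => (s g).1 i j) hψ
    exact DFunLike.congr_fun h1 x
  have hinj : Function.Injective fun ψ : {ψ : Λ →* Matrix.SpecialLinearGroup (Fin 2)
      (DualNumber κ) // (Matrix.SpecialLinearGroup.map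
        (TrivSqZeroExt.fstHom κ κ κ : DualNumber κ →ₐ[κ] κ).toRingHom).comp ψ = r} =>
      fun i : Fin M => (SR.lift (p := 2) ψ.1 (t i)).snd := by
    intro ψ ψ' hψ
    have h1 := hom_dual_ext h (SR.lift (p := 2) ψ.1 : SR 2 Λ →+* DualNumber κ)
      (SR.lift (p := 2) ψ'.1 : SR 2 Λ →+* DualNumber κ) (hf ψ) (hf ψ') fun i => congrFun hψ i
    apply Subtype.ext
    refine MonoidHom.ext fun x => Subtype.ext (Matrix.ext fun i j => ?_)
    rw [← SR.lift_rho (p := 2) ψ.1, ← SR.lift_rho (p := 2) ψ'.1]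
    exact DFunLike.congr_fun h1 _
  have h3 := Nat.card_le_card_of_injective _ hinj
  rw [hcard, Nat.card_fun, Nat.card_eq_fintype_card (α := Fin M), Fintype.card_fin] at h3
  exact (Nat.pow_le_pow_iff_right (Finite.one_lt_card (α := κ))).1 h3

/-! ### the local situation -/

theorem exists_loc {S : Type} [CommRing S] [Algebra (ZMod 2) S] [Algebra.FiniteType (ZMod 2) S]
    (m : Ideal S) (hm : m.IsMaximal) (k : ℕ) (hk : 2 ≤ k) :
    ∃ (κ : Type) (_ : Field κ) (_ : Finite κ) (_ : Algebra (ZMod 2) κ) (A : Type)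
      (_ : CommRing A) (_ : Finite A) (_ : Algebra (ZMod 2) A) (q : S →+* A) (π : A →+* κ)
      (σ : κ →+* A) (M : ℕ) (t : Fin M → S), Loc q π σ t k ∧ (∀ x, q x = 0 ↔ x ∈ m ^ k) ∧
      ∀ x, π (q x) = 0 ↔ x ∈ m := by
  have hnoeth : IsNoetherianRing S := Algebra.FiniteType.isNoetherianRing (ZMod 2) S
  have hft : Algebra.FiniteType ℤ S := by
    have h1 : Algebra.FiniteType ℤ (ZMod 2) :=
      Algebra.FiniteType.of_surjective (Algebra.ofId ℤ (ZMod 2)) ZMod.intCast_surjective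
    exact Algebra.FiniteType.trans h1 inferInstance
  have hk0 : k ≠ 0 := by omega
  have hfinR : Finite (S ⧸ m ^ k) := Rep.finite_quotient_pow _ m hm k
  have hfinF : Finite (S ⧸ m) := by
    have := Rep.finite_quotient_pow _ m hm 1
    rwa [pow_one] at this
  let instF : Field (S ⧸ m) := Ideal.Quotient.field m
  have hle : m ^ k ≤ m := Ideal.pow_le_self hk0
  have hne : m ^ k ≠ ⊤ := fun h => hm.ne_top (top_le_iff.1 (h ▸ hle))
  have hntR : Nontrivial (S ⧸ m ^ k) := Ideal.Quotient.nontrivial_iff.2 hne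
  have hcR : CharP (S ⧸ m ^ k) 2 :=
    charP_of_injective_algebraMap (algebraMap (ZMod 2) _).injective 2
  have hcF : CharP (S ⧸ m) 2 :=
    charP_of_injective_algebraMap (algebraMap (ZMod 2) _).injective 2
  let _ : Fintype (S ⧸ m) := Fintype.ofFinite _
  obtain ⟨s, hs, hcard⟩ := FiniteField.card (S ⧸ m) 2
  let π : (S ⧸ m ^ k) →+* (S ⧸ m) := Ideal.Quotient.factor hle
  have hpow : ∀ y : S ⧸ m, y ^ (2 ^ ((s : ℕ) * k)) = y := by
    intro y
    rw [pow_mul, ← hcard]
    exact FiniteField.pow_card_pow k y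
  have hbig : k ≤ 2 ^ ((s : ℕ) * k) := by
    calc k ≤ 2 ^ k := (Nat.lt_pow_self one_lt_two).le
      _ ≤ 2 ^ ((s : ℕ) * k) := Nat.pow_le_pow_right two_pos
          (Nat.le_mul_of_pos_left _ s.pos)
  let fr : S →+* (S ⧸ m ^ k) :=
    (iterateFrobenius (S ⧸ m ^ k) 2 ((s : ℕ) * k)).comp (Ideal.Quotient.mk (m ^ k))
  have hfr : ∀ y, fr y = (Ideal.Quotient.mk (m ^ k) y) ^ (2 ^ ((s : ℕ) * k)) := fun y =>
    iterateFrobenius_def _ _ _
  have hfr0 : ∀ y ∈ m, fr y = 0 := by
    intro y hy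
    rw [hfr, ← map_pow, Ideal.Quotient.eq_zero_iff_mem]
    exact Ideal.pow_le_pow_right hbig (Ideal.pow_mem_pow hy _)
  let σ : (S ⧸ m) →+* (S ⧸ m ^ k) := Ideal.Quotient.lift m fr hfr0
  have hσ : ∀ c, π (σ c) = c := by
    intro c
    obtain ⟨y, rfl⟩ := Ideal.Quotient.mk_surjective c
    change π (fr y) = _
    rw [hfr, map_pow]
    exact hpow (Ideal.Quotient.mk m y)
  have hπq : ∀ x, π (Ideal.Quotient.mk (m ^ k) x) = Ideal.Quotient.mk m x := fun x => rfl
  have hker : RingHom.ker (π.comp (Ideal.Quotient.mk (m ^ k))) = m := by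
    ext x
    rw [RingHom.mem_ker, RingHom.comp_apply, hπq, Ideal.Quotient.eq_zero_iff_mem]
  obtain ⟨M, t, ht⟩ := exists_par m hm
  refine ⟨S ⧸ m, instF, hfinF, inferInstance, S ⧸ m ^ k, inferInstance, hfinR, inferInstance,
    Ideal.Quotient.mk _, π, σ, M, t, ⟨Ideal.Quotient.mk_surjective, hσ, ?_, ?_, hk⟩,
    fun x => Ideal.Quotient.eq_zero_iff_mem, fun x => ?_⟩
  · intro x
    rw [hker]
    exact Ideal.Quotient.eq_zero_iff_mem
  · rw [hker]
    exact ht
  · rw [hπq, Ideal.Quotient.eq_zero_iff_mem]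

/-- THE DOMAINS: elements which survive in the localisation at a good closed point survive in a
domain of dimension at least `6 g - 3` -/
theorem exists_dom {Λ : Type} [Group Λ] [Group.FG Λ] {g : ℕ} (Φ : NatBij Λ (SurfaceGroup g))
    (hg : 1 ≤ g) (m : Ideal (SR 2 Λ)) (hm : m.IsMaximal) {x₀ : SR 2 Λ}
    (hx₀ : x₀ ∈ bad (SR.rho 2 Λ)) (hne : x₀ ∉ m) {k : ℕ} {x : SR 2 Λ} (hx : x ∉ m ^ k) :
    ∃ (κ : Type) (_ : Field κ) (_ : Finite κ) (_ : Algebra (ZMod 2) κ) (B : Type)
      (_ : CommRing B) (_ : IsDomain B) (_ : Algebra κ B) (_ : Algebra.FiniteType κ B)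
      (θ : SR 2 Λ →+* B),
      θ x ≠ 0 ∧ Algebra.adjoin κ (Set.range θ) = ⊤ ∧
      ∃ t : Fin (6 * g - 3) → SR 2 Λ, AlgebraicIndependent κ fun i => θ (t i) := by
  classical
  have hx2 : x ∉ m ^ (k + 2) := fun h => hx (Ideal.pow_le_pow_right (Nat.le_add_right k 2) h)
  obtain ⟨κ, _, _, _, A, _, _, _, q, π, σ, M, t, hloc, hq, hπ⟩ := exists_loc m hm (k + 2) (by omega)
  have hne' : π (q x₀) ≠ 0 := fun h => hne ((hπ x₀).1 h)
  obtain ⟨θ₀, η, hη, hlin⟩ := exists_series Φ hloc x₀ hx₀ hne'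
  have hM : 6 * g - 3 ≤ M := le_par Φ hg (π.comp q) hloc.par x₀ hx₀ hne'
  have hθx : θ₀ x ≠ 0 := by
    intro h
    apply hx2
    rw [← hq, ← hη, h, map_zero]
  let B : Subalgebra κ (MvPowerSeries (Fin M) κ) := Algebra.adjoin κ (Set.range θ₀)
  have hmem : ∀ y, θ₀ y ∈ B := fun y => Algebra.subset_adjoin ⟨y, rfl⟩
  -- finite type
  have hB : B.FG := by
    obtain ⟨T, hT⟩ := (inferInstance : Algebra.FiniteType (ZMod 2) (SR 2 Λ)).out
    refine ⟨T.image θ₀, le_antisymm (Algebra.adjoin_mono ?_) (Algebra.adjoin_le ?_)⟩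
    · intro y hy
      obtain ⟨z, _, rfl⟩ := Finset.mem_image.1 (Finset.mem_coe.1 hy)
      exact ⟨z, rfl⟩
    · rintro _ ⟨y, rfl⟩
      have hy : y ∈ Algebra.adjoin (ZMod 2) (T : Set (SR 2 Λ)) := hT ▸ trivial
      induction hy using Algebra.adjoin_induction with
      | mem y hy =>
        exact Algebra.subset_adjoin (Finset.mem_coe.2 (Finset.mem_image_of_mem _ hy))
      | algebraMap c =>
        have : θ₀ (algebraMap (ZMod 2) _ c) = MvPowerSeries.C (algebraMap (ZMod 2) κ c) :=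
          DFunLike.congr_fun (Subsingleton.elim (θ₀.comp (algebraMap (ZMod 2) (SR 2 Λ)))
            ((MvPowerSeries.C (σ := Fin M) (R := κ)).comp (algebraMap (ZMod 2) κ))) c
        rw [this]
        exact Subalgebra.algebraMap_mem _ (algebraMap (ZMod 2) κ c)
      | add y z _ _ h1 h2 =>
        rw [map_add]
        exact add_mem h1 h2
      | mul y z _ _ h1 h2 =>
        rw [map_mul]
        exact mul_mem h1 h2
  let θ : SR 2 Λ →+* B := θ₀.codRestrict B hmem
  have hdomP : IsDomain (MvPowerSeries (Fin M) κ) := NoZeroDivisors.to_isDomain _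
  have hdom : IsDomain B := inferInstanceAs (IsDomain B.toSubring)
  have hind : AlgebraicIndependent κ fun i => θ₀ (t i) := algebraicIndependent_of_trunc _ hlin
  have hind' : AlgebraicIndependent κ fun i => θ (t i) := AlgebraicIndependent.of_comp B.val hind
  refine ⟨κ, inferInstance, inferInstance, inferInstance, B, inferInstance, hdom, inferInstance,
    B.fg_iff_finiteType.1 hB, θ, ?_, ?_, fun i => t (Fin.castLE hM i), ?_⟩
  · intro h
    exact hθx (congrArg Subtype.val h)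
  · have h1 : Set.range θ = (Subtype.val : B → _) ⁻¹' (Set.range θ₀) := by
      ext y
      constructor
      · rintro ⟨z, rfl⟩
        exact ⟨z, rfl⟩
      · rintro ⟨z, hz⟩
        exact ⟨z, Subtype.ext hz⟩
    rw [h1]
    exact Algebra.adjoin_adjoin_coe_preimage
  · exact hind'.comp _ (Fin.castLE_injective hM)

end Pool.Agent.SuSM
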