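import Pool.Agent.Lib.MP_305fdd_al.Su.SM.Univ
import Pool.Agent.Lib.MP_305fdd_al.NatBij

/-!
# MP_305fdd_al, surface groups, block SM: the ideal of the bad representations and its torsion;
transport of the representations which kill the torsion
-/

set_option autoImplicit false

namespace Pool.Agent.SuSM

open Matrix Pool.Agent.Lib.MP_305fdd_al

/-! ### torsion -/

section torsion

variable {R : Type} [CommRing R]

/-- the elements killed by a power of `J` -/
def tor (J : Ideal R) : Ideal R where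
  carrier := {x | ∃ k, ∀ i ∈ J ^ k, i * x = 0}
  zero_mem' := ⟨0, fun i _ => mul_zero i⟩
  add_mem' := by
    rintro x y ⟨k, hk⟩ ⟨l, hl⟩
    refine ⟨k + l, fun i hi => ?_⟩
    rw [mul_add, hk i (Ideal.pow_le_pow_right (Nat.le_add_right k l) hi),
      hl i (Ideal.pow_le_pow_right (Nat.le_add_left l k) hi), add_zero]
  smul_mem' := by
    rintro c x ⟨k, hk⟩
    refine ⟨k, fun i hi => ?_⟩
    rw [smul_eq_mul, mul_left_comm, hk i hi, mul_zero]

theorem mem_tor {J : Ideal R} {x : R} : x ∈ tor J ↔ ∃ k, ∀ i ∈ J ^ k, i * x = 0 := Iff.rfl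

/-- ARTIN-REES: approximate torsion is close to torsion -/
theorem exists_ar [IsNoetherianRing R] (J c : Ideal R) (k : ℕ) :
    ∃ n, 0 < n ∧ ∀ x : R, (∀ i ∈ J ^ k, i * x ∈ c ^ n) → ∃ y ∈ c, x - y ∈ tor J := by
  classical
  obtain ⟨s, hs⟩ := (isNoetherianRing_iff_ideal_fg R).1 inferInstance (J ^ k)
  let φ : R →ₗ[R] (s → R) := LinearMap.pi fun i => LinearMap.mulLeft R (i : R)
  have hφ : ∀ x i, φ x i = (i : R) * x := fun _ _ => rfl
  obtain ⟨m, hm⟩ := Ideal.exists_pow_inf_eq_pow_smul c (LinearMap.range φ)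
  refine ⟨m + 1, Nat.succ_pos m, fun x hx => ?_⟩
  have h1 : φ x ∈ c ^ (m + 1) • (⊤ : Submodule R (s → R)) := by
    have h2 : φ x = ∑ i : s, ((i : R) * x) • (Pi.single i (1 : R) : s → R) := by
      ext j
      rw [hφ, Finset.sum_apply, Finset.sum_eq_single j]
      · simp
      · intro b _ hb
        simp [Pi.single_eq_of_ne hb.symm]
      · intro h
        exact absurd (Finset.mem_univ j) h
    rw [h2]
    refine Submodule.sum_mem _ fun i _ => ?_
    exact Submodule.smul_mem_smul (hx _ (hs ▸ Ideal.subset_span i.2)) Submodule.mem_top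
  have h3 : φ x ∈ c ^ (m + 1) • ⊤ ⊓ LinearMap.range φ := ⟨h1, ⟨x, rfl⟩⟩
  rw [hm (m + 1) (Nat.le_succ m), Nat.add_sub_cancel_left, pow_one] at h3
  have h4 : φ x ∈ c • LinearMap.range φ :=
    Submodule.smul_mono le_rfl inf_le_right h3
  rw [← Submodule.map_top, ← Submodule.map_smul''] at h4
  obtain ⟨y, hy, hyx⟩ := h4
  refine ⟨y, ?_, k, ?_⟩
  · have h5 : c • (⊤ : Submodule R R) = c := by
      rw [smul_eq_mul, Ideal.mul_top]
    rw [← h5]
    exact hy
  · have h6 : ∀ i ∈ s, i * (x - y) = 0 := by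
      intro i hi
      have h7 := congrFun hyx ⟨i, hi⟩
      rw [hφ, hφ] at h7
      rw [mul_sub, sub_eq_zero]
      exact h7.symm
    intro i hi
    rw [← hs] at hi
    induction hi using Submodule.span_induction with
    | mem i hi => exact h6 i hi
    | zero => exact zero_mul _
    | add a b _ _ h1 h2 => rw [add_mul, h1, h2, add_zero]
    | smul a b _ h1 => rw [smul_eq_mul, mul_assoc, h1, mul_zero]

/-- membership in the torsion may be tested on generators -/
theorem tor_of_gen [IsNoetherianRing R] {S : Set R} {x : R} (h : ∀ s ∈ S, ∃ m, s ^ m * x = 0) :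
    x ∈ tor (Ideal.span S) := by
  let A : Ideal R := LinearMap.ker (LinearMap.toSpanSingleton R R x)
  have hA : ∀ i, i ∈ A ↔ i * x = 0 := fun i => by
    change i ∈ LinearMap.ker _ ↔ _
    rw [LinearMap.mem_ker, LinearMap.toSpanSingleton_apply, smul_eq_mul]
  have h1 : Ideal.span S ≤ A.radical := by
    rw [Ideal.span_le]
    intro s hs
    obtain ⟨m, hm⟩ := h s hs
    exact ⟨m, (hA _).2 hm⟩
  obtain ⟨k, hk⟩ := Ideal.exists_pow_le_of_le_radical_of_fg h1
    ((isNoetherianRing_iff_ideal_fg R).1 inferInstance _)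
  exact ⟨k, fun i hi => (hA i).1 (hk hi)⟩

/-- the torsion is killed by one power -/
theorem tor_unif [IsNoetherianRing R] (J : Ideal R) : ∃ k, ∀ x ∈ tor J, ∀ i ∈ J ^ k, i * x = 0 := by
  classical
  obtain ⟨s, hs⟩ := (isNoetherianRing_iff_ideal_fg R).1 inferInstance (tor J)
  have h1 : ∀ x ∈ s, ∃ k, ∀ i ∈ J ^ k, i * x = 0 := fun x hx => by
    have : x ∈ tor J := by
      rw [← hs]
      exact Ideal.subset_span hx
    exact this
  choose! f hf using h1
  refine ⟨s.sup f, fun x hx i hi => ?_⟩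
  rw [← hs] at hx
  induction hx using Submodule.span_induction with
  | mem x hx => exact hf x hx i (Ideal.pow_le_pow_right (Finset.le_sup (Finset.mem_coe.1 hx)) hi)
  | zero => exact mul_zero _
  | add a b _ _ h1 h2 => rw [mul_add, h1, h2, add_zero]
  | smul a b _ h1 => rw [smul_eq_mul, mul_left_comm, h1, mul_zero]

end torsion

/-! ### the ideal of the bad representations -/

/-- the subgroup generated by the squares -/
def Sq (Λ : Type) [Group Λ] : Subgroup Λ := Subgroup.closure (Set.range fun z : Λ => z ^ 2)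

theorem Sq_map {Λ Q : Type} [Group Λ] [Group Q] (r : Λ →* Q) :
    (Sq Λ).map r = Subgroup.closure ((fun z => z ^ 2) '' (r.range : Set Q)) := by
  rw [Sq, MonoidHom.map_closure]
  congr 1
  ext x
  constructor
  · rintro ⟨_, ⟨z, rfl⟩, rfl⟩
    exact ⟨r z, ⟨z, rfl⟩, (map_pow r z 2).symm⟩
  · rintro ⟨_, ⟨z, rfl⟩, rfl⟩
    exact ⟨z ^ 2, ⟨z, rfl⟩, map_pow r z 2⟩

section bad

variable {Λ Δ R R' : Type} [Group Λ] [Group Δ] [CommRing R] [CommRing R']

/-- the ideal of the bad representations -/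
def bad (r : Λ →* SpecialLinearGroup (Fin 2) R) : Ideal R :=
  Ideal.span {x | ∃ a ∈ Sq Λ, ∃ b ∈ Sq Λ, x = (r (a * b * a⁻¹ * b⁻¹)).1.trace}

theorem bad_map (r : Λ →* SpecialLinearGroup (Fin 2) R) (f : R →+* R') :
    bad ((SpecialLinearGroup.map f).comp r) = (bad r).map f := by
  rw [bad, bad, Ideal.map_span]
  congr 1
  have h : ∀ g, (((SpecialLinearGroup.map f).comp r) g).1.trace = f (r g).1.trace := by
    intro g
    rw [Matrix.trace_fin_two, Matrix.trace_fin_two, map_add]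
    rfl
  ext x
  constructor
  · rintro ⟨a, ha, b, hb, rfl⟩
    exact ⟨_, ⟨a, ha, b, hb, rfl⟩, (h _).symm⟩
  · rintro ⟨_, ⟨a, ha, b, hb, rfl⟩, rfl⟩
    exact ⟨a, ha, b, hb, (h _).symm⟩

/-- the ideal depends only on the image -/
theorem bad_le (r : Λ →* SpecialLinearGroup (Fin 2) R) (r' : Δ →* SpecialLinearGroup (Fin 2) R)
    (h : r.range = r'.range) : bad r ≤ bad r' := by
  rw [bad, Ideal.span_le]
  rintro _ ⟨a, ha, b, hb, rfl⟩
  have h1 : ∀ a ∈ Sq Λ, ∃ a' ∈ Sq Δ, r' a' = r a := by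
    intro a ha
    have h2 : r a ∈ (Sq Λ).map r := ⟨a, ha, rfl⟩
    rw [Sq_map, h, ← Sq_map] at h2
    exact h2
  obtain ⟨a', ha', h2⟩ := h1 a ha
  obtain ⟨b', hb', h3⟩ := h1 b hb
  refine Ideal.subset_span ⟨a', ha', b', hb', ?_⟩
  rw [map_mul, map_mul, map_mul, map_inv, map_inv, map_mul, map_mul, map_mul, map_inv, map_inv,
    h2, h3]

theorem bad_eq (r : Λ →* SpecialLinearGroup (Fin 2) R) (r' : Δ →* SpecialLinearGroup (Fin 2) R)
    (h : r.range = r'.range) : bad r = bad r' :=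
  le_antisymm (bad_le r r' h) (bad_le r' r h.symm)

end bad

/-! ### transport -/

/-- the torsion of the universal ring -/
noncomputable def ZZ (p : ℕ) (Λ : Type) [Group Λ] : Ideal (SR p Λ) := tor (bad (SR.rho p Λ))

theorem finite_SL {R : Type} [CommRing R] [Finite R] : Finite (SpecialLinearGroup (Fin 2) R) :=
  Finite.of_injective (fun g : SpecialLinearGroup (Fin 2) R => fun i j => g.1 i j)
    fun _ _ e => Subtype.ext (Matrix.ext fun i j => congrFun (congrFun e i) j)

section transport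

variable {p : ℕ} {Λ Δ : Type} [Group Λ] [Group Δ]

/-- the image of the ring depends only on the image of the group -/
theorem range_le_range {R : Type} [CommRing R] [Algebra (ZMod p) R]
    (r : Λ →* SpecialLinearGroup (Fin 2) R) (r' : Δ →* SpecialLinearGroup (Fin 2) R)
    (h : r.range ≤ r'.range) : (SR.lift (p := p) r).range ≤ (SR.lift (p := p) r').range := by
  rw [SR.range_lift, SR.range_lift]
  refine Algebra.adjoin_mono ?_
  rintro _ ⟨g, i, j, rfl⟩
  obtain ⟨x, hx⟩ := h ⟨g, rfl⟩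
  exact ⟨x, i, j, by rw [hx]⟩

/-- transport of a quotient -/
theorem exists_tr (Φ : NatBij Λ Δ) {A R : Type} [CommRing A] [CommRing R] [Algebra (ZMod p) A]
    [Algebra (ZMod p) R] [Finite A] [Finite R] (r : Λ →* SpecialLinearGroup (Fin 2) R)
    [Finite (SpecialLinearGroup (Fin 2) R)]
    (q : SR p Δ →ₐ[ZMod p] A) (hq : Function.Surjective q) (g : A →ₐ[ZMod p] R)
    (hg : g.comp q = SR.lift (Φ.toFun _ r)) :
    ∃ f : SR p Λ →ₐ[ZMod p] A, Function.Surjective f ∧ g.comp f = SR.lift r ∧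
      (bad (SR.rho p Λ)).map (f : SR p Λ →+* A) = (bad (SR.rho p Δ)).map (q : SR p Δ →+* A) := by
  have hfSL : Finite (SpecialLinearGroup (Fin 2) A) := finite_SL
  let u : Δ →* SpecialLinearGroup (Fin 2) A :=
    (SpecialLinearGroup.map (q : SR p Δ →+* A)).comp (SR.rho p Δ)
  let v : Λ →* SpecialLinearGroup (Fin 2) A := Φ.symm.toFun _ u
  have hgu : (SpecialLinearGroup.map (g : A →+* R)).comp u = Φ.toFun _ r := by
    ext x i j
    change g (q ((SR.rho p Δ x).1 i j)) = (Φ.toFun _ r x).1 i j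
    rw [← AlgHom.comp_apply, hg, SR.lift_rho]
  have hgv : (SpecialLinearGroup.map (g : A →+* R)).comp v = r := by
    change (SpecialLinearGroup.map (g : A →+* R)).comp (Φ.symm.toFun _ u) = r
    rw [← Φ.symm.nat, hgu]
    exact Φ.left_inv _ r
  have hfg : g.comp (SR.lift v) = SR.lift r := by
    rw [SR.lift_map, hgv]
  have huv : v.range = u.range := Φ.symm.range_eq u
  have hqu : SR.lift (p := p) u = q := SR.lift_comp q
  refine ⟨SR.lift v, ?_, hfg, ?_⟩
  · rw [← AlgHom.range_eq_top, eq_top_iff]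
    have h1 := range_le_range (p := p) u v huv.ge
    rw [hqu] at h1
    refine le_trans ?_ h1
    rw [← eq_top_iff, AlgHom.range_eq_top]
    exact hq
  · rw [← bad_map, ← bad_map]
    have h1 : (SpecialLinearGroup.map ((SR.lift (p := p) v : SR p Λ →ₐ[ZMod p] A) :
        SR p Λ →+* A)).comp (SR.rho p Λ) = v := by
      ext x i j
      exact SR.lift_rho v x i j
    rw [h1]
    exact bad_eq v u huv

theorem finite_quot [Fact p.Prime] [Group.FG Λ] {R : Type} [CommRing R] [Algebra (ZMod p) R]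
    [Finite R] (f : SR p Λ →ₐ[ZMod p] R) (n : ℕ) : Finite (SR p Λ ⧸ RingHom.ker f ^ n) := by
  have hnoeth : IsNoetherianRing (SR p Λ) := Algebra.FiniteType.isNoetherianRing (ZMod p) _
  have hfin1 : Finite (SR p Λ ⧸ RingHom.ker f) :=
    Finite.of_injective _ (RingHom.kerLift_injective (f : SR p Λ →+* R))
  exact Ideal.finite_quotient_pow ((isNoetherianRing_iff_ideal_fg _).1 hnoeth _) n

/-- a finite quotient with kernel a power of the kernel -/
theorem exists_pow_quot [Fact p.Prime] [Group.FG Λ] {R : Type} [CommRing R] [Algebra (ZMod p) R]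
    [Finite R] (f : SR p Λ →ₐ[ZMod p] R) (n : ℕ) (hn : 0 < n) :
    ∃ (A : Type) (_ : CommRing A) (_ : Algebra (ZMod p) A) (_ : Finite A)
      (q : SR p Λ →ₐ[ZMod p] A) (g : A →ₐ[ZMod p] R), Function.Surjective q ∧ g.comp q = f ∧
        ∀ x, q x = 0 ↔ x ∈ RingHom.ker f ^ n := by
  refine ⟨SR p Λ ⧸ RingHom.ker f ^ n, inferInstance, inferInstance, finite_quot f n,
    Ideal.Quotient.mkₐ (ZMod p) _, Ideal.Quotient.liftₐ _ f fun x hx => ?_,
    Ideal.Quotient.mkₐ_surjective _ _, ?_, fun x => ?_⟩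
  · exact Ideal.pow_le_self hn.ne' hx
  · rfl
  · exact Ideal.Quotient.eq_zero_iff_mem

/-- the kernel of the transported map contains the power of the kernel -/
theorem pow_le_of_comp {S A R : Type} [CommRing S] [CommRing A] [CommRing R] [Algebra (ZMod p) S]
    [Algebra (ZMod p) A] [Algebra (ZMod p) R] (f : S →ₐ[ZMod p] A) (g : A →ₐ[ZMod p] R) (n : ℕ)
    (hg : RingHom.ker g ^ n = ⊥) : ∀ x ∈ RingHom.ker (g.comp f) ^ n, f x = 0 := by
  intro x hx
  have h1 : (RingHom.ker (g.comp f)).map f ≤ RingHom.ker g := by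
    rw [Ideal.map_le_iff_le_comap]
    intro y hy
    exact hy
  have h2 := Ideal.mem_map_of_mem f hx
  rw [Ideal.map_pow] at h2
  have h3 := Ideal.pow_right_mono h1 n h2
  rw [hg] at h3
  exact h3

theorem ker_pow_eq {S A R : Type} [CommRing S] [CommRing A] [CommRing R] [Algebra (ZMod p) S]
    [Algebra (ZMod p) A] [Algebra (ZMod p) R] (q : S →ₐ[ZMod p] A) (hq : Function.Surjective q)
    (g : A →ₐ[ZMod p] R) (n : ℕ) (h : ∀ x, q x = 0 ↔ x ∈ RingHom.ker (g.comp q) ^ n) :
    RingHom.ker g ^ n = ⊥ := by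
  have h1 : RingHom.ker g ≤ (RingHom.ker (g.comp q)).map q := by
    intro y hy
    obtain ⟨x, rfl⟩ := hq y
    exact Ideal.mem_map_of_mem q hy
  rw [eq_bot_iff]
  intro y hy
  have h2 := Ideal.pow_right_mono h1 n hy
  rw [← Ideal.map_pow, Ideal.mem_map_iff_of_surjective q hq] at h2
  obtain ⟨x, hx, rfl⟩ := h2
  exact (h x).2 hx

theorem card_le_of_tr [Fact p.Prime] [Group.FG Λ] [Group.FG Δ] (Φ : NatBij Λ Δ) {R : Type}
    [CommRing R] [Algebra (ZMod p) R] [Finite R] [Finite (SpecialLinearGroup (Fin 2) R)]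
    (r : Λ →* SpecialLinearGroup (Fin 2) R) (n : ℕ) (hn : 0 < n) :
    Nat.card (SR p Δ ⧸ RingHom.ker (SR.lift (p := p) (Φ.toFun _ r)) ^ n) ≤
      Nat.card (SR p Λ ⧸ RingHom.ker (SR.lift (p := p) r) ^ n) := by
  obtain ⟨A, _, _, _, q, g, hq, hgq, hker⟩ :=
    exists_pow_quot (SR.lift (p := p) (Φ.toFun _ r)) n hn
  obtain ⟨f, hf, hgf, -⟩ := exists_tr Φ r q hq g hgq
  have h1 : RingHom.ker g ^ n = ⊥ := ker_pow_eq q hq g n (by rw [hgq]; exact hker)
  have h2 := pow_le_of_comp f g n h1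
  rw [hgf] at h2
  have hfin' := finite_quot (SR.lift (p := p) r) n
  have h3 : Nat.card A ≤ Nat.card (SR p Λ ⧸ RingHom.ker (SR.lift (p := p) r) ^ n) :=
    Nat.card_le_card_of_surjective (Ideal.Quotient.lift _ (f : SR p Λ →+* A) h2)
      (Ideal.Quotient.lift_surjective_of_surjective _ _ hf)
  refine le_trans (Nat.card_le_card_of_injective (Ideal.Quotient.lift _ (q : SR p Δ →+* A)
    fun x hx => (hker x).2 hx) ?_) h3
  rw [injective_iff_map_eq_zero]
  intro a
  obtain ⟨x, rfl⟩ := Ideal.Quotient.mk_surjective a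
  intro hx
  exact Ideal.Quotient.eq_zero_iff_mem.2 ((hker x).1 hx)

/-- the kernel of the map to the quotient is the power of the kernel -/
theorem exists_iso [Fact p.Prime] [Group.FG Λ] [Group.FG Δ] (Φ : NatBij Λ Δ) {R : Type}
    [CommRing R] [Algebra (ZMod p) R] [Finite R] [Finite (SpecialLinearGroup (Fin 2) R)]
    (r : Λ →* SpecialLinearGroup (Fin 2) R) (n : ℕ) (hn : 0 < n) :
    ∃ (A : Type) (_ : CommRing A) (_ : Algebra (ZMod p) A) (_ : Finite A)
      (f : SR p Λ →ₐ[ZMod p] A) (q : SR p Δ →ₐ[ZMod p] A) (g : A →ₐ[ZMod p] R),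
      Function.Surjective f ∧ Function.Surjective q ∧
      (∀ x, f x = 0 ↔ x ∈ RingHom.ker (SR.lift (p := p) r) ^ n) ∧
      (∀ x, q x = 0 ↔ x ∈ RingHom.ker (SR.lift (p := p) (Φ.toFun _ r)) ^ n) ∧
      g.comp f = SR.lift r ∧ g.comp q = SR.lift (Φ.toFun _ r) ∧
      (bad (SR.rho p Λ)).map (f : SR p Λ →+* A) = (bad (SR.rho p Δ)).map (q : SR p Δ →+* A) := by
  obtain ⟨A, _, _, _, q, g, hq, hgq, hker⟩ :=
    exists_pow_quot (SR.lift (p := p) (Φ.toFun _ r)) n hn
  obtain ⟨f, hf, hgf, hbad⟩ := exists_tr Φ r q hq g hgq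
  have h1 : RingHom.ker g ^ n = ⊥ := ker_pow_eq q hq g n (by rw [hgq]; exact hker)
  have h2 := pow_le_of_comp f g n h1
  rw [hgf] at h2
  refine ⟨A, _, _, ‹_›, f, q, g, hf, hq, fun x => ⟨fun hx => ?_, h2 x⟩, hker, hgf, hgq, hbad⟩
  have hfin := finite_quot (SR.lift (p := p) r) n
  have hfin' := finite_quot (SR.lift (p := p) (Φ.toFun _ r)) n
  have h5 := card_le_of_tr (p := p) Φ.symm (Φ.toFun _ r) n hn
  have h6 : Φ.symm.toFun _ (Φ.toFun _ r) = r := Φ.left_inv _ r
  rw [h6] at h5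
  have h4 : Nat.card (SR p Δ ⧸ RingHom.ker (SR.lift (p := p) (Φ.toFun _ r)) ^ n) ≤
      Nat.card A := by
    refine Nat.card_le_card_of_injective (Ideal.Quotient.lift _ (q : SR p Δ →+* A)
      fun x hx => (hker x).2 hx) ?_
    rw [injective_iff_map_eq_zero]
    intro a
    obtain ⟨x, rfl⟩ := Ideal.Quotient.mk_surjective a
    intro hx
    exact Ideal.Quotient.eq_zero_iff_mem.2 ((hker x).1 hx)
  have h7 : Function.Surjective (Ideal.Quotient.lift _ (f : SR p Λ →+* A) h2) :=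
    Ideal.Quotient.lift_surjective_of_surjective _ _ hf
  have h8 : Function.Bijective (Ideal.Quotient.lift _ (f : SR p Λ →+* A) h2) :=
    (Nat.bijective_iff_surjective_and_card _).2 ⟨h7, le_antisymm (h5.trans h4)
      (Nat.card_le_card_of_surjective _ h7)⟩
  rw [← Ideal.Quotient.eq_zero_iff_mem]
  apply h8.1
  rw [map_zero]
  exact hx

/-- TRANSPORT: the representations which kill the torsion are transported to representations which
kill the torsion. -/
theorem tp_main [Fact p.Prime] [Group.FG Λ] [Group.FG Δ] (Φ : NatBij Λ Δ) {R : Type} [CommRing R]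
    [Algebra (ZMod p) R] [Finite R] [Finite (SpecialLinearGroup (Fin 2) R)]
    (r : Λ →* SpecialLinearGroup (Fin 2) R) (h : ∀ x ∈ ZZ p Λ, SR.lift (p := p) r x = 0) :
    ∀ x ∈ ZZ p Δ, SR.lift (p := p) (Φ.toFun _ r) x = 0 := by
  rintro y ⟨k, hk⟩
  have hnoeth : IsNoetherianRing (SR p Λ) := Algebra.FiniteType.isNoetherianRing (ZMod p) _
  obtain ⟨n, hn, har⟩ := exists_ar (bad (SR.rho p Λ)) (RingHom.ker (SR.lift (p := p) r)) k
  obtain ⟨A, _, _, _, f, q, g, hf, hq, hfk, -, hgf, hgq, hbad⟩ := exists_iso (p := p) Φ r n hn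
  obtain ⟨x, hx⟩ := hf (q y)
  have h5 : ∀ i ∈ bad (SR.rho p Λ) ^ k, i * x ∈ RingHom.ker (SR.lift (p := p) r) ^ n := by
    intro i hi
    rw [← hfk]
    have h6 : f i ∈ ((bad (SR.rho p Δ)).map (q : SR p Δ →+* A)) ^ k := by
      rw [← hbad, ← Ideal.map_pow]
      exact Ideal.mem_map_of_mem (f : SR p Λ →+* A) hi
    rw [← Ideal.map_pow] at h6
    obtain ⟨j, hj, hj2⟩ := (Ideal.mem_map_iff_of_surjective (q : SR p Δ →+* A) hq).1 h6
    have h7 : q j = f i := hj2
    rw [map_mul, hx, ← h7, ← map_mul, hk j hj, map_zero]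
  obtain ⟨z, hz, hxz⟩ := har x h5
  have h8 : SR.lift (p := p) (Φ.toFun _ r) y = SR.lift (p := p) r x := by
    rw [← hgf, ← hgq, AlgHom.comp_apply, AlgHom.comp_apply, hx]
  have h7 : x = (x - z) + z := by ring
  rw [h8, h7, map_add, h _ hxz, zero_add]
  exact hz

end transport

end Pool.Agent.SuSM
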