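import Mathlib
import Pool.Agent.Lib.MP_305fdd_al.Su.Defs

/-!
# MP_305fdd_al, surface groups, block SM: lifts of homomorphisms of surface groups

`card_lifts`: for a surjective homomorphism `π : G → Q` of finite groups with commutative kernel `N`
and a homomorphism `ρ` of the surface group to `Q` such that `N` is generated by the commutators of its
elements with the elements over the image of `ρ`, the number of lifts of `ρ` to `G` is
`|N| ^ (2 g - 1)`.
-/

set_option autoImplicit false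

namespace Pool.Agent.SuSM

open Pool.Agent.Su

section grp

variable {G : Type} [Group G]

/-- the product of the commutators -/
def rel {g : ℕ} (a b : Fin g → G) : G :=
  (List.ofFn fun i => a i * b i * (a i)⁻¹ * (b i)⁻¹).prod

theorem rel_zero (a b : Fin 0 → G) : rel a b = 1 := rfl

theorem rel_succ {g : ℕ} (a b : Fin (g + 1) → G) :
    rel a b = a 0 * b 0 * (a 0)⁻¹ * (b 0)⁻¹ * rel (fun i => a i.succ) fun i => b i.succ := by
  unfold rel
  rw [List.ofFn_succ, List.prod_cons]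

theorem rel_map {H : Type} [Group H] (f : G →* H) {g : ℕ} (a b : Fin g → G) :
    f (rel a b) = rel (fun i => f (a i)) fun i => f (b i) := by
  induction g with
  | zero => rw [rel_zero, rel_zero, map_one]
  | succ g ih =>
    rw [rel_succ, rel_succ, map_mul, ih]
    simp only [map_mul, map_inv]

/-- the generator `a_i` of the surface group -/
def sA (g : ℕ) (i : Fin g) : SurfaceGroup g := PresentedGroup.of (Sum.inl i)

/-- the generator `b_i` of the surface group -/
def sB (g : ℕ) (i : Fin g) : SurfaceGroup g := PresentedGroup.of (Sum.inr i)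

theorem sg_top {g : ℕ} (H : Subgroup (SurfaceGroup g)) (h1 : ∀ i, sA g i ∈ H)
    (h2 : ∀ i, sB g i ∈ H) : ∀ x, x ∈ H := by
  intro x
  have h3 : Subgroup.closure (Set.range
      (PresentedGroup.of (rels := ({surfRel g} : Set (FreeGroup (Fin g ⊕ Fin g)))))) ≤ H := by
    refine (Subgroup.closure_le (K := (H : Subgroup (PresentedGroup
      ({surfRel g} : Set (FreeGroup (Fin g ⊕ Fin g))))))).2 ?_
    rintro _ ⟨i, rfl⟩
    rcases i with i | i
    · exact h1 i
    · exact h2 i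
  apply h3
  rw [PresentedGroup.closure_range_of]
  trivial

theorem sg_ext {g : ℕ} {f f' : SurfaceGroup g →* G} (h1 : ∀ i, f (sA g i) = f' (sA g i))
    (h2 : ∀ i, f (sB g i) = f' (sB g i)) : f = f' := by
  apply MonoidHom.ext
  intro x
  exact sg_top (f.eqLocus f') h1 h2 x

theorem sg_rel {g : ℕ} (f : SurfaceGroup g →* G) :
    rel (fun i => f (sA g i)) (fun i => f (sB g i)) = 1 := by
  let q : FreeGroup (Fin g ⊕ Fin g) →* SurfaceGroup g :=
    PresentedGroup.mk ({surfRel g} : Set (FreeGroup (Fin g ⊕ Fin g)))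
  have h1 : q (surfRel g) = 1 := by
    have : surfRel g ∈ Subgroup.normalClosure ({surfRel g} : Set (FreeGroup (Fin g ⊕ Fin g))) :=
      Subgroup.subset_normalClosure rfl
    exact (QuotientGroup.eq_one_iff _).2 this
  have h2 : surfRel g = rel (genA g) (genB g) := rfl
  have h3 := rel_map (f.comp q) (genA g) (genB g)
  rw [← h2, MonoidHom.comp_apply, h1, map_one] at h3
  exact h3.symm

/-- the homomorphism with given images of the generators -/
def mkS {g : ℕ} (a b : Fin g → G) (h : rel a b = 1) : SurfaceGroup g →* G :=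
  PresentedGroup.toGroup (f := Sum.elim a b) (by
    rintro r rfl
    have h2 : surfRel g = rel (genA g) (genB g) := rfl
    rw [h2, rel_map]
    simp only [genA, genB, FreeGroup.lift_apply_of, Sum.elim_inl, Sum.elim_inr]
    exact h)

theorem mkS_sA {g : ℕ} (a b : Fin g → G) (h : rel a b = 1) (i : Fin g) :
    mkS a b h (sA g i) = a i := PresentedGroup.toGroup.of _

theorem mkS_sB {g : ℕ} (a b : Fin g → G) (h : rel a b = 1) (i : Fin g) :
    mkS a b h (sB g i) = b i := PresentedGroup.toGroup.of _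

/-! ### the linearised relator -/

/-- the change of the relator -/
def dr {g : ℕ} (a b X Y : Fin g → G) : G :=
  rel (fun i => X i * a i) (fun i => Y i * b i) * (rel a b)⁻¹

/-- one commutator -/
def d1 (a b X Y : G) : G :=
  X * (a * b * a⁻¹ * X⁻¹ * (a * b * a⁻¹)⁻¹) * (a * Y * a⁻¹) *
    (a * b * a⁻¹ * b⁻¹ * Y⁻¹ * (a * b * a⁻¹ * b⁻¹)⁻¹)

variable {N : Subgroup G}

/-- `N` is commutative -/
def Com (N : Subgroup G) : Prop := ∀ x ∈ N, ∀ y ∈ N, x * y = y * x

theorem conj_mem (hN : N.Normal) {x : G} (hx : x ∈ N) (c : G) : c * x * c⁻¹ ∈ N :=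
  hN.conj_mem x hx c

theorem d1_mem (hN : N.Normal) {a b X Y : G} (hX : X ∈ N) (hY : Y ∈ N) : d1 a b X Y ∈ N :=
  N.mul_mem (N.mul_mem (N.mul_mem hX (conj_mem hN (N.inv_mem hX) _)) (conj_mem hN hY _))
    (conj_mem hN (N.inv_mem hY) _)

theorem d1_eq (hN : N.Normal) (hc : Com N) {a b X Y : G} (hX : X ∈ N) (hY : Y ∈ N) :
    X * a * (Y * b) * (X * a)⁻¹ * (Y * b)⁻¹ = d1 a b X Y * (a * b * a⁻¹ * b⁻¹) := by
  have h1 := hc _ (conj_mem hN (N.inv_mem hX) (a * b * a⁻¹)) _ (conj_mem hN hY a)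
  calc X * a * (Y * b) * (X * a)⁻¹ * (Y * b)⁻¹
      = X * ((a * Y * a⁻¹) * (a * b * a⁻¹ * X⁻¹ * (a * b * a⁻¹)⁻¹)) *
        (a * b * a⁻¹ * b⁻¹ * Y⁻¹ * (a * b * a⁻¹ * b⁻¹)⁻¹) * (a * b * a⁻¹ * b⁻¹) := by group
    _ = X * ((a * b * a⁻¹ * X⁻¹ * (a * b * a⁻¹)⁻¹) * (a * Y * a⁻¹)) *
        (a * b * a⁻¹ * b⁻¹ * Y⁻¹ * (a * b * a⁻¹ * b⁻¹)⁻¹) * (a * b * a⁻¹ * b⁻¹) := by rw [h1]
    _ = d1 a b X Y * (a * b * a⁻¹ * b⁻¹) := by
      unfold d1
      group

theorem dr_zero (a b X Y : Fin 0 → G) : dr a b X Y = 1 := by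
  unfold dr
  rw [rel_zero, rel_zero]
  group

theorem dr_succ (hN : N.Normal) (hc : Com N) {g : ℕ} (a b X Y : Fin (g + 1) → G)
    (hX : ∀ i, X i ∈ N) (hY : ∀ i, Y i ∈ N) :
    dr a b X Y = d1 (a 0) (b 0) (X 0) (Y 0) * (a 0 * b 0 * (a 0)⁻¹ * (b 0)⁻¹ *
      dr (fun i => a i.succ) (fun i => b i.succ) (fun i => X i.succ) (fun i => Y i.succ) *
        (a 0 * b 0 * (a 0)⁻¹ * (b 0)⁻¹)⁻¹) := by
  unfold dr
  rw [rel_succ, rel_succ, d1_eq hN hc (hX 0) (hY 0)]
  group

theorem dr_mem (hN : N.Normal) (hc : Com N) {g : ℕ} (a b X Y : Fin g → G)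
    (hX : ∀ i, X i ∈ N) (hY : ∀ i, Y i ∈ N) : dr a b X Y ∈ N := by
  induction g with
  | zero => rw [dr_zero]; exact N.one_mem
  | succ g ih =>
    rw [dr_succ hN hc a b X Y hX hY]
    exact N.mul_mem (d1_mem hN (hX 0) (hY 0)) (conj_mem hN (ih _ _ _ _ (fun i => hX _)
      fun i => hY _) _)

/-- rearrangement in a commutative subgroup -/
theorem com4 (hc : Com N) {x y z w : G} (_ : x ∈ N) (hy : y ∈ N) (hz : z ∈ N) (_ : w ∈ N) :
    x * y * (z * w) = x * z * (y * w) := by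
  have h := hc y hy z hz
  rw [mul_assoc, ← mul_assoc y, h]
  group

theorem d1_mul (hN : N.Normal) (hc : Com N) {a b X Y X' Y' : G} (hX : X ∈ N) (hY : Y ∈ N)
    (hX' : X' ∈ N) (hY' : Y' ∈ N) :
    d1 a b (X * X') (Y * Y') = d1 a b X Y * d1 a b X' Y' := by
  have i1 := conj_mem hN (N.inv_mem hX) (a * b * a⁻¹)
  have i1' := conj_mem hN (N.inv_mem hX') (a * b * a⁻¹)
  have i2 := conj_mem hN hY a
  have i2' := conj_mem hN hY' a
  have i3 := conj_mem hN (N.inv_mem hY) (a * b * a⁻¹ * b⁻¹)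
  have i3' := conj_mem hN (N.inv_mem hY') (a * b * a⁻¹ * b⁻¹)
  have e1 : (X * X')⁻¹ = X⁻¹ * X'⁻¹ := by
    rw [mul_inv_rev]
    exact hc _ (N.inv_mem hX') _ (N.inv_mem hX)
  have e2 : (Y * Y')⁻¹ = Y⁻¹ * Y'⁻¹ := by
    rw [mul_inv_rev]
    exact hc _ (N.inv_mem hY') _ (N.inv_mem hY)
  have k1 : a * b * a⁻¹ * (X * X')⁻¹ * (a * b * a⁻¹)⁻¹ =
      (a * b * a⁻¹ * X⁻¹ * (a * b * a⁻¹)⁻¹) * (a * b * a⁻¹ * X'⁻¹ * (a * b * a⁻¹)⁻¹) := by
    rw [e1]
    group
  have k2 : a * (Y * Y') * a⁻¹ = (a * Y * a⁻¹) * (a * Y' * a⁻¹) := by group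
  have k3 : a * b * a⁻¹ * b⁻¹ * (Y * Y')⁻¹ * (a * b * a⁻¹ * b⁻¹)⁻¹ =
      (a * b * a⁻¹ * b⁻¹ * Y⁻¹ * (a * b * a⁻¹ * b⁻¹)⁻¹) *
        (a * b * a⁻¹ * b⁻¹ * Y'⁻¹ * (a * b * a⁻¹ * b⁻¹)⁻¹) := by
    rw [e2]
    group
  unfold d1
  rw [k1, k2, k3, com4 hc hX hX' i1 i1', com4 hc (N.mul_mem hX i1) (N.mul_mem hX' i1') i2 i2',
    com4 hc (N.mul_mem (N.mul_mem hX i1) i2) (N.mul_mem (N.mul_mem hX' i1') i2') i3 i3']

theorem dr_mul (hN : N.Normal) (hc : Com N) {g : ℕ} (a b X Y X' Y' : Fin g → G)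
    (hX : ∀ i, X i ∈ N) (hY : ∀ i, Y i ∈ N) (hX' : ∀ i, X' i ∈ N) (hY' : ∀ i, Y' i ∈ N) :
    dr a b (fun i => X i * X' i) (fun i => Y i * Y' i) = dr a b X Y * dr a b X' Y' := by
  induction g with
  | zero => rw [dr_zero, dr_zero, dr_zero, one_mul]
  | succ g ih =>
    have h1 := ih (fun i => a i.succ) (fun i => b i.succ) (fun i => X i.succ)
      (fun i => Y i.succ) (fun i => X' i.succ) (fun i => Y' i.succ) (fun i => hX _)
      (fun i => hY _) (fun i => hX' _) fun i => hY' _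
    rw [dr_succ hN hc a b _ _ (fun i => N.mul_mem (hX i) (hX' i))
      (fun i => N.mul_mem (hY i) (hY' i)), h1, d1_mul hN hc (hX 0) (hY 0) (hX' 0) (hY' 0),
      dr_succ hN hc a b X Y hX hY, dr_succ hN hc a b X' Y' hX' hY']
    have m1 := dr_mem hN hc (fun i => a i.succ) (fun i => b i.succ) (fun i => X i.succ)
      (fun i => Y i.succ) (fun i => hX _) (fun i => hY _)
    have m2 := dr_mem hN hc (fun i => a i.succ) (fun i => b i.succ) (fun i => X' i.succ)
      (fun i => Y' i.succ) (fun i => hX' _) (fun i => hY' _)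
    set k := a 0 * b 0 * (a 0)⁻¹ * (b 0)⁻¹
    set u := dr (fun i => a i.succ) (fun i => b i.succ) (fun i => X i.succ)
      (fun i => Y i.succ)
    set v := dr (fun i => a i.succ) (fun i => b i.succ) (fun i => X' i.succ)
      (fun i => Y' i.succ)
    have e : k * (u * v) * k⁻¹ = (k * u * k⁻¹) * (k * v * k⁻¹) := by group
    rw [e]
    exact com4 hc (d1_mem hN (hX 0) (hY 0)) (d1_mem hN (hX' 0) (hY' 0)) (conj_mem hN m1 k)
      (conj_mem hN m2 k)

/-- the subgroup of `N` of all changes of the relator -/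
def KK (hN : N.Normal) (hc : Com N) {g : ℕ} (a b : Fin g → G) : Subgroup G where
  carrier := {n | ∃ X Y : Fin g → G, (∀ i, X i ∈ N) ∧ (∀ i, Y i ∈ N) ∧ dr a b X Y = n}
  one_mem' := ⟨fun _ => 1, fun _ => 1, fun _ => N.one_mem, fun _ => N.one_mem, by
    unfold dr
    simp only [one_mul]
    exact mul_inv_cancel _⟩
  mul_mem' := by
    rintro _ _ ⟨X, Y, hX, hY, rfl⟩ ⟨X', Y', hX', hY', rfl⟩
    exact ⟨_, _, fun i => N.mul_mem (hX i) (hX' i), fun i => N.mul_mem (hY i) (hY' i),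
      dr_mul hN hc a b X Y X' Y' hX hY hX' hY'⟩
  inv_mem' := by
    rintro _ ⟨X, Y, hX, hY, rfl⟩
    refine ⟨fun i => (X i)⁻¹, fun i => (Y i)⁻¹, fun i => N.inv_mem (hX i),
      fun i => N.inv_mem (hY i), ?_⟩
    have h1 := dr_mul hN hc a b X Y (fun i => (X i)⁻¹) (fun i => (Y i)⁻¹) hX hY
      (fun i => N.inv_mem (hX i)) fun i => N.inv_mem (hY i)
    simp only [mul_inv_cancel] at h1
    have h2 : dr a b (fun _ => 1) (fun _ => 1) = 1 := by
      unfold dr
      simp only [one_mul]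
      exact mul_inv_cancel _
    rw [h2] at h1
    exact (inv_eq_of_mul_eq_one_right h1.symm).symm

theorem KK_le (hN : N.Normal) (hc : Com N) {g : ℕ} (a b : Fin g → G) : KK hN hc a b ≤ N := by
  rintro _ ⟨X, Y, hX, hY, rfl⟩
  exact dr_mem hN hc a b X Y hX hY

/-- the elements which commute with `N` modulo `K` -/
def St (N K : Subgroup G) (hN : N.Normal) (hKN : K ≤ N) : Subgroup G where
  carrier := {c | ∀ n ∈ N, n * (c * n⁻¹ * c⁻¹) ∈ K}
  one_mem' := fun n _ => by
    have : n * (1 * n⁻¹ * 1⁻¹) = 1 := by group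
    rw [this]
    exact K.one_mem
  mul_mem' := by
    intro c d hc hd n hn
    have h1 := hc n hn
    have h2 := hd n hn
    have h3 := hc _ (hKN h2)
    have h4 : n * (c * d * n⁻¹ * (c * d)⁻¹) = n * (c * n⁻¹ * c⁻¹) *
        (n * (d * n⁻¹ * d⁻¹) * (c * (n * (d * n⁻¹ * d⁻¹))⁻¹ * c⁻¹))⁻¹ *
          (n * (d * n⁻¹ * d⁻¹)) := by group
    rw [h4]
    exact K.mul_mem (K.mul_mem h1 (K.inv_mem h3)) h2
  inv_mem' := by
    intro c hc n hn
    have h1 := hc _ (conj_mem hN hn c⁻¹)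
    have h2 : n * (c⁻¹ * n⁻¹ * c⁻¹⁻¹) = (c⁻¹ * n * c⁻¹⁻¹ * (c * (c⁻¹ * n * c⁻¹⁻¹)⁻¹ * c⁻¹))⁻¹ := by
      group
    rw [h2]
    exact K.inv_mem h1

theorem mem_St {N K : Subgroup G} {hN : N.Normal} {hKN : K ≤ N} {c : G} :
    c ∈ St N K hN hKN ↔ ∀ n ∈ N, n * (c * n⁻¹ * c⁻¹) ∈ K := Iff.rfl

theorem dr_one {g : ℕ} (a b : Fin g → G) : dr a b (fun _ => 1) (fun _ => 1) = 1 := by
  unfold dr
  simp only [one_mul]
  exact mul_inv_cancel _

theorem d1_one (a b : G) : d1 a b 1 1 = 1 := by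
  unfold d1
  group

/-- all elements of the subgroup generated by the `a i`, `b i` commute with `N` modulo the changes of
the relator -/
theorem closure_le_St (hN : N.Normal) (hc : Com N) {g : ℕ} (a b : Fin g → G) :
    Subgroup.closure (Set.range a ∪ Set.range b) ≤
      St N (KK hN hc a b) hN (KK_le hN hc a b) := by
  induction g with
  | zero =>
    rw [Subgroup.closure_le]
    rintro x (⟨i, _⟩ | ⟨i, _⟩)
    · exact i.elim0
    · exact i.elim0
  | succ g ih =>
    have h0 := ih (fun i => a i.succ) (fun i => b i.succ)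
    set K := KK hN hc a b with hK
    set S := St N K hN (KK_le hN hc a b) with hS
    set k := a 0 * b 0 * (a 0)⁻¹ * (b 0)⁻¹ with hk
    -- single commutators
    have s1 : ∀ X ∈ N, ∀ Y ∈ N, d1 (a 0) (b 0) X Y ∈ K := by
      intro X hX Y hY
      refine ⟨Fin.cons X fun _ => 1, Fin.cons Y fun _ => 1, ?_, ?_, ?_⟩
      · intro i
        refine Fin.cases ?_ (fun j => ?_) i
        · exact hX
        · exact N.one_mem
      · intro i
        refine Fin.cases ?_ (fun j => ?_) i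
        · exact hY
        · exact N.one_mem
      · rw [dr_succ hN hc a b _ _ (fun i => by
          refine Fin.cases ?_ (fun j => ?_) i
          · exact hX
          · exact N.one_mem) (fun i => by
          refine Fin.cases ?_ (fun j => ?_) i
          · exact hY
          · exact N.one_mem)]
        simp only [Fin.cons_zero, Fin.cons_succ]
        rw [dr_one]
        group
    -- changes of the tail
    have s2 : ∀ t ∈ KK hN hc (fun i => a i.succ) (fun i => b i.succ), k * t * k⁻¹ ∈ K := by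
      rintro _ ⟨X, Y, hX, hY, rfl⟩
      refine ⟨Fin.cons 1 X, Fin.cons 1 Y, ?_, ?_, ?_⟩
      · intro i
        refine Fin.cases ?_ (fun j => ?_) i
        · exact N.one_mem
        · exact hX j
      · intro i
        refine Fin.cases ?_ (fun j => ?_) i
        · exact N.one_mem
        · exact hY j
      · rw [dr_succ hN hc a b _ _ (fun i => by
          refine Fin.cases ?_ (fun j => ?_) i
          · exact N.one_mem
          · exact hX j) (fun i => by
          refine Fin.cases ?_ (fun j => ?_) i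
          · exact N.one_mem
          · exact hY j)]
        simp only [Fin.cons_zero, Fin.cons_succ]
        rw [d1_one, one_mul]
    have hc1 : a 0 * b 0 * (a 0)⁻¹ ∈ S := by
      rw [hS, mem_St]
      intro n hn
      have h1 := s1 n hn 1 N.one_mem
      have h2 : d1 (a 0) (b 0) n 1 = n * (a 0 * b 0 * (a 0)⁻¹ * n⁻¹ * (a 0 * b 0 * (a 0)⁻¹)⁻¹) := by
        unfold d1
        group
      rwa [h2] at h1
    have hc2 : k * (a 0)⁻¹ ∈ S := by
      rw [hS, mem_St]
      intro n hn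
      have h1 := s1 1 N.one_mem _ (conj_mem hN hn (a 0)⁻¹)
      have h2 : d1 (a 0) (b 0) 1 ((a 0)⁻¹ * n * (a 0)⁻¹⁻¹) =
          n * (k * (a 0)⁻¹ * n⁻¹ * (k * (a 0)⁻¹)⁻¹) := by
        unfold d1
        rw [hk]
        group
      rwa [h2] at h1
    have hc3 : (b 0)⁻¹ * (a 0)⁻¹ ∈ S := by
      have h1 := S.mul_mem (S.inv_mem hc1) hc2
      have h2 : (a 0 * b 0 * (a 0)⁻¹)⁻¹ * (k * (a 0)⁻¹) = (b 0)⁻¹ * (a 0)⁻¹ := by
        rw [hk]
        group
      rwa [h2] at h1
    have ha : a 0 ∈ S := by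
      have h1 := S.inv_mem (S.mul_mem hc3 hc1)
      have h2 : ((b 0)⁻¹ * (a 0)⁻¹ * (a 0 * b 0 * (a 0)⁻¹))⁻¹ = a 0 := by group
      rwa [h2] at h1
    have hb : b 0 ∈ S := by
      have h1 := S.inv_mem (S.mul_mem hc3 ha)
      have h2 : ((b 0)⁻¹ * (a 0)⁻¹ * a 0)⁻¹ = b 0 := by group
      rwa [h2] at h1
    have hkS : k ∈ S := S.mul_mem (S.mul_mem (S.mul_mem ha hb) (S.inv_mem ha)) (S.inv_mem hb)
    have s3 : KK hN hc (fun i => a i.succ) (fun i => b i.succ) ≤ K := by
      intro t ht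
      have h1 := s2 t ht
      have h2 := (mem_St.1 hkS) t (KK_le hN hc _ _ ht)
      have h3 := K.mul_mem h2 h1
      have h4 : t * (k * t⁻¹ * k⁻¹) * (k * t * k⁻¹) = t := by group
      rwa [h4] at h3
    have s4 : Subgroup.closure (Set.range (fun i : Fin g => a i.succ) ∪
        Set.range fun i : Fin g => b i.succ) ≤ S := by
      intro c hc'
      rw [hS, mem_St]
      intro n hn
      exact s3 ((mem_St.1 (h0 hc')) n hn)
    rw [Subgroup.closure_le]
    rintro x (⟨i, rfl⟩ | ⟨i, rfl⟩)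
    · refine Fin.cases ?_ (fun j => ?_) i
      · exact ha
      · exact s4 (Subgroup.subset_closure (Or.inl ⟨j, rfl⟩))
    · refine Fin.cases ?_ (fun j => ?_) i
      · exact hb
      · exact s4 (Subgroup.subset_closure (Or.inr ⟨j, rfl⟩))

/-- the fibres of a surjective homomorphism -/
theorem card_fiber {H L : Type} [Group H] [Group L] [Finite H] (f : H →* L)
    (hf : Function.Surjective f) (y : L) :
    Nat.card {x : H // f x = y} * Nat.card L = Nat.card H := by
  obtain ⟨x₀, hx₀⟩ := hf y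
  have h1 : Nat.card {x : H // f x = y} = Nat.card f.ker := by
    refine Nat.card_congr ⟨fun x => ⟨x.1 * x₀⁻¹, ?_⟩, fun k => ⟨k.1 * x₀, ?_⟩, ?_, ?_⟩
    · rw [MonoidHom.mem_ker, map_mul, map_inv, x.2, hx₀, mul_inv_cancel]
    · have h := k.2
      rw [MonoidHom.mem_ker] at h
      rw [map_mul, h, one_mul, hx₀]
    · intro x
      exact Subtype.ext (inv_mul_cancel_right x.1 x₀)
    · intro k
      exact Subtype.ext (mul_inv_cancel_right k.1 x₀)
  rw [h1, Subgroup.card_eq_card_quotient_mul_card_subgroup f.ker,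
    Nat.card_congr (QuotientGroup.quotientKerEquivOfSurjective f hf).toEquiv, mul_comm]

/-- the linearised relator as a homomorphism -/
def LL (hN : N.Normal) (hc : Com N) {g : ℕ} (a b : Fin g → G) :
    ((Fin g → N) × (Fin g → N)) →* N where
  toFun XY := ⟨dr a b (fun i => (XY.1 i : G)) (fun i => (XY.2 i : G)),
    dr_mem hN hc a b _ _ (fun i => (XY.1 i).2) fun i => (XY.2 i).2⟩
  map_one' := Subtype.ext (dr_one a b)
  map_mul' XY XY' := Subtype.ext (dr_mul hN hc a b _ _ _ _ (fun i => (XY.1 i).2)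
    (fun i => (XY.2 i).2) (fun i => (XY'.1 i).2) fun i => (XY'.2 i).2)

theorem LL_val (hN : N.Normal) (hc : Com N) {g : ℕ} (a b : Fin g → G)
    (XY : (Fin g → N) × (Fin g → N)) : (LL hN hc a b XY : G) =
      dr a b (fun i => (XY.1 i : G)) (fun i => (XY.2 i : G)) := rfl

end grp

/-- Lifts of a homomorphism of the surface group along a surjective homomorphism with commutative
kernel. -/
theorem card_lifts {G Q : Type} [Group G] [Group Q] [Finite G] (π : G →* Q)
    (hπ : Function.Surjective π) (hc : Com π.ker) {g : ℕ} (ρ : SurfaceGroup g →* Q)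
    (hgen : ∀ K : Subgroup G, K ≤ π.ker →
      (∀ n ∈ π.ker, ∀ c, π c ∈ ρ.range → n * (c * n⁻¹ * c⁻¹) ∈ K) → π.ker ≤ K) :
    Nat.card {ψ : SurfaceGroup g →* G // π.comp ψ = ρ} * Nat.card π.ker =
      Nat.card π.ker ^ (2 * g) := by
  have hN : π.ker.Normal := inferInstance
  choose a ha using fun i : Fin g => hπ (ρ (sA g i))
  choose b hb using fun i : Fin g => hπ (ρ (sB g i))
  have hKtop : π.ker ≤ KK hN hc a b := by
    refine hgen _ (KK_le hN hc a b) fun n hn c hcr => ?_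
    -- the image of `ρ` is generated by the images of the generators
    have h1 : ρ.range ≤ (Subgroup.closure (Set.range a ∪ Set.range b)).map π := by
      rintro _ ⟨x, rfl⟩
      refine sg_top (((Subgroup.closure (Set.range a ∪ Set.range b)).map π).comap ρ)
        (fun i => ?_) (fun i => ?_) x
      · exact ⟨a i, Subgroup.subset_closure (Or.inl ⟨i, rfl⟩), ha i⟩
      · exact ⟨b i, Subgroup.subset_closure (Or.inr ⟨i, rfl⟩), hb i⟩
    obtain ⟨c', hc', e⟩ := h1 hcr
    have h3 := closure_le_St hN hc a b hc'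
    have h4 : c * c'⁻¹ ∈ π.ker := by
      rw [MonoidHom.mem_ker, map_mul, map_inv, ← e, mul_inv_cancel]
    have h5 : c * c'⁻¹ ∈ St π.ker (KK hN hc a b) hN (KK_le hN hc a b) := by
      rw [mem_St]
      intro m hm
      have h6 := hc _ h4 _ (π.ker.inv_mem hm)
      have h7 : m * (c * c'⁻¹ * m⁻¹ * (c * c'⁻¹)⁻¹) = 1 := by
        rw [h6]
        group
      rw [h7]
      exact Subgroup.one_mem _
    have h8 := Subgroup.mul_mem _ h5 h3
    rw [inv_mul_cancel_right] at h8
    exact (mem_St.1 h8) n hn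
  have hLs : Function.Surjective (LL hN hc a b) := by
    intro n
    obtain ⟨X, Y, hX, hY, e⟩ := hKtop n.2
    exact ⟨(fun i => ⟨X i, hX i⟩, fun i => ⟨Y i, hY i⟩), Subtype.ext e⟩
  have hrel : (rel a b)⁻¹ ∈ π.ker := by
    rw [MonoidHom.mem_ker, map_inv, rel_map, inv_eq_one]
    have h := sg_rel ρ
    have e1 : (fun i => π (a i)) = fun i => ρ (sA g i) := funext ha
    have e2 : (fun i => π (b i)) = fun i => ρ (sB g i) := funext hb
    rw [e1, e2]
    exact h
  have hcard : Nat.card {ψ : SurfaceGroup g →* G // π.comp ψ = ρ} =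
      Nat.card {XY : (Fin g → π.ker) × (Fin g → π.ker) //
        LL hN hc a b XY = ⟨(rel a b)⁻¹, hrel⟩} := by
    have hmem : ∀ (ψ : SurfaceGroup g →* G), π.comp ψ = ρ → ∀ x, π (ψ x) = ρ x := by
      rintro ψ rfl x
      rfl
    have hker : ∀ n : π.ker, π (n : G) = 1 := fun n => n.2
    have hr : ∀ XY : {XY : (Fin g → π.ker) × (Fin g → π.ker) //
        LL hN hc a b XY = ⟨(rel a b)⁻¹, hrel⟩},
        rel (fun i => (XY.1.1 i : G) * a i) (fun i => (XY.1.2 i : G) * b i) = 1 := by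
      intro XY
      have h := congrArg Subtype.val XY.2
      rw [LL_val] at h
      unfold dr at h
      exact mul_eq_right.1 h
    refine Nat.card_congr
      ⟨fun ψ => ⟨(fun i => ⟨ψ.1 (sA g i) * (a i)⁻¹, ?_⟩,
        fun i => ⟨ψ.1 (sB g i) * (b i)⁻¹, ?_⟩), ?_⟩,
      fun XY => ⟨mkS _ _ (hr XY), ?_⟩, ?_, ?_⟩
    · rw [MonoidHom.mem_ker, map_mul, map_inv, hmem ψ.1 ψ.2, ha, mul_inv_cancel]
    · rw [MonoidHom.mem_ker, map_mul, map_inv, hmem ψ.1 ψ.2, hb, mul_inv_cancel]
    · apply Subtype.ext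
      rw [LL_val]
      unfold dr
      simp only [inv_mul_cancel_right]
      rw [sg_rel, one_mul]
    · refine sg_ext (fun i => ?_) fun i => ?_
      · rw [MonoidHom.comp_apply, mkS_sA, map_mul, hker, one_mul, ha]
      · rw [MonoidHom.comp_apply, mkS_sB, map_mul, hker, one_mul, hb]
    · intro ψ
      apply Subtype.ext
      refine sg_ext (fun i => ?_) fun i => ?_
      · rw [mkS_sA]
        exact inv_mul_cancel_right _ _
      · rw [mkS_sB]
        exact inv_mul_cancel_right _ _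
    · intro XY
      apply Subtype.ext
      refine Prod.ext ?_ ?_
      · funext i
        apply Subtype.ext
        change mkS _ _ (hr XY) (sA g i) * (a i)⁻¹ = _
        rw [mkS_sA]
        exact mul_inv_cancel_right _ _
      · funext i
        apply Subtype.ext
        change mkS _ _ (hr XY) (sB g i) * (b i)⁻¹ = _
        rw [mkS_sB]
        exact mul_inv_cancel_right _ _
  rw [hcard, card_fiber _ hLs, Nat.card_prod, Nat.card_fun, Nat.card_eq_fintype_card (α := Fin g),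
    Fintype.card_fin, ← pow_add, two_mul]

end Pool.Agent.SuSM
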