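import Pool.Agent.Lib.MP_305fdd_al.Su.SM.Dim
import Pool.Agent.Lib.MP_305fdd_al.Su.Count
import Pool.Agent.Lib.MP_305fdd_al.Fr.N.H.Dom

/-!
# MP_305fdd_al, surface groups, block SM: the torsion of the ideal of the bad representations is a
prime ideal

`zz_prime`: if `Λ` is a finitely generated group in the genus of a surface group of genus `g ≥ 2`,
then `ZZ 2 Λ` is a prime ideal.
-/

set_option autoImplicit false

namespace Pool.Agent.SuSM

open Pool.Agent.Lib.MP_305fdd_al Pool.Agent.Lib.MP_305fdd_al.LW Pool.Agent.Su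
  Pool.Agent.MP_305fdd_al

/-! ### closed points -/

/-- closed points where an element survives -/
theorem exists_point {S : Type} [CommRing S] [Algebra (ZMod 2) S] [Algebra.FiniteType (ZMod 2) S]
    (x₀ x : S) (h : ∀ n : ℕ, x₀ ^ n * x ≠ 0) :
    ∃ m : Ideal S, m.IsMaximal ∧ x₀ ∉ m ∧ ∃ k, x ∉ m ^ k := by
  have hnoeth : IsNoetherianRing S := Algebra.FiniteType.isNoetherianRing (ZMod 2) S
  have hjac : IsJacobsonRing S := isJacobsonRing_of_finiteType (A := ZMod 2)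
  let A : Ideal S := LinearMap.ker (LinearMap.toSpanSingleton S S x)
  have hA : ∀ i, i ∈ A ↔ i * x = 0 := fun i => by
    change i ∈ LinearMap.ker _ ↔ _
    rw [LinearMap.mem_ker, LinearMap.toSpanSingleton_apply, smul_eq_mul]
  have h1 : x₀ ∉ A.radical := by
    rintro ⟨n, hn⟩
    exact h n ((hA _).1 hn)
  rw [Ideal.radical_eq_jacobson, Ideal.jacobson, Submodule.mem_sInf] at h1
  push Not at h1
  obtain ⟨m', ⟨hm1, hm2⟩, hm3⟩ := h1
  let m : Ideal S := m'
  have hm2' : m.IsMaximal := hm2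
  refine ⟨m, hm2, hm3, ?_⟩
  by_contra hcon
  push Not at hcon
  have hp : m.IsPrime := hm2'.isPrime
  have hloc : algebraMap S (Localization.AtPrime m) x ∈
      ⨅ n : ℕ, IsLocalRing.maximalIdeal (Localization.AtPrime m) ^ n := by
    rw [Submodule.mem_iInf]
    intro n
    have h2 := Ideal.mem_map_of_mem (algebraMap S (Localization.AtPrime m)) (hcon n)
    rw [Ideal.map_pow] at h2
    rwa [Localization.AtPrime.map_eq_maximalIdeal] at h2
  rw [Ideal.iInf_pow_eq_bot_of_isLocalRing _ (IsLocalRing.maximalIdeal.isMaximal _).ne_top,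
    Ideal.mem_bot, IsLocalization.map_eq_zero_iff m.primeCompl] at hloc
  obtain ⟨s, hs⟩ := hloc
  exact s.2 (hm1 ((hA _).2 hs))

/-! ### counting points -/

section points

variable {Λ : Type} [Group Λ] [Group.FG Λ] {g : ℕ}

/-- the number of points of the universal ring over a finite field -/
theorem card_points (Φ : NatBij Λ (SurfaceGroup g)) (hg : 2 ≤ g) (E : Type) [Field E] [Finite E]
    [Algebra (ZMod 2) E] :
    Finite (SR 2 Λ →+* E) ∧ Nat.card (SR 2 Λ →+* E) ≤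
      Nat.card E ^ (6 * g - 3) + 4 ^ (g - 1) * Nat.card E ^ (6 * g - 4) := by
  have hch : CharP E 2 := charP_of_injective_algebraMap (algebraMap (ZMod 2) E).injective 2
  have hSE : Finite (Matrix.SpecialLinearGroup (Fin 2) E) := finite_SL
  have hfin : Finite (Λ →* Matrix.SpecialLinearGroup (Fin 2) E) := finite_hom Λ _
  let f : (SR 2 Λ →+* E) → (Λ →* Matrix.SpecialLinearGroup (Fin 2) E) := fun P =>
    (Matrix.SpecialLinearGroup.map P).comp (SR.rho 2 Λ)
  have hf : Function.Injective f := by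
    intro P P' hPP
    have h1 : (zalg P : SR 2 Λ →ₐ[ZMod 2] E) = zalg P' := by
      refine SR.hom_ext fun g i j => ?_
      exact congrArg (fun ρ : Λ →* Matrix.SpecialLinearGroup (Fin 2) E => (ρ g).1 i j) hPP
    exact RingHom.ext fun x => DFunLike.congr_fun h1 x
  refine ⟨Finite.of_injective f hf, ?_⟩
  refine (Nat.card_le_card_of_injective f hf).trans ?_
  rw [Nat.card_congr (Φ.equiv _)]
  exact card_hom_le hg E

/-- many points at which a given element does not vanish -/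
theorem many_pts (Φ : NatBij Λ (SurfaceGroup g)) (hg : 2 ≤ g) {x₀ : SR 2 Λ}
    (hx₀ : x₀ ∈ bad (SR.rho 2 Λ)) (x : SR 2 Λ) (hx : ∀ n : ℕ, x₀ ^ n * x ≠ 0) :
    ∃ r C : ℕ, 0 < r ∧ ∀ (E : Type) [Field E] [Finite E] [Algebra (ZMod 2) E],
      r ∣ Module.finrank (ZMod 2) E → ∀ Q : ℕ, Nat.card E = Q ^ 2 →
      Nat.card E ^ (6 * g - 3 + 1) ≤
        Nat.card E * Nat.card {P : SR 2 Λ →+* E // P x ≠ 0} +
          C * Q * Nat.card E ^ (6 * g - 3) := by
  obtain ⟨m, hm, hxm, k, hk⟩ := exists_point x₀ x hx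
  obtain ⟨F, _, _, _, B, _, _, _, _, θ, hθx, hθ, t, hs⟩ := exists_dom Φ (by omega) m hm hx₀ hxm hk
  obtain ⟨F₁, _, _, _, C, hC⟩ := FrH.domainStatement F B (θ x) hθx _ hs
  let _ : Algebra (ZMod 2) F₁ := ((algebraMap F F₁).comp (algebraMap (ZMod 2) F)).toAlgebra
  have hfin₁ : Module.Finite (ZMod 2) F₁ := Module.Finite.of_finite
  refine ⟨Module.finrank (ZMod 2) F₁, C, Module.finrank_pos, ?_⟩
  intro E _ _ _ hdvd Q hQ
  obtain ⟨j⟩ := FiniteField.nonempty_algHom_of_finrank_dvd hdvd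
  let _ : Algebra F E := (j.toRingHom.comp (algebraMap F F₁)).toAlgebra
  let j' : F₁ →ₐ[F] E := { j.toRingHom with commutes' := fun c => rfl }
  have h1 := hC E ⟨j'⟩ Q hQ
  rw [Fintype.card_fin] at h1
  have hfinP : Finite (SR 2 Λ →+* E) := (card_points Φ hg E).1
  have h3 : Nat.card {ψ : B →ₐ[F] E // ψ (θ x) ≠ 0} ≤
      Nat.card {P : SR 2 Λ →+* E // P x ≠ 0} := by
    refine Nat.card_le_card_of_injective
      (fun ψ => ⟨ψ.1.toRingHom.comp θ, ψ.2⟩) ?_
    rintro ⟨ψ, hψ⟩ ⟨ψ', hψ'⟩ heq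
    apply Subtype.ext
    have h4 : ψ.toRingHom.comp θ = ψ'.toRingHom.comp θ := congrArg Subtype.val heq
    refine AlgHom.ext_of_adjoin_eq_top hθ ?_
    rintro _ ⟨y, rfl⟩
    exact DFunLike.congr_fun h4 y
  exact h1.trans (Nat.add_le_add_right (Nat.mul_le_mul_left _ h3) _)

/-- arithmetic: two large disjoint sets of points are impossible -/
theorem arith_two {N D C C' a a' q Q : ℕ} (hN : 1 ≤ N) (hq : q = Q ^ 2) (hQ : 0 < Q)
    (h1 : q ^ (N + 1) ≤ q * a + C * Q * q ^ N) (h2 : q ^ (N + 1) ≤ q * a' + C' * Q * q ^ N)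
    (h3 : a + a' ≤ q ^ N + D * q ^ (N - 1)) : Q ≤ C + C' + D := by
  have hq0 : 0 < q := by rw [hq]; positivity
  have hqN : 0 < q ^ N := pow_pos hq0 N
  have e0 : q * (q ^ N + D * q ^ (N - 1)) = q ^ (N + 1) + D * q ^ N := by
    obtain ⟨n, rfl⟩ : ∃ n, N = n + 1 := ⟨N - 1, by omega⟩
    rw [Nat.add_sub_cancel]
    ring
  have h4 : q * (a + a') ≤ q ^ (N + 1) + D * q ^ N := by
    rw [← e0]
    exact Nat.mul_le_mul_left _ h3
  have e1 : q ^ (N + 1) = q ^ N * q := pow_succ q N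
  have h5 : q ^ N * q ≤ q ^ N * ((C + C' + D) * Q) := by
    have e2 : q * (a + a') = q * a + q * a' := mul_add _ _ _
    rw [e2] at h4
    have e3 : q ^ N * ((C + C' + D) * Q) = C * Q * q ^ N + C' * Q * q ^ N + D * q ^ N * Q := by
      ring
    have e4 : D * q ^ N ≤ D * q ^ N * Q := Nat.le_mul_of_pos_right _ hQ
    rw [e3]
    omega
  have h6 : q ≤ (C + C' + D) * Q := Nat.le_of_mul_le_mul_left h5 hqN
  rw [hq, pow_two] at h6
  exact Nat.le_of_mul_le_mul_right h6 hQ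

/-- no zero divisors on the good locus -/
theorem no_zero_div (Φ : NatBij Λ (SurfaceGroup g)) (hg : 2 ≤ g) {x₀ x₀' : SR 2 Λ}
    (hx₀ : x₀ ∈ bad (SR.rho 2 Λ)) (hx₀' : x₀' ∈ bad (SR.rho 2 Λ)) (x x' : SR 2 Λ)
    (hx : ∀ n : ℕ, x₀ ^ n * x ≠ 0) (hx' : ∀ n : ℕ, x₀' ^ n * x' ≠ 0) : x * x' ≠ 0 := by
  intro hxx
  obtain ⟨r, C, hr, H⟩ := many_pts Φ hg hx₀ x hx
  obtain ⟨r', C', hr', H'⟩ := many_pts Φ hg hx₀' x' hx'
  set D := 4 ^ (g - 1) with hD
  -- a large finite field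
  let e := r * r' * (C + C' + D + 1)
  have he : 0 < e := by positivity
  let E := GaloisField 2 (e * 2)
  have hcard : Nat.card E = (2 ^ e) ^ 2 := by
    rw [← pow_mul]
    exact GaloisField.card 2 (e * 2) (by positivity)
  have hfinE : Finite E := Nat.finite_of_card_ne_zero (by
    rw [hcard]
    positivity)
  have hrank : Module.finrank (ZMod 2) E = e * 2 := GaloisField.finrank 2 (by positivity)
  have h1 := H E (by
    rw [hrank]
    exact ⟨r' * (C + C' + D + 1) * 2, by simp only [e]; ring⟩) (2 ^ e) hcard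
  have h2 := H' E (by
    rw [hrank]
    exact ⟨r * (C + C' + D + 1) * 2, by simp only [e]; ring⟩) (2 ^ e) hcard
  obtain ⟨hfinP, h3⟩ := card_points Φ hg E
  -- the two sets of points are disjoint
  have h4 : Nat.card {P : SR 2 Λ →+* E // P x ≠ 0} +
      Nat.card {P : SR 2 Λ →+* E // P x' ≠ 0} ≤ Nat.card (SR 2 Λ →+* E) := by
    rw [← Nat.card_sum]
    refine Nat.card_le_card_of_injective
      (Sum.elim Subtype.val Subtype.val) ?_
    have hdis : ∀ P : SR 2 Λ →+* E, P x ≠ 0 → P x' ≠ 0 → False := by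
      intro P hP hP'
      have := congrArg P hxx
      rw [map_mul, map_zero] at this
      rcases mul_eq_zero.1 this with h | h
      · exact hP h
      · exact hP' h
    rintro (⟨P, hP⟩ | ⟨P, hP⟩) (⟨P', hP'⟩ | ⟨P', hP'⟩) heq
    · exact congrArg Sum.inl (Subtype.ext heq)
    · exact (hdis P hP (by have : P = P' := heq; rw [this]; exact hP')).elim
    · exact (hdis P (by have : P = P' := heq; rw [this]; exact hP') hP).elim
    · exact congrArg Sum.inr (Subtype.ext heq)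
  have h5 := arith_two (N := 6 * g - 3) (by omega) hcard (by positivity) h1 h2 (h4.trans h3)
  have h9 : C + C' + D + 1 ≤ e := by
    have : 1 ≤ r * r' := Nat.mul_pos hr hr'
    calc C + C' + D + 1 = 1 * (C + C' + D + 1) := (one_mul _).symm
      _ ≤ r * r' * (C + C' + D + 1) := Nat.mul_le_mul_right _ this
  have h10 : e < 2 ^ e := Nat.lt_pow_self one_lt_two
  omega

/-- elements outside the torsion -/
theorem exists_of_notMem {x : SR 2 Λ} (hx : x ∉ ZZ 2 Λ) :
    ∃ x₀ ∈ bad (SR.rho 2 Λ), ∀ n : ℕ, x₀ ^ n * x ≠ 0 := by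
  have hnoeth : IsNoetherianRing (SR 2 Λ) := Algebra.FiniteType.isNoetherianRing (ZMod 2) _
  by_contra hcon
  push Not at hcon
  apply hx
  refine tor_of_gen fun s hs => hcon s (Ideal.subset_span hs)

/-- the torsion is a prime ideal if it is not the whole ring -/
theorem zz_prime_of_ne (Φ : NatBij Λ (SurfaceGroup g)) (hg : 2 ≤ g) (h : ZZ 2 Λ ≠ ⊤) :
    (ZZ 2 Λ).IsPrime := by
  refine ⟨h, fun {x x'} hxx => ?_⟩
  by_contra hcon
  push Not at hcon
  obtain ⟨x₀, hx₀, hx⟩ := exists_of_notMem hcon.1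
  obtain ⟨x₀', hx₀', hx'⟩ := exists_of_notMem hcon.2
  obtain ⟨k, hk⟩ := hxx
  refine no_zero_div Φ hg hx₀ hx₀' (x₀ ^ k * x) x' (fun n => ?_) hx' ?_
  · rw [← mul_assoc, ← pow_add]
    exact hx _
  · rw [mul_assoc]
    exact hk _ (Ideal.pow_mem_pow hx₀ k)

end points

/-! ### a good representation -/

theorem tr_aux {κ : Type} [Field κ] (t : κ) (h2 : (2 : κ) = 0) (ht3 : t ^ 3 = 1) (ht1 : t ≠ 1) :
    ((!![t, 0; 0, t ^ 2] * !![t, 0; 0, t ^ 2] : Matrix (Fin 2) (Fin 2) κ) *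
      (!![1, 1; 1, 0] * !![1, 1; 1, 0] : Matrix (Fin 2) (Fin 2) κ) *
      (!![t, 0; 0, t ^ 2] * !![t, 0; 0, t ^ 2] : Matrix (Fin 2) (Fin 2) κ).adjugate *
      (!![1, 1; 1, 0] * !![1, 1; 1, 0] : Matrix (Fin 2) (Fin 2) κ).adjugate).trace = 1 := by
  have ht2 : t ^ 2 + t + 1 = 0 := by
    have h3 : (t - 1) * (t ^ 2 + t + 1) = 0 := by linear_combination ht3
    exact (mul_eq_zero.1 h3).resolve_left (sub_ne_zero.2 ht1)
  simp only [Matrix.mul_fin_two, Matrix.adjugate_fin_two_of, Matrix.trace_fin_two_of]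
  linear_combination (-t + 4 * (t ^ 3 + 1) - t ^ 2 * (t ^ 3 + 1)) * ht3 - ht2 + 2 * h2

/-- a good representation of the surface group over a finite field -/
theorem exists_good_surf {g : ℕ} (hg : 2 ≤ g) :
    ∃ (κ : Type) (_ : Field κ) (_ : Finite κ) (_ : Algebra (ZMod 2) κ)
      (r : SurfaceGroup g →* Matrix.SpecialLinearGroup (Fin 2) κ), bad r ≠ ⊥ := by
  classical
  let κ := GaloisField 2 2
  have hcard : Nat.card κ = 4 := GaloisField.card 2 2 (by norm_num)
  have hfin : Finite κ := Nat.finite_of_card_ne_zero (by rw [hcard]; norm_num)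
  have hch : CharP κ 2 := charP_of_injective_algebraMap (algebraMap (ZMod 2) κ).injective 2
  have h2 : (2 : κ) = 0 := CharTwo.two_eq_zero
  -- an element of order three
  obtain ⟨t, ht0, ht1⟩ : ∃ t : κ, t ≠ 0 ∧ t ≠ 1 := by
    by_contra hcon
    push Not at hcon
    have h3 : Function.Injective fun t : κ => decide (t = 0) := by
      intro a b hab
      by_cases ha : a = 0
      · by_cases hb : b = 0
        · rw [ha, hb]
        · simp [ha, hb] at hab
      · by_cases hb : b = 0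
        · simp [hb] at hab
          exact absurd hab ha
        · rw [hcon a ha, hcon b hb]
    have h4 := Nat.card_le_card_of_injective _ h3
    rw [hcard, Nat.card_eq_fintype_card, Fintype.card_bool] at h4
    omega
  have ht3 : t ^ 3 = 1 := by
    have := Fintype.ofFinite κ
    have h3 := FiniteField.pow_card_sub_one_eq_one t ht0
    rwa [← Nat.card_eq_fintype_card, hcard] at h3
  let u : Matrix.SpecialLinearGroup (Fin 2) κ := ⟨!![t, 0; 0, t ^ 2], by
    rw [Matrix.det_fin_two_of]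
    linear_combination ht3⟩
  let v : Matrix.SpecialLinearGroup (Fin 2) κ := ⟨!![1, 1; 1, 0], by
    rw [Matrix.det_fin_two_of]
    linear_combination -h2⟩
  let a : Fin g → Matrix.SpecialLinearGroup (Fin 2) κ := fun i => if i.1 = 0 then u else v
  let b : Fin g → Matrix.SpecialLinearGroup (Fin 2) κ := fun _ => 1
  have hrel : rel a b = 1 := by
    unfold rel
    have h3 : (fun i => a i * b i * (a i)⁻¹ * (b i)⁻¹) = fun _ => 1 := by
      funext i
      simp [b]
    rw [h3]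
    exact List.prod_eq_one fun x hx => by
      rw [List.mem_ofFn] at hx
      obtain ⟨_, rfl⟩ := hx
      rfl
  refine ⟨κ, inferInstance, hfin, inferInstance, mkS a b hrel, ?_⟩
  rw [bad_ne_bot_iff]
  refine ⟨sA g ⟨0, by omega⟩ ^ 2, Subgroup.subset_closure ⟨_, rfl⟩, sA g ⟨1, by omega⟩ ^ 2,
    Subgroup.subset_closure ⟨_, rfl⟩, ?_⟩
  have ha0 : mkS a b hrel (sA g ⟨0, by omega⟩) = u := (mkS_sA a b hrel _).trans (if_pos rfl)
  have ha1 : mkS a b hrel (sA g ⟨1, by omega⟩) = v :=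
    (mkS_sA a b hrel _).trans (if_neg (by norm_num))
  simp only [map_mul, map_inv, map_pow, ha0, ha1]
  have key : (u ^ 2 * v ^ 2 * (u ^ 2)⁻¹ * (v ^ 2)⁻¹).1.trace = 1 := by
    rw [pow_two, pow_two]
    exact tr_aux t h2 ht3 ht1
  rw [key]
  exact one_ne_zero

/-- the torsion is not the whole ring -/
theorem zz_ne_top {Λ : Type} [Group Λ] {g : ℕ} (Φ : NatBij Λ (SurfaceGroup g)) (hg : 2 ≤ g) :
    ZZ 2 Λ ≠ ⊤ := by
  intro h
  obtain ⟨κ, _, _, _, r, hr⟩ := exists_good_surf hg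
  have hSL : Finite (Matrix.SpecialLinearGroup (Fin 2) κ) := finite_SL
  have h1 : (1 : SR 2 Λ) ∈ ZZ 2 Λ := h ▸ Submodule.mem_top
  obtain ⟨k, hk⟩ := h1
  let r' : Λ →* Matrix.SpecialLinearGroup (Fin 2) κ := Φ.symm.toFun _ r
  have hbad : bad r' ≠ ⊥ := by
    rwa [bad_eq r' r (Φ.symm.range_eq r)]
  obtain ⟨a, ha, b, hb, hab⟩ := (bad_ne_bot_iff r').1 hbad
  have h2 := hk _ (Ideal.pow_mem_pow
    (show (SR.rho 2 Λ (a * b * a⁻¹ * b⁻¹)).1.trace ∈ bad (SR.rho 2 Λ) from
      Ideal.subset_span ⟨a, ha, b, hb, rfl⟩) k)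
  rw [mul_one] at h2
  have h3 := congrArg (SR.lift (p := 2) r') h2
  rw [map_pow, map_zero, Matrix.trace_fin_two, map_add, SR.lift_rho, SR.lift_rho,
    ← Matrix.trace_fin_two] at h3
  exact pow_ne_zero k hab h3

/-- THE TORSION IS A PRIME IDEAL -/
theorem zz_prime {Λ : Type} [Group Λ] [Group.FG Λ] {g : ℕ} (Φ : NatBij Λ (SurfaceGroup g))
    (hg : 2 ≤ g) : (ZZ 2 Λ).IsPrime := zz_prime_of_ne Φ hg (zz_ne_top Φ hg)

end Pool.Agent.SuSM
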