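import Pool.Agent.Lib.MP_305fdd_al.Su.SM.Small
import Pool.Agent.Lib.MP_305fdd_al.Su.SM.Bad

/-!
# MP_305fdd_al, surface groups, block SM: lifts of good representations of groups in the genus of a
surface group

`card_lam`: the number of lifts along a small extension; `exists_lift`: good homomorphisms from the
universal ring lift along surjections of finite rings with nilpotent kernel.
-/

set_option autoImplicit false

namespace Pool.Agent.SuSM

open Matrix Pool.Agent.Lib.MP_305fdd_al Pool.Agent.Su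

/-! ### good representations -/

section good

variable {Λ Δ κ : Type} [Group Λ] [Group Δ] [Field κ]

theorem bad_ne_bot_iff (r : Λ →* SpecialLinearGroup (Fin 2) κ) :
    bad r ≠ ⊥ ↔ ∃ a ∈ Sq Λ, ∃ b ∈ Sq Λ, (r (a * b * a⁻¹ * b⁻¹)).1.trace ≠ 0 := by
  constructor
  · intro h
    by_contra hcon
    push Not at hcon
    apply h
    rw [bad, Ideal.span_eq_bot]
    rintro _ ⟨a, ha, b, hb, rfl⟩
    exact hcon a ha b hb
  · rintro ⟨a, ha, b, hb, hab⟩ h
    apply hab
    have h1 : (r (a * b * a⁻¹ * b⁻¹)).1.trace ∈ bad r := Ideal.subset_span ⟨a, ha, b, hb, rfl⟩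
    rw [h] at h1
    exact h1

theorem Gd_of_bad (h2 : (2 : κ) = 0) (r : Λ →* SpecialLinearGroup (Fin 2) κ) (h : bad r ≠ ⊥) :
    Gd r := by
  obtain ⟨a, ha, b, hb, hab⟩ := (bad_ne_bot_iff r).1 h
  exact Gd_of_trace h2 r ha hb hab

end good

section lam

variable {Λ : Type} [Group Λ] {g : ℕ} {A B κ : Type} [CommRing A] [CommRing B] [Field κ]
  [Finite A] [Finite κ] {π : A →+* κ} {β : A →+* B} {J : κ → A}

/-- the number of lifts of a good representation along a small extension -/
theorem card_lam (Φ : NatBij Λ (SurfaceGroup g)) (h2 : (2 : κ) = 0) (h : Small π β J)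
    (π' : B →+* κ) (hπ : π'.comp β = π) (ρ : Λ →* SpecialLinearGroup (Fin 2) B)
    (hg : bad ((SpecialLinearGroup.map π').comp ρ) ≠ ⊥) :
    Nat.card {ψ : Λ →* SpecialLinearGroup (Fin 2) A //
      (SpecialLinearGroup.map β).comp ψ = ρ} * Nat.card κ ^ 3 = (Nat.card κ ^ 3) ^ (2 * g) := by
  have hfB : Finite B := Finite.of_surjective β h.surj
  have hSA : Finite (SpecialLinearGroup (Fin 2) A) := finite_SL
  have hSB : Finite (SpecialLinearGroup (Fin 2) B) := finite_SL
  have hSκ : Finite (SpecialLinearGroup (Fin 2) κ) := finite_SL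
  rw [Φ.card_lifts]
  refine card_small h π' hπ _ ?_
  refine Gd_of_bad h2 ((SpecialLinearGroup.map π').comp (Φ.toFun _ ρ)) ?_
  rw [← Φ.nat]
  rwa [bad_eq _ ((SpecialLinearGroup.map π').comp ρ) (Φ.range_eq _)]

theorem card_lam' (Φ : NatBij Λ (SurfaceGroup g)) (hg1 : 1 ≤ g) (h2 : (2 : κ) = 0)
    (h : Small π β J) (π' : B →+* κ) (hπ : π'.comp β = π)
    (ρ : Λ →* SpecialLinearGroup (Fin 2) B)
    (hg : bad ((SpecialLinearGroup.map π').comp ρ) ≠ ⊥) :
    Nat.card {ψ : Λ →* SpecialLinearGroup (Fin 2) A //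
      (SpecialLinearGroup.map β).comp ψ = ρ} = Nat.card κ ^ (6 * g - 3) := by
  have h1 := card_lam Φ h2 h π' hπ ρ hg
  have h3 : 0 < Nat.card κ ^ 3 := pow_pos Nat.card_pos 3
  apply Nat.eq_of_mul_eq_mul_right h3
  rw [h1, ← pow_mul, ← pow_add]
  congr 1
  omega

end lam

/-! ### small extensions -/

section small

variable {A κ : Type} [CommRing A] [Field κ] {π : A →+* κ}

/-- an element of an ideal which is killed by the kernel of `π` -/
theorem exists_socle {n : ℕ} (hn : RingHom.ker π ^ n = ⊥) {I : Ideal A} (hI : I ≠ ⊥) :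
    ∃ a ∈ I, a ≠ 0 ∧ ∀ x ∈ RingHom.ker π, x * a = 0 := by
  have h1 : ∀ k : ℕ, (∃ a ∈ I, a ≠ 0 ∧ ∀ x ∈ RingHom.ker π, x * a = 0) ∨
      ∃ a ∈ I, a ≠ 0 ∧ a ∈ RingHom.ker π ^ k := by
    intro k
    induction k with
    | zero =>
      obtain ⟨a, ha, ha0⟩ := Submodule.exists_mem_ne_zero_of_ne_bot hI
      refine Or.inr ⟨a, ha, ha0, ?_⟩
      rw [pow_zero, Ideal.one_eq_top]
      exact Submodule.mem_top
    | succ k ih =>
      rcases ih with h | ⟨a, ha, ha0, hak⟩
      · exact Or.inl h
      · by_cases h : ∀ x ∈ RingHom.ker π, x * a = 0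
        · exact Or.inl ⟨a, ha, ha0, h⟩
        · push Not at h
          obtain ⟨x, hx, hxa⟩ := h
          refine Or.inr ⟨x * a, I.mul_mem_left _ ha, hxa, ?_⟩
          rw [pow_succ']
          exact Ideal.mul_mem_mul hx hak
  rcases h1 n with h | ⟨a, _, ha0, hak⟩
  · exact h
  · rw [hn] at hak
    exact absurd hak ha0

/-- the small extension attached to such an element -/
theorem small_of_socle (hπ : Function.Surjective π) {a : A} (ha0 : a ≠ 0)
    (haπ : π a = 0) (ha : ∀ x ∈ RingHom.ker π, x * a = 0) :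
    ∃ J : κ → A, Small π (Ideal.Quotient.mk (Ideal.span {a})) J := by
  choose s hs using hπ
  have key : ∀ x y : A, π x = π y → x * a = y * a := by
    intro x y h
    rw [← sub_eq_zero, ← sub_mul]
    exact ha _ (by rw [RingHom.mem_ker, map_sub, h, sub_self])
  refine ⟨fun x => s x * a, Ideal.Quotient.mk_surjective, ?_, ?_, ?_, ?_, ?_⟩
  · intro x y
    rw [← add_mul]
    exact key _ _ (by rw [hs, map_add, hs, hs])
  · intro x hx
    by_contra hne
    have h1 : s x⁻¹ * s x * a = 1 * a := key _ _ (by rw [map_mul, hs, hs, inv_mul_cancel₀ hne, map_one])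
    rw [mul_assoc, hx, mul_zero, one_mul] at h1
    exact ha0 h1.symm
  · intro b
    rw [Ideal.Quotient.eq_zero_iff_mem, Ideal.mem_span_singleton']
    constructor
    · rintro ⟨c, rfl⟩
      exact ⟨π c, key _ _ (hs _)⟩
    · rintro ⟨x, rfl⟩
      exact ⟨s x, rfl⟩
  · intro b x
    rw [← mul_assoc]
    exact key _ _ (by rw [map_mul, hs, hs])
  · intro x
    rw [map_mul, haπ, mul_zero]

end small

/-- GOOD REPRESENTATIONS LIFT along surjections of finite rings with nilpotent kernel -/
theorem exists_lift_rep {Λ : Type} [Group Λ] {g : ℕ} (Φ : NatBij Λ (SurfaceGroup g)) {κ : Type}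
    [Field κ] [Finite κ] (h2 : (2 : κ) = 0) (c : ℕ) :
    ∀ (A B : Type) [CommRing A] [CommRing B] [Finite A], Nat.card A ≤ c →
    ∀ (β : A →+* B) (π' : B →+* κ), Function.Surjective β → Function.Surjective π' →
    ∀ n : ℕ, RingHom.ker (π'.comp β) ^ n = ⊥ →
    ∀ ρ : Λ →* SpecialLinearGroup (Fin 2) B, bad ((SpecialLinearGroup.map π').comp ρ) ≠ ⊥ →
    ∃ ψ : Λ →* SpecialLinearGroup (Fin 2) A, (SpecialLinearGroup.map β).comp ψ = ρ := by
  induction c with
  | zero =>
    intro A B _ _ _ hc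
    exact absurd (Nat.card_pos (α := A)) (by omega)
  | succ c ih =>
    intro A B _ _ _ hc β π' hβ hπ' n hn ρ hρ
    by_cases hI : RingHom.ker β = ⊥
    · -- an isomorphism
      have hinj : Function.Injective β := (RingHom.injective_iff_ker_eq_bot β).2 hI
      let e : A ≃+* B := RingEquiv.ofBijective β ⟨hinj, hβ⟩
      refine ⟨(SpecialLinearGroup.map (e.symm : B →+* A)).comp ρ, ?_⟩
      ext x i j
      change e (e.symm ((ρ x).1 i j)) = (ρ x).1 i j
      exact e.apply_symm_apply _
    · obtain ⟨a, haI, ha0, ha⟩ := exists_socle hn hI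
      have hπ : Function.Surjective (π'.comp β) := hπ'.comp hβ
      have haβ : β a = 0 := haI
      obtain ⟨J, hJ⟩ := small_of_socle hπ ha0 (by
        rw [RingHom.comp_apply, haβ, map_zero]) ha
      -- the intermediate ring
      have hle : ∀ x ∈ Ideal.span {a}, β x = 0 := by
        intro x hx
        obtain ⟨y, rfl⟩ := Ideal.mem_span_singleton'.1 hx
        rw [map_mul, haβ, mul_zero]
      let β' : A ⧸ Ideal.span {a} →+* B := Ideal.Quotient.lift _ β hle
      have hβ' : ∀ x, β' (Ideal.Quotient.mk _ x) = β x := fun x => rfl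
      have hβ's : Function.Surjective β' := Ideal.Quotient.lift_surjective_of_surjective _ _ hβ
      have hfin : Finite (A ⧸ Ideal.span {a}) := Finite.of_surjective _ Ideal.Quotient.mk_surjective
      have hcard : Nat.card (A ⧸ Ideal.span {a}) ≤ c := by
        have h1 : Nat.card (A ⧸ Ideal.span {a}) < Nat.card A := by
          refine lt_of_le_of_ne (Nat.card_le_card_of_surjective _
            (Ideal.Quotient.mk_surjective (I := Ideal.span {a}))) fun heq => ?_
          have h3 : Function.Bijective (Ideal.Quotient.mk (Ideal.span {a})) :=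
            (Nat.bijective_iff_surjective_and_card _).2 ⟨Ideal.Quotient.mk_surjective, heq.symm⟩
          apply ha0
          apply h3.1
          rw [map_zero, Ideal.Quotient.eq_zero_iff_mem]
          exact Ideal.mem_span_singleton_self a
        omega
      have hker : RingHom.ker (π'.comp β') ^ n = ⊥ := by
        have h1 : RingHom.ker (π'.comp β') =
            (RingHom.ker (π'.comp β)).map (Ideal.Quotient.mk (Ideal.span {a})) := by
          apply le_antisymm
          · intro y hy
            obtain ⟨x, rfl⟩ := Ideal.Quotient.mk_surjective y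
            exact Ideal.mem_map_of_mem _ hy
          · rw [Ideal.map_le_iff_le_comap]
            intro x hx
            exact hx
        rw [h1, ← Ideal.map_pow, hn, Ideal.map_bot]
      obtain ⟨ψ', hψ'⟩ := ih (A ⧸ Ideal.span {a}) B hcard β' π' hβ's hπ' n hker ρ hρ
      -- the last step
      have hcomp : (π'.comp β').comp (Ideal.Quotient.mk (Ideal.span {a})) = π'.comp β := rfl
      have hbad : bad ((SpecialLinearGroup.map (π'.comp β')).comp ψ') ≠ ⊥ := by
        have h1 : (SpecialLinearGroup.map (π'.comp β')).comp ψ' =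
            (SpecialLinearGroup.map π').comp ρ := by
          rw [← hψ']
          rfl
        rwa [h1]
      have hcnt := card_lam Φ h2 hJ (π'.comp β') hcomp ψ' hbad
      have hne : Nonempty {ψ : Λ →* SpecialLinearGroup (Fin 2) A //
          (SpecialLinearGroup.map (Ideal.Quotient.mk (Ideal.span {a}))).comp ψ = ψ'} := by
        by_contra hcon
        rw [not_nonempty_iff] at hcon
        rw [Nat.card_of_isEmpty, zero_mul] at hcnt
        have : 0 < (Nat.card κ ^ 3) ^ (2 * g) := pow_pos (pow_pos Nat.card_pos 3) _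
        omega
      obtain ⟨ψ, hψ⟩ := hne
      refine ⟨ψ, ?_⟩
      rw [← hψ', ← hψ]
      rfl

/-! ### the universal ring -/

section univ

variable {Λ : Type} [Group Λ] {g : ℕ} (Φ : NatBij Λ (SurfaceGroup g)) {κ : Type}
    [Field κ] [Finite κ] [Algebra (ZMod 2) κ]

theorem bad_comp_ne {B : Type} [CommRing B] [Algebra (ZMod 2) B] (π' : B →ₐ[ZMod 2] κ)
    (f : SR 2 Λ →ₐ[ZMod 2] B) (x : SR 2 Λ) (hx : x ∈ bad (SR.rho 2 Λ)) (hx0 : π' (f x) ≠ 0) :
    bad ((SpecialLinearGroup.map (π' : B →+* κ)).comp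
      ((SpecialLinearGroup.map (f : SR 2 Λ →+* B)).comp (SR.rho 2 Λ))) ≠ ⊥ := by
  rw [bad_map, bad_map, Ideal.map_map]
  intro h
  apply hx0
  have h1 := Ideal.mem_map_of_mem ((π' : B →+* κ).comp (f : SR 2 Λ →+* B)) hx
  rw [h] at h1
  exact h1

include Φ in
/-- good homomorphisms from the universal ring lift along surjections of finite rings with
nilpotent kernel -/
theorem exists_lift {A B : Type} [CommRing A] [CommRing B] [Finite A] [Algebra (ZMod 2) A]
    [Algebra (ZMod 2) B] (β : A →ₐ[ZMod 2] B) (π' : B →ₐ[ZMod 2] κ) (hβ : Function.Surjective β)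
    (hπ' : Function.Surjective π') (n : ℕ) (hn : RingHom.ker (π'.comp β) ^ n = ⊥)
    (f : SR 2 Λ →ₐ[ZMod 2] B) (x : SR 2 Λ) (hx : x ∈ bad (SR.rho 2 Λ)) (hx0 : π' (f x) ≠ 0) :
    ∃ f' : SR 2 Λ →ₐ[ZMod 2] A, β.comp f' = f := by
  have h2 : (2 : κ) = 0 := by
    have h3 : (2 : ZMod 2) = 0 := rfl
    have h4 := congrArg (algebraMap (ZMod 2) κ) h3
    rwa [map_ofNat, map_zero] at h4
  obtain ⟨ψ, hψ⟩ := exists_lift_rep Φ h2 (Nat.card A) A B le_rfl (β : A →+* B) (π' : B →+* κ) hβ hπ'
    n hn _ (bad_comp_ne π' f x hx hx0)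
  refine ⟨SR.lift ψ, ?_⟩
  rw [SR.lift_map, hψ, SR.lift_comp]

end univ

end Pool.Agent.SuSM
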