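import Pool.Agent.Lib.MP_305fdd_al.Su.SM.Tan
import Pool.Agent.Lib.MP_305fdd_al.Su.SM.Lift

/-!
# MP_305fdd_al, surface groups, block SM: families of representations over power series rings

`exists_series`: at a good closed point the universal ring maps to a ring of power series over the
residue field, and the truncation `q : S → S / m ^ k` factors through this map.
-/

set_option autoImplicit false

namespace Pool.Agent.SuSM

open Finsupp Pool.Agent.Lib.MP_305fdd_al Pool.Agent.Lib.MP_305fdd_al.LW Pool.Agent.Su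

/-- ring homomorphisms are homomorphisms of algebras over `ZMod p` -/
def zalg {p : ℕ} {A B : Type} [CommRing A] [CommRing B] [Algebra (ZMod p) A] [Algebra (ZMod p) B]
    (f : A →+* B) : A →ₐ[ZMod p] B :=
  { f with
    commutes' := fun c => DFunLike.congr_fun
      (Subsingleton.elim (f.comp (algebraMap (ZMod p) A)) (algebraMap (ZMod p) B)) c }

theorem zalg_apply {p : ℕ} {A B : Type} [CommRing A] [CommRing B] [Algebra (ZMod p) A]
    [Algebra (ZMod p) B] (f : A →+* B) (x : A) : zalg (p := p) f x = f x := rfl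

section lim

variable {S F : Type} {M : ℕ} [CommRing S] [Field F] {k : ℕ}

/-- the limit of compatible homomorphisms -/
theorem exists_hom_lim (H : ∀ j, S →+* TR (Fin M) F (k + j))
    (hH : ∀ j, (fac (Fin M) F (Nat.le_succ (k + j))).comp (H (j + 1)) = H j) :
    ∃ θ : S →+* MvPowerSeries (Fin M) F, ∀ j x, tau (Fin M) F (k + j) (θ x) = H j x := by
  -- compatibility
  have h1 : ∀ i j : ℕ, ∀ hij : i ≤ j,
      (fac (Fin M) F (Nat.add_le_add_left hij k)).comp (H j) = H i := by
    intro i j hij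
    induction j, hij using Nat.le_induction with
    | base =>
      refine RingHom.ext fun x => ?_
      rw [RingHom.comp_apply]
      obtain ⟨f, hf⟩ := Ideal.Quotient.mk_surjective (H i x)
      rw [← hf, fac_mk]
    | succ j hij ih =>
      rw [← ih, ← hH j, ← RingHom.comp_assoc, fac_fac]
  have h2 : ∀ x, ∃ p : MvPowerSeries (Fin M) F, ∀ j, tau (Fin M) F j p =
      fac (Fin M) F (Nat.le_add_left j k) (H j x) := by
    intro x
    refine exists_lim (Fin M) F _ fun {i j} hij => ?_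
    rw [fac_fac_apply, ← h1 i j hij, RingHom.comp_apply, fac_fac_apply]
  choose p hp using h2
  have hp' : ∀ j x, tau (Fin M) F (k + j) (p x) = H j x := by
    intro j x
    rw [hp, ← RingHom.comp_apply]
    have h3 := h1 j (k + j) (Nat.le_add_left j k)
    refine (DFunLike.congr_fun ?_ x).trans (DFunLike.congr_fun h3 x)
    rfl
  have hsep : ∀ a b : MvPowerSeries (Fin M) F,
      (∀ j, tau (Fin M) F (k + j) a = tau (Fin M) F (k + j) b) → a = b := by
    intro a b hab
    refine tau_sep (Fin M) F fun j => ?_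
    rw [← fac_tau (Fin M) F (Nat.le_add_left j k), RingHom.comp_apply, RingHom.comp_apply, hab]
  refine ⟨{ toFun := p, map_one' := ?_, map_mul' := ?_, map_zero' := ?_, map_add' := ?_ }, hp'⟩
  · exact hsep _ _ fun j => by rw [hp', map_one, map_one]
  · intro x y
    exact hsep _ _ fun j => by rw [hp', map_mul, map_mul, hp', hp']
  · exact hsep _ _ fun j => by rw [hp', map_zero, map_zero]
  · intro x y
    exact hsep _ _ fun j => by rw [hp', map_add, map_add, hp', hp']

end lim

theorem exists_series {Λ : Type} [Group Λ] {g : ℕ} (Φ : NatBij Λ (SurfaceGroup g)) {κ A : Type}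
    [Field κ] [Finite κ] [Algebra (ZMod 2) κ] [CommRing A] [Finite A] [Algebra (ZMod 2) A]
    {q : SR 2 Λ →+* A} {π : A →+* κ} {σ : κ →+* A} {M : ℕ} {t : Fin M → SR 2 Λ} {k : ℕ}
    (h : Loc q π σ t k) (x₀ : SR 2 Λ) (hx₀ : x₀ ∈ bad (SR.rho 2 Λ)) (hne : π (q x₀) ≠ 0) :
    ∃ (θ : SR 2 Λ →+* MvPowerSeries (Fin M) κ) (η : MvPowerSeries (Fin M) κ →+* A),
      (∀ x, η (θ x) = q x) ∧
      ∀ (i : Fin M) (d : Fin M →₀ ℕ), degree d < 2 →
        MvPowerSeries.coeff d (θ (t i)) = MvPowerSeries.coeff d (MvPowerSeries.X i) := by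
  have hfin : ∀ j, Finite (TR (Fin M) κ j) := finite_TR (Fin M) κ
  have hk0 : k ≠ 0 := by have := h.two; omega
  have hkj : ∀ j, k + j ≠ 0 := fun j => by omega
  have hπs : Function.Surjective π := fun c => ⟨σ c, h.sec c⟩
  -- the map `gk`
  have hev : ∀ f ∈ MvPolynomial.idealOfVars (Fin M) κ ^ k, evt q σ t f = 0 := by
    intro f hf
    have h1 := h.evt_mem k hf
    rw [h.ker_pow] at h1
    exact h1
  let gk : TR (Fin M) κ k →+* A := Ideal.Quotient.lift _ (evt q σ t) hev
  have hgk : ∀ f, gk (Ideal.Quotient.mk _ f) = evt q σ t f := fun _ => rfl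
  have hgks : Function.Surjective gk :=
    Ideal.Quotient.lift_surjective_of_surjective _ _ h.evt_surjective
  have hπg : π.comp gk = res (Fin M) κ hk0 := by
    refine RingHom.ext fun x => ?_
    obtain ⟨f, rfl⟩ := Ideal.Quotient.mk_surjective x
    rw [RingHom.comp_apply, hgk, h.pi_evt, res_mk]
  -- the first lift
  obtain ⟨f₀, hf₀⟩ := exists_lift (Λ := Λ) Φ (zalg gk : TR (Fin M) κ k →ₐ[ZMod 2] A)
    (zalg π : A →ₐ[ZMod 2] κ) hgks hπs k (by
      have h1 : RingHom.ker ((zalg π : A →ₐ[ZMod 2] κ).comp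
          (zalg gk : TR (Fin M) κ k →ₐ[ZMod 2] A)) = RingHom.ker (res (Fin M) κ hk0) := by
        rw [← hπg]
        rfl
      rw [h1]
      exact ker_res_pow (Fin M) κ hk0) (zalg q) x₀ hx₀ hne
  have hf₀' : ∀ x, gk (f₀ x) = q x := fun x => DFunLike.congr_fun hf₀ x
  -- the sequence of lifts
  let X : ℕ → Type := fun j => {f : SR 2 Λ →ₐ[ZMod 2] TR (Fin M) κ (k + j) //
    ∀ x, res (Fin M) κ (hkj j) (f x) = π (q x)}
  have hstep : ∀ (j : ℕ) (f : X j), ∃ f' : X (j + 1), ∀ x,
      fac (Fin M) κ (Nat.le_succ (k + j)) (f'.1 x) = f.1 x := by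
    rintro j ⟨f, hf⟩
    obtain ⟨f', hf'⟩ := exists_lift (Λ := Λ) (A := TR (Fin M) κ (k + (j + 1))) Φ
      (zalg (fac (Fin M) κ (Nat.le_succ (k + j))) :
        TR (Fin M) κ (k + j + 1) →ₐ[ZMod 2] TR (Fin M) κ (k + j))
      (zalg (res (Fin M) κ (hkj j))) (fac_surjective (Fin M) κ (Nat.le_succ (k + j)))
      (res_surjective (Fin M) κ (hkj j)) (k + j + 1) (by
        have h1 : RingHom.ker ((zalg (res (Fin M) κ (hkj j)) :
            TR (Fin M) κ (k + j) →ₐ[ZMod 2] κ).comp
            (zalg (fac (Fin M) κ (Nat.le_succ (k + j))) :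
              TR (Fin M) κ (k + j + 1) →ₐ[ZMod 2] TR (Fin M) κ (k + j))) =
            RingHom.ker (res (Fin M) κ (Nat.succ_ne_zero (k + j))) := by
          rw [← res_fac (Fin M) κ (hkj j) (Nat.succ_ne_zero (k + j)) (Nat.le_succ (k + j))]
          rfl
        rw [h1]
        exact ker_res_pow (Fin M) κ (Nat.succ_ne_zero (k + j))) f x₀ hx₀ (by
          rw [zalg_apply, hf]
          exact hne)
    have hf'' : ∀ x, fac (Fin M) κ (Nat.le_succ (k + j)) (f' x) = f x := fun x =>
      DFunLike.congr_fun hf' x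
    refine ⟨⟨f', fun x => ?_⟩, hf''⟩
    rw [← hf, ← hf'' x, ← RingHom.comp_apply]
    exact (DFunLike.congr_fun (res_fac (Fin M) κ (hkj j) (hkj (j + 1))
      (Nat.le_succ (k + j))) (f' x)).symm
  choose step hstep' using hstep
  let f₁ : X 0 := ⟨f₀, fun x => by
    have h1 := DFunLike.congr_fun hπg (f₀ x)
    rw [← hf₀']
    exact h1.symm⟩
  let H : ∀ j, X j := fun j => Nat.rec f₁ (fun j f => step j f) j
  have hH : ∀ j x, fac (Fin M) κ (Nat.le_succ (k + j)) ((H (j + 1)).1 x) = (H j).1 x := fun j x =>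
    hstep' j (H j) x
  obtain ⟨θ, hθ⟩ := exists_hom_lim (k := k) (fun j => ((H j).1 : SR 2 Λ →+* TR (Fin M) κ (k + j)))
    (fun j => RingHom.ext fun x => hH j x)
  have hθ0 : ∀ x, tau (Fin M) κ k (θ x) = f₀ x := fun x => hθ 0 x
  refine ⟨θ, gk.comp (tau (Fin M) κ k), fun x => ?_, fun i d hd => ?_⟩
  · rw [RingHom.comp_apply, hθ0, hf₀']
  · -- the linear terms
    obtain ⟨f, hf⟩ := Ideal.Quotient.mk_surjective (f₀ (t i))
    have h1 : evt q σ t (f - MvPolynomial.X i) = 0 := by
      rw [map_sub, evt_X, ← hgk, hf, hf₀', sub_self]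
    have h2 := h.coeff_of_evt h1 d hd
    rw [MvPolynomial.coeff_sub, sub_eq_zero] at h2
    have h3 : tau (Fin M) κ k (θ (t i)) = tau (Fin M) κ k (f : MvPowerSeries (Fin M) κ) := by
      rw [hθ0, tau_coe, hf]
    have h4 := (tau_eq_iff (Fin M) κ k _ _).1 h3 d (lt_of_lt_of_le hd h.two)
    rw [h4, MvPolynomial.coeff_coe, h2, ← MvPolynomial.coeff_coe, MvPolynomial.coe_X]

end Pool.Agent.SuSM
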