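import Pool.Agent.Lib.MP_305fdd_al.Su.SM.Grp

/-!
# MP_305fdd_al, surface groups, block SM: lifts of representations along small extensions

`Gd r`: the only matrices which are invariant modulo scalars under the representation `r` are the
scalar matrices.  `card_small`: a representation of the surface group of genus `g` over `B` with good
reduction has exactly `|κ| ^ (6 g - 3)` lifts along a small extension `0 → κ → A → B → 0`.
-/

set_option autoImplicit false

namespace Pool.Agent.SuSM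

open Pool.Agent.Su Matrix

/-- a small extension `0 → κ → A → B → 0` of rings over the field `κ` -/
structure Small {A B κ : Type} [CommRing A] [CommRing B] [Field κ] (π : A →+* κ) (β : A →+* B)
    (J : κ → A) : Prop where
  surj : Function.Surjective β
  add : ∀ x y, J (x + y) = J x + J y
  inj : ∀ x, J x = 0 → x = 0
  ker : ∀ a, β a = 0 ↔ ∃ x, J x = a
  mul : ∀ a x, a * J x = J (π a * x)
  pi : ∀ x, π (J x) = 0

/-- good representations: only the scalar matrices are invariant modulo scalars -/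
def Gd {Γ κ : Type} [Field κ] (r : Γ → SpecialLinearGroup (Fin 2) κ) : Prop :=
  ∀ ξ : Matrix (Fin 2) (Fin 2) κ,
    (∀ x, ∃ s : κ, (r x).1 * ξ = (ξ + s • (1 : Matrix (Fin 2) (Fin 2) κ)) * (r x).1) →
    ∃ s : κ, ξ = s • (1 : Matrix (Fin 2) (Fin 2) κ)

/-! ### matrices over a field -/

section field

variable {κ : Type} [Field κ]

/-- the functionals on 2 × 2 matrices -/
theorem exists_trace (f : Matrix (Fin 2) (Fin 2) κ →ₗ[κ] κ) :
    ∃ ξ : Matrix (Fin 2) (Fin 2) κ, ∀ X, f X = (ξ * X).trace := by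
  refine ⟨Matrix.of fun i j => f (Matrix.single j i 1), fun X => ?_⟩
  have h : X = ∑ i, ∑ j, X i j • Matrix.single i j (1 : κ) := by
    conv_lhs => rw [Matrix.matrix_eq_sum_single X]
    refine Finset.sum_congr rfl fun i _ => Finset.sum_congr rfl fun j _ => ?_
    rw [Matrix.smul_single, smul_eq_mul, mul_one]
  conv_lhs => rw [h]
  simp only [Fin.sum_univ_two, map_add, map_smul, smul_eq_mul, Matrix.trace_fin_two,
    Matrix.mul_apply, Matrix.of_apply]
  ring

/-- a matrix orthogonal to all matrices of trace zero is a scalar matrix -/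
theorem scalar_of_orth {ξ : Matrix (Fin 2) (Fin 2) κ}
    (h : ∀ Y : Matrix (Fin 2) (Fin 2) κ, Y.trace = 0 → (ξ * Y).trace = 0) :
    ∃ s : κ, ξ = s • (1 : Matrix (Fin 2) (Fin 2) κ) := by
  have h1 := h !![0, 1; 0, 0] (by simp [Matrix.trace_fin_two])
  have h2 := h !![0, 0; 1, 0] (by simp [Matrix.trace_fin_two])
  have h3 := h !![1, 0; 0, -1] (by simp [Matrix.trace_fin_two])
  simp only [Matrix.trace_fin_two, Matrix.mul_apply, Fin.sum_univ_two, Matrix.of_apply,
    Matrix.cons_val', Matrix.cons_val_zero, Matrix.cons_val_one, Matrix.cons_val_fin_one,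
    mul_zero, mul_one, zero_add, add_zero, mul_neg] at h1 h2 h3
  refine ⟨ξ 0 0, ?_⟩
  have h4 : ξ 1 1 = ξ 0 0 := by linear_combination -h3
  ext i j
  fin_cases i <;> fin_cases j
  · simp
  · simpa using h2
  · simpa using h1
  · simpa using h4

/-- for good representations the matrices of trace zero are generated by the differences -/
theorem span_of_Gd {Γ : Type} (r : Γ → SpecialLinearGroup (Fin 2) κ) (hr : Gd r)
    (X : Matrix (Fin 2) (Fin 2) κ) (hX : X.trace = 0) :
    X ∈ Submodule.span κ {Z | ∃ (x : Γ) (Y : Matrix (Fin 2) (Fin 2) κ), Y.trace = 0 ∧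
      Z = Y - (r x).1 * Y * ((r x)⁻¹).1} := by
  by_contra hcon
  obtain ⟨f, hf, hfU⟩ := Submodule.exists_dual_map_eq_bot_of_notMem hcon inferInstance
  obtain ⟨ξ, hξ⟩ := exists_trace f
  have h1 : ∀ (x : Γ) (Y : Matrix (Fin 2) (Fin 2) κ), Y.trace = 0 →
      (ξ * Y).trace = (ξ * ((r x).1 * Y * ((r x)⁻¹).1)).trace := by
    intro x Y hY
    have h2 : f (Y - (r x).1 * Y * ((r x)⁻¹).1) = 0 := by
      have h3 := Submodule.mem_map_of_mem (f := f) (Submodule.subset_span (R := κ)
        (s := {Z | ∃ (x : Γ) (Y : Matrix (Fin 2) (Fin 2) κ), Y.trace = 0 ∧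
          Z = Y - (r x).1 * Y * ((r x)⁻¹).1}) ⟨x, Y, hY, rfl⟩)
      rw [hfU] at h3
      exact (Submodule.mem_bot κ).1 h3
    rw [map_sub, hξ, hξ, sub_eq_zero] at h2
    exact h2
  obtain ⟨s, hs⟩ := hr ξ fun x => by
    have hinv : ((r x)⁻¹).1 * (r x).1 = 1 := by
      have := congrArg Subtype.val (inv_mul_cancel (r x))
      exact this
    have hinv' : (r x).1 * ((r x)⁻¹).1 = 1 := by
      have := congrArg Subtype.val (mul_inv_cancel (r x))
      exact this
    obtain ⟨s, hs⟩ := scalar_of_orth (ξ := ((r x)⁻¹).1 * ξ * (r x).1 - ξ) (by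
      intro Y hY
      rw [Matrix.sub_mul, Matrix.trace_sub, h1 x Y hY, sub_eq_zero]
      rw [Matrix.mul_assoc, Matrix.mul_assoc, Matrix.trace_mul_comm, Matrix.mul_assoc])
    refine ⟨-s, ?_⟩
    have h3 : ((r x)⁻¹).1 * ξ * (r x).1 = ξ + s • (1 : Matrix (Fin 2) (Fin 2) κ) := by
      rw [← hs]
      abel
    have h4 : ξ * (r x).1 = (r x).1 * (ξ + s • (1 : Matrix (Fin 2) (Fin 2) κ)) := by
      rw [← h3, ← Matrix.mul_assoc, ← Matrix.mul_assoc, hinv', Matrix.one_mul]
    rw [Matrix.mul_add, Matrix.mul_smul, Matrix.mul_one] at h4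
    rw [Matrix.add_mul, Matrix.smul_mul, Matrix.one_mul, h4]
    rw [neg_smul]
    abel
  apply hf
  rw [hξ, hs, Matrix.smul_mul, Matrix.one_mul, Matrix.trace_smul, hX, smul_zero]

/-- the commutant of a matrix which is not scalar is commutative -/
theorem comm_of_commute {ξ x y : Matrix (Fin 2) (Fin 2) κ}
    (hξ : ¬ ∃ s : κ, ξ = s • (1 : Matrix (Fin 2) (Fin 2) κ)) (hx : x * ξ = ξ * x)
    (hy : y * ξ = ξ * y) : x * y = y * x := by
  have key : ∀ z : Matrix (Fin 2) (Fin 2) κ, z * ξ = ξ * z →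
      z 0 1 * ξ 1 0 = ξ 0 1 * z 1 0 ∧ (z 0 0 - z 1 1) * ξ 0 1 = z 0 1 * (ξ 0 0 - ξ 1 1) ∧
      (z 0 0 - z 1 1) * ξ 1 0 = z 1 0 * (ξ 0 0 - ξ 1 1) := by
    intro z hz
    have e00 := congrFun (congrFun hz 0) 0
    have e01 := congrFun (congrFun hz 0) 1
    have e10 := congrFun (congrFun hz 1) 0
    simp only [Matrix.mul_apply, Fin.sum_univ_two] at e00 e01 e10
    refine ⟨by linear_combination e00, by linear_combination e01, by linear_combination -e10⟩
  obtain ⟨a1, a2, a3⟩ := key x hx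
  obtain ⟨b1, b2, b3⟩ := key y hy
  have hne : ξ 0 0 - ξ 1 1 ≠ 0 ∨ ξ 0 1 ≠ 0 ∨ ξ 1 0 ≠ 0 := by
    by_contra hcon
    push Not at hcon
    obtain ⟨h1, h2, h3⟩ := hcon
    apply hξ
    refine ⟨ξ 0 0, ?_⟩
    ext i j
    fin_cases i <;> fin_cases j
    · simp
    · simpa using h2
    · simpa using h3
    · simp only [Matrix.smul_apply, smul_eq_mul]
      change ξ 1 1 = ξ 0 0 * (1 : Matrix (Fin 2) (Fin 2) κ) 1 1
      rw [Matrix.one_apply_eq, mul_one]
      exact (sub_eq_zero.1 h1).symm
  have c1 : x 0 1 * y 1 0 = y 0 1 * x 1 0 := by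
    rcases hne with h | h | h
    · apply mul_left_cancel₀ h
      apply mul_left_cancel₀ h
      linear_combination (-(y 1 0) * (ξ 0 0 - ξ 1 1)) * a2 + (x 0 0 - x 1 1) * ξ 0 1 * (-b3) +
        (x 1 0 * (ξ 0 0 - ξ 1 1)) * b2 + (y 0 0 - y 1 1) * ξ 0 1 * a3
    · apply mul_left_cancel₀ h
      linear_combination (-(x 0 1)) * b1 + y 0 1 * a1
    · apply mul_left_cancel₀ h
      linear_combination (y 1 0) * a1 - (x 1 0) * b1
  have c2 : (x 0 0 - x 1 1) * y 0 1 = (y 0 0 - y 1 1) * x 0 1 := by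
    rcases hne with h | h | h
    · apply mul_left_cancel₀ h
      linear_combination (-(x 0 0 - x 1 1)) * b2 + (y 0 0 - y 1 1) * a2
    · apply mul_left_cancel₀ h
      linear_combination (y 0 1) * a2 - (x 0 1) * b2
    · apply mul_left_cancel₀ h
      linear_combination (y 0 1) * a3 - (x 0 1) * b3 - (ξ 0 0 - ξ 1 1) * c1
  have c3 : (x 0 0 - x 1 1) * y 1 0 = (y 0 0 - y 1 1) * x 1 0 := by
    rcases hne with h | h | h
    · apply mul_left_cancel₀ h
      linear_combination (-(x 0 0 - x 1 1)) * b3 + (y 0 0 - y 1 1) * a3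
    · apply mul_left_cancel₀ h
      linear_combination (y 1 0) * a2 - (x 1 0) * b2 + (ξ 0 0 - ξ 1 1) * c1
    · apply mul_left_cancel₀ h
      linear_combination (y 1 0) * a3 - (x 1 0) * b3
  refine Matrix.ext (Fin.forall_fin_two.2 ⟨Fin.forall_fin_two.2 ⟨?_, ?_⟩,
    Fin.forall_fin_two.2 ⟨?_, ?_⟩⟩)
  · simp only [Matrix.mul_apply, Fin.sum_univ_two]
    linear_combination c1
  · simp only [Matrix.mul_apply, Fin.sum_univ_two]
    linear_combination c2
  · simp only [Matrix.mul_apply, Fin.sum_univ_two]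
    linear_combination -c3
  · simp only [Matrix.mul_apply, Fin.sum_univ_two]
    linear_combination -c1

/-- in characteristic two a representation is good if the squares generate a subgroup with a
commutator of trace `≠ 0` -/
theorem Gd_of_trace (h2 : (2 : κ) = 0) {Γ : Type} [Group Γ]
    (r : Γ →* SpecialLinearGroup (Fin 2) κ) {x y : Γ}
    (hx : x ∈ Subgroup.closure (Set.range fun z : Γ => z ^ 2))
    (hy : y ∈ Subgroup.closure (Set.range fun z : Γ => z ^ 2))
    (hxy : (r (x * y * x⁻¹ * y⁻¹)).1.trace ≠ 0) : Gd r := by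
  intro ξ hξ
  by_contra hcon
  have hinv : ∀ z : Γ, (r z).1 * (r z⁻¹).1 = 1 := fun z => by
    have h := congrArg Subtype.val (mul_inv_cancel (r z))
    rw [map_inv]
    exact h
  have hinv' : ∀ z : Γ, (r z⁻¹).1 * (r z).1 = 1 := fun z => by
    have h := congrArg Subtype.val (inv_mul_cancel (r z))
    rw [map_inv]
    exact h
  have hm : ∀ z w : Γ, (r (z * w)).1 = (r z).1 * (r w).1 := fun z w => by
    rw [map_mul]
    rfl
  -- the centraliser of `ξ`
  let S : Subgroup Γ :=
    { carrier := {z | (r z).1 * ξ = ξ * (r z).1}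
      one_mem' := by
        change (r 1).1 * ξ = ξ * (r 1).1
        rw [map_one]
        change (1 : Matrix (Fin 2) (Fin 2) κ) * ξ = ξ * 1
        rw [Matrix.one_mul, Matrix.mul_one]
      mul_mem' := by
        intro z w hz hw
        change (r z).1 * ξ = ξ * (r z).1 at hz
        change (r w).1 * ξ = ξ * (r w).1 at hw
        change (r (z * w)).1 * ξ = ξ * (r (z * w)).1
        rw [hm, Matrix.mul_assoc, hw, ← Matrix.mul_assoc, hz, Matrix.mul_assoc]
      inv_mem' := by
        intro z hz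
        change (r z).1 * ξ = ξ * (r z).1 at hz
        change (r z⁻¹).1 * ξ = ξ * (r z⁻¹).1
        calc (r z⁻¹).1 * ξ = (r z⁻¹).1 * ξ * ((r z).1 * (r z⁻¹).1) := by
              rw [hinv, Matrix.mul_one]
          _ = (r z⁻¹).1 * (ξ * (r z).1) * (r z⁻¹).1 := by
              simp only [Matrix.mul_assoc]
          _ = (r z⁻¹).1 * ((r z).1 * ξ) * (r z⁻¹).1 := by rw [hz]
          _ = ((r z⁻¹).1 * (r z).1) * ξ * (r z⁻¹).1 := by
              simp only [Matrix.mul_assoc]
          _ = ξ * (r z⁻¹).1 := by rw [hinv', Matrix.one_mul] }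
  have hsq : Subgroup.closure (Set.range fun z : Γ => z ^ 2) ≤ S := by
    rw [Subgroup.closure_le]
    rintro _ ⟨z, rfl⟩
    obtain ⟨s, hs⟩ := hξ z
    change (r (z ^ 2)).1 * ξ = ξ * (r (z ^ 2)).1
    rw [pow_two, hm, Matrix.mul_assoc, hs, ← Matrix.mul_assoc, Matrix.mul_add, hs,
      Matrix.mul_smul, Matrix.mul_one, Matrix.add_mul ξ, Matrix.smul_mul, Matrix.one_mul,
      add_assoc, ← add_smul, ← two_mul, h2, zero_mul, zero_smul, add_zero, Matrix.mul_assoc]
  have h1 : (r x).1 * ξ = ξ * (r x).1 := hsq hx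
  have h2' : (r y).1 * ξ = ξ * (r y).1 := hsq hy
  have h3 := comm_of_commute hcon h1 h2'
  apply hxy
  have h4 : (r (x * y * x⁻¹ * y⁻¹)).1 = 1 := by
    rw [hm, hm, hm, h3]
    calc (r y).1 * (r x).1 * (r x⁻¹).1 * (r y⁻¹).1
        = (r y).1 * ((r x).1 * (r x⁻¹).1) * (r y⁻¹).1 := by simp only [Matrix.mul_assoc]
      _ = 1 := by rw [hinv, Matrix.mul_one, hinv]
  rw [h4, Matrix.trace_fin_two, Matrix.one_apply_eq, Matrix.one_apply_eq, one_add_one_eq_two, h2]

end field

/-! ### the kernel of a small extension -/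

section small

variable {A B κ : Type} [CommRing A] [CommRing B] [Field κ] {π : A →+* κ} {β : A →+* B}
  {J : κ → A}

namespace Small

variable (h : Small π β J)
include h

theorem zero : J 0 = 0 := by
  have h1 := h.add 0 0
  rw [add_zero] at h1
  exact left_eq_add.1 h1

theorem mul_J (x y : κ) : J x * J y = 0 := by
  rw [h.mul, h.pi, zero_mul, h.zero]

theorem neg (x : κ) : J (-x) = -J x := by
  have h1 := h.add x (-x)
  rw [add_neg_cancel, h.zero] at h1
  exact (neg_eq_of_add_eq_zero_right h1.symm).symm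

theorem inj' {x y : κ} (hxy : J x = J y) : x = y := by
  have h1 : J (x - y) = 0 := by rw [sub_eq_add_neg, h.add, h.neg, hxy, add_neg_cancel]
  exact sub_eq_zero.1 (h.inj _ h1)

theorem mul' (a : A) (x : κ) : J x * a = J (x * π a) := by
  rw [mul_comm, h.mul, mul_comm]

theorem smul_map (a : Matrix (Fin 2) (Fin 2) A) (X : Matrix (Fin 2) (Fin 2) κ) :
    a * X.map J = (a.map π * X).map J := by
  ext i j
  simp only [Matrix.mul_apply, Matrix.map_apply, Fin.sum_univ_two, h.mul, h.add]

theorem map_smul (a : Matrix (Fin 2) (Fin 2) A) (X : Matrix (Fin 2) (Fin 2) κ) :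
    X.map J * a = (X * a.map π).map J := by
  ext i j
  simp only [Matrix.mul_apply, Matrix.map_apply, Fin.sum_univ_two, h.mul', h.add]

theorem map_map (X Y : Matrix (Fin 2) (Fin 2) κ) : X.map J * Y.map J = 0 := by
  ext i j
  simp only [Matrix.mul_apply, Matrix.map_apply, Fin.sum_univ_two, h.mul_J, add_zero,
    Matrix.zero_apply]

theorem map_add (X Y : Matrix (Fin 2) (Fin 2) κ) : (X + Y).map J = X.map J + Y.map J := by
  ext i j
  simp only [Matrix.map_apply, Matrix.add_apply, h.add]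

theorem map_zero : (0 : Matrix (Fin 2) (Fin 2) κ).map J = 0 := by
  ext i j
  simp only [Matrix.map_apply, Matrix.zero_apply, h.zero]

theorem mul_one_add (X Y : Matrix (Fin 2) (Fin 2) κ) :
    (1 + X.map J) * (1 + Y.map J) = 1 + (X + Y).map J := by
  have h1 := h.map_map X Y
  rw [Matrix.add_mul, Matrix.one_mul, Matrix.mul_add, Matrix.mul_one, h1, add_zero, h.map_add]
  abel

/-- the elements `1 + J X` of the kernel -/
theorem exists_mk (X : Matrix (Fin 2) (Fin 2) κ) (hX : X.trace = 0) :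
    ∃ s : SpecialLinearGroup (Fin 2) A, s.1 = 1 + X.map J := by
  refine ⟨⟨1 + X.map J, ?_⟩, rfl⟩
  rw [Matrix.det_fin_two]
  simp only [Matrix.add_apply, Matrix.map_apply]
  have h1 : J (X 0 0) + J (X 1 1) = 0 := by
    rw [← h.add]
    rw [Matrix.trace_fin_two] at hX
    rw [hX, h.zero]
  have h2 := h.mul_J (X 0 0) (X 1 1)
  have h3 := h.mul_J (X 0 1) (X 1 0)
  rw [Matrix.one_apply_eq, Matrix.one_apply_eq, Matrix.one_apply_ne (by decide),
    Matrix.one_apply_ne (by decide)]
  linear_combination h1 + h2 - h3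

/-- all elements of the kernel are of this form -/
theorem exists_of_ker (s : SpecialLinearGroup (Fin 2) A)
    (hs : SpecialLinearGroup.map β s = 1) : ∃ X : Matrix (Fin 2) (Fin 2) κ, X.trace = 0 ∧
      s.1 = 1 + X.map J := by
  have h1 : ∀ i j, ∃ x, J x = s.1 i j - (1 : Matrix (Fin 2) (Fin 2) A) i j := by
    intro i j
    rw [← h.ker, map_sub]
    have h2 : β (s.1 i j) = (1 : Matrix (Fin 2) (Fin 2) B) i j :=
      congrArg (fun t : SpecialLinearGroup (Fin 2) B => t.1 i j) hs
    rw [h2, Matrix.one_apply, Matrix.one_apply]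
    split_ifs
    · rw [map_one, sub_self]
    · rw [_root_.map_zero, sub_self]
  choose X hX using h1
  have h3 : s.1 = 1 + (Matrix.of X).map J := by
    ext i j
    rw [Matrix.add_apply, Matrix.map_apply, Matrix.of_apply, hX, add_sub_cancel]
  refine ⟨Matrix.of X, ?_, h3⟩
  have h4 := s.2
  rw [h3, Matrix.det_fin_two] at h4
  simp only [Matrix.add_apply, Matrix.map_apply, Matrix.of_apply] at h4
  rw [Matrix.one_apply_eq, Matrix.one_apply_eq, Matrix.one_apply_ne (by decide),
    Matrix.one_apply_ne (by decide)] at h4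
  have h5 := h.mul_J (X 0 0) (X 1 1)
  have h6 := h.mul_J (X 0 1) (X 1 0)
  have h7 : J (X 0 0 + X 1 1) = 0 := by
    rw [h.add]
    linear_combination h4 - h5 + h6
  rw [Matrix.trace_fin_two, Matrix.of_apply, Matrix.of_apply]
  exact h.inj _ h7

theorem mem_ker_of {s : SpecialLinearGroup (Fin 2) A} {X : Matrix (Fin 2) (Fin 2) κ}
    (hs : s.1 = 1 + X.map J) : SpecialLinearGroup.map β s = 1 := by
  apply Subtype.ext
  ext i j
  change β (s.1 i j) = (1 : Matrix (Fin 2) (Fin 2) B) i j
  rw [hs, Matrix.add_apply, Matrix.map_apply, _root_.map_add, (h.ker _).2 ⟨X i j, rfl⟩, add_zero,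
    Matrix.one_apply, Matrix.one_apply]
  split_ifs
  · rw [map_one]
  · rw [_root_.map_zero]

/-- the special linear groups -/
theorem surj_SL : Function.Surjective (SpecialLinearGroup.map (n := Fin 2) β) := by
  intro t
  have h1 : ∀ i j, ∃ x, β x = t.1 i j := fun i j => h.surj _
  choose X hX using h1
  have h2 : β (X 0 0 * X 1 1 - X 0 1 * X 1 0) = 1 := by
    rw [map_sub, map_mul, map_mul, hX, hX, hX, hX, ← Matrix.det_fin_two]
    exact t.2
  obtain ⟨e, he⟩ := (h.ker (X 0 0 * X 1 1 - X 0 1 * X 1 0 - 1)).1 (by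
    rw [map_sub, h2, map_one, sub_self])
  have h3 : X 0 0 * X 1 1 - X 0 1 * X 1 0 = 1 + J e := by rw [he]; ring
  have h4 := h.mul_J e e
  have h5 : β (J e) = 0 := (h.ker _).2 ⟨e, rfl⟩
  refine ⟨⟨!![(1 - J e) * X 0 0, (1 - J e) * X 0 1; X 1 0, X 1 1], ?_⟩, ?_⟩
  · rw [Matrix.det_fin_two_of]
    linear_combination (1 - J e) * h3 - h4
  · apply Subtype.ext
    refine Matrix.ext (Fin.forall_fin_two.2 ⟨Fin.forall_fin_two.2 ⟨?_, ?_⟩,
      Fin.forall_fin_two.2 ⟨?_, ?_⟩⟩)
    · change β ((1 - J e) * X 0 0) = t.1 0 0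
      rw [map_mul, map_sub, map_one, h5, sub_zero, one_mul, hX]
    · change β ((1 - J e) * X 0 1) = t.1 0 1
      rw [map_mul, map_sub, map_one, h5, sub_zero, one_mul, hX]
    · exact hX 1 0
    · exact hX 1 1

/-- the size of the kernel -/
theorem card_ker [Finite κ] : Nat.card (SpecialLinearGroup.map (n := Fin 2) β).ker =
    Nat.card κ ^ 3 := by
  have h0 : ∀ t : κ × κ × κ, (!![t.1, t.2.1; t.2.2, -t.1] : Matrix (Fin 2) (Fin 2) κ).trace = 0 :=
    fun t => by rw [Matrix.trace_fin_two_of, add_neg_cancel]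
  choose f hf using fun t : κ × κ × κ => h.exists_mk _ (h0 t)
  have h1 : Nat.card (κ × κ × κ) = Nat.card κ ^ 3 := by
    rw [Nat.card_prod, Nat.card_prod]
    ring
  rw [← h1]
  symm
  refine Nat.card_congr (Equiv.ofBijective (fun t => ⟨f t, h.mem_ker_of (hf t)⟩) ⟨?_, ?_⟩)
  · intro t t' htt
    have h2 : (f t).1 = (f t').1 := congrArg (fun s => s.1.1) htt
    rw [hf, hf, add_right_inj] at h2
    have e1 := congrFun (congrFun h2 0) 0
    have e2 := congrFun (congrFun h2 0) 1
    have e3 := congrFun (congrFun h2 1) 0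
    exact Prod.ext (h.inj' e1) (Prod.ext (h.inj' e2) (h.inj' e3))
  · rintro ⟨s, hs⟩
    obtain ⟨X, hX, hsX⟩ := h.exists_of_ker s hs
    refine ⟨(X 0 0, X 0 1, X 1 0), Subtype.ext (Subtype.ext ?_)⟩
    rw [hf, hsX]
    congr 2
    rw [Matrix.trace_fin_two] at hX
    refine Matrix.ext (Fin.forall_fin_two.2 ⟨Fin.forall_fin_two.2 ⟨rfl, rfl⟩,
      Fin.forall_fin_two.2 ⟨rfl, ?_⟩⟩)
    exact (eq_neg_of_add_eq_zero_right hX).symm

end Small

/-- THE NUMBER OF LIFTS ALONG A SMALL EXTENSION. -/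
theorem card_small [Finite A] [Finite κ] (h : Small π β J) (π' : B →+* κ)
    (hπ : π'.comp β = π) {g : ℕ} (ρ : SurfaceGroup g →* SpecialLinearGroup (Fin 2) B)
    (hg : Gd fun x => SpecialLinearGroup.map π' (ρ x)) :
    Nat.card {ψ : SurfaceGroup g →* SpecialLinearGroup (Fin 2) A //
      (SpecialLinearGroup.map β).comp ψ = ρ} * Nat.card κ ^ 3 = (Nat.card κ ^ 3) ^ (2 * g) := by
  have hfM : Finite (Matrix (Fin 2) (Fin 2) A) := by
    unfold Matrix
    infer_instance
  have hfS : Finite (SpecialLinearGroup (Fin 2) A) :=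
    Finite.of_injective (fun A => A.1) Subtype.val_injective
  rw [← h.card_ker]
  refine card_lifts (SpecialLinearGroup.map β) h.surj_SL ?_ ρ ?_
  · -- the kernel is commutative
    intro x hx y hy
    obtain ⟨X, -, hX⟩ := h.exists_of_ker x hx
    obtain ⟨Y, -, hY⟩ := h.exists_of_ker y hy
    apply Subtype.ext
    change x.1 * y.1 = y.1 * x.1
    rw [hX, hY, h.mul_one_add, h.mul_one_add, add_comm X]
  · intro K hK hcomm s hs
    obtain ⟨X, hX, hsX⟩ := h.exists_of_ker s hs
    have hspan := span_of_Gd _ hg X hX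
    have key : ∀ X ∈ Submodule.span κ {Z | ∃ (x : SurfaceGroup g)
        (Y : Matrix (Fin 2) (Fin 2) κ), Y.trace = 0 ∧
        Z = Y - (SpecialLinearGroup.map π' (ρ x)).1 * Y *
          ((SpecialLinearGroup.map π' (ρ x))⁻¹).1},
        X.trace = 0 ∧ ∀ (c : κ) (s : SpecialLinearGroup (Fin 2) A),
          s.1 = 1 + (c • X).map J → s ∈ K := by
      intro X hX
      induction hX using Submodule.span_induction with
      | mem Z hZ =>
        obtain ⟨x, Y, hY, rfl⟩ := hZ
        have htr : ∀ Y : Matrix (Fin 2) (Fin 2) κ,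
            ((SpecialLinearGroup.map π' (ρ x)).1 * Y *
              ((SpecialLinearGroup.map π' (ρ x))⁻¹).1).trace = Y.trace := by
          intro Y
          have h1 : ((SpecialLinearGroup.map π' (ρ x))⁻¹).1 *
              (SpecialLinearGroup.map π' (ρ x)).1 = 1 :=
            congrArg Subtype.val (inv_mul_cancel (SpecialLinearGroup.map π' (ρ x)))
          rw [Matrix.trace_mul_comm, ← Matrix.mul_assoc, h1, Matrix.one_mul]
        refine ⟨by rw [Matrix.trace_sub, htr, sub_self], fun c s hs => ?_⟩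
        obtain ⟨γ, hγ⟩ := h.surj_SL (ρ x)
        have hcY : (c • Y).trace = 0 := by rw [Matrix.trace_smul, hY, smul_zero]
        obtain ⟨n, hn⟩ := h.exists_mk (c • Y) hcY
        have h1 := hcomm n (h.mem_ker_of hn) γ ⟨x, hγ.symm⟩
        have h2 : (SpecialLinearGroup.map π' (ρ x)) = SpecialLinearGroup.map π γ := by
          rw [← hγ, ← hπ]
          rfl
        have hinv : n⁻¹.1 = 1 + (-(c • Y)).map J := by
          obtain ⟨m, hm⟩ := h.exists_mk (-(c • Y)) (by rw [Matrix.trace_neg, hcY, neg_zero])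
          have h3 : n * m = 1 := by
            apply Subtype.ext
            change n.1 * m.1 = 1
            rw [hn, hm, h.mul_one_add, add_neg_cancel, h.map_zero, add_zero]
          rw [inv_eq_of_mul_eq_one_right h3, hm]
        have h4 : s = n * (γ * n⁻¹ * γ⁻¹) := by
          apply Subtype.ext
          change s.1 = n.1 * (γ.1 * n⁻¹.1 * γ⁻¹.1)
          have h5 : γ.1 * γ⁻¹.1 = 1 := congrArg Subtype.val (mul_inv_cancel γ)
          rw [hinv, Matrix.mul_add, Matrix.mul_one, Matrix.add_mul, h5, h.smul_map, h.map_smul,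
            hn, h.mul_one_add, hs, h2]
          congr 2
          change c • (Y - γ.1.map π * Y * (SpecialLinearGroup.map π γ)⁻¹.1) = _
          rw [← map_inv]
          change c • (Y - γ.1.map π * Y * γ⁻¹.1.map π) =
            c • Y + γ.1.map π * -(c • Y) * γ⁻¹.1.map π
          rw [smul_sub, Matrix.mul_neg, Matrix.neg_mul, Matrix.mul_smul, Matrix.smul_mul]
          abel
        rw [h4]
        exact h1
      | zero =>
        refine ⟨Matrix.trace_zero _ _, fun c s hs => ?_⟩
        rw [smul_zero, h.map_zero, add_zero] at hs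
        have : s = 1 := Subtype.ext hs
        rw [this]
        exact K.one_mem
      | add X Y _ _ hX hY =>
        refine ⟨by rw [Matrix.trace_add, hX.1, hY.1, add_zero], fun c s hs => ?_⟩
        obtain ⟨u, hu⟩ := h.exists_mk (c • X) (by rw [Matrix.trace_smul, hX.1, smul_zero])
        obtain ⟨v, hv⟩ := h.exists_mk (c • Y) (by rw [Matrix.trace_smul, hY.1, smul_zero])
        have h1 : s = u * v := by
          apply Subtype.ext
          change s.1 = u.1 * v.1
          rw [hs, hu, hv, h.mul_one_add, smul_add]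
        rw [h1]
        exact K.mul_mem (hX.2 c u hu) (hY.2 c v hv)
      | smul a X _ hX =>
        refine ⟨by rw [Matrix.trace_smul, hX.1, smul_zero], fun c s hs => ?_⟩
        rw [smul_smul] at hs
        exact hX.2 _ s hs
    exact (key X hspan).2 1 s (by rw [one_smul]; exact hsX)

end small

end Pool.Agent.SuSM
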