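import Pool.Agent.Lib.MP_305fdd_al.LW.Series

/-!
# MP_305fdd_al, surface groups, block SM: local parameters and truncated polynomial rings
-/

set_option autoImplicit false

namespace Pool.Agent.SuSM

open Finsupp Pool.Agent.Lib.MP_305fdd_al.LW

theorem deg_one {ι : Type} {d : ι →₀ ℕ} (h : degree d = 1) : ∃ i, d = Finsupp.single i 1 := by
  have h1 : d ∈ Set.range (fun a : ι => Finsupp.single a 1) := by
    rw [Finsupp.range_single_one]
    exact h
  obtain ⟨i, hi⟩ := h1
  exact ⟨i, hi.symm⟩

/-! ### parameters -/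

/-- a basis of the cotangent space -/
structure Par {S : Type} [CommRing S] (m : Ideal S) {M : ℕ} (t : Fin M → S) : Prop where
  mem : ∀ i, t i ∈ m
  gen : ∀ x ∈ m, ∃ c : Fin M → S, x - ∑ i, c i * t i ∈ m ^ 2
  ind : ∀ c : Fin M → S, ∑ i, c i * t i ∈ m ^ 2 → ∀ i, c i ∈ m

theorem exists_par {S : Type} [CommRing S] [IsNoetherianRing S] (m : Ideal S) (hm : m.IsMaximal) :
    ∃ (M : ℕ) (t : Fin M → S), Par m t := by
  let _ : Field (S ⧸ m) := Ideal.Quotient.field m
  have hfin : Module.Finite S m.Cotangent :=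
    Module.Finite.of_surjective m.toCotangent m.toCotangent_surjective
  have hfin' : Module.Finite (S ⧸ m) m.Cotangent := Module.Finite.of_restrictScalars_finite S _ _
  let b := Module.finBasis (S ⧸ m) m.Cotangent
  have hs : ∀ i, ∃ x : m, m.toCotangent x = b i := fun i => m.toCotangent_surjective _
  choose t ht using hs
  have hsum : ∀ c : Fin (Module.finrank (S ⧸ m) m.Cotangent) → S,
      m.toCotangent (∑ i, c i • t i) = ∑ i, (Ideal.Quotient.mk m (c i)) • b i := by
    intro c
    rw [map_sum]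
    refine Finset.sum_congr rfl fun i _ => ?_
    rw [map_smul, ht]
    rfl
  have hval : ∀ c : Fin (Module.finrank (S ⧸ m) m.Cotangent) → S,
      ((∑ i, c i • t i : m) : S) = ∑ i, c i * (t i : S) := by
    intro c
    rw [AddSubmonoidClass.coe_finsetSum]
    rfl
  refine ⟨_, fun i => (t i : S), fun i => (t i).2, fun x hx => ?_, fun c hc i => ?_⟩
  · have h1 := b.sum_repr (m.toCotangent ⟨x, hx⟩)
    have h2 : ∀ i, ∃ c : S, Ideal.Quotient.mk m c = b.repr (m.toCotangent ⟨x, hx⟩) i := fun i =>
      Ideal.Quotient.mk_surjective _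
    choose c hc using h2
    refine ⟨c, ?_⟩
    have h3 : m.toCotangent (⟨x, hx⟩ - ∑ i, c i • t i) = 0 := by
      rw [map_sub, hsum, sub_eq_zero]
      simp only [hc]
      exact h1.symm
    rw [Ideal.toCotangent_eq_zero] at h3
    rw [← hval]
    exact h3
  · have h1 : m.toCotangent (∑ i, c i • t i) = 0 := by
      rw [Ideal.toCotangent_eq_zero, hval]
      exact hc
    rw [hsum] at h1
    have h2 := Fintype.linearIndependent_iff.1 b.linearIndependent _ h1 i
    exact Ideal.Quotient.eq_zero_iff_mem.1 h2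

/-! ### residues of truncated polynomials -/

section res

variable (ι : Type) (F : Type) [Field F]

theorem const_of_mem {f : MvPolynomial ι F} (h : f ∈ MvPolynomial.idealOfVars ι F) :
    MvPolynomial.constantCoeff f = 0 := by
  rw [MvPolynomial.idealOfVars] at h
  have h1 : Ideal.span (Set.range (MvPolynomial.X : ι → MvPolynomial ι F)) ≤
      RingHom.ker (MvPolynomial.constantCoeff (σ := ι) (R := F)) := by
    rw [Ideal.span_le]
    rintro _ ⟨i, rfl⟩
    exact MvPolynomial.constantCoeff_X F i
  exact h1 h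

/-- the residue of a truncated polynomial -/
noncomputable def res {j : ℕ} (hj : j ≠ 0) : TR ι F j →+* F :=
  Ideal.Quotient.lift _ MvPolynomial.constantCoeff fun _ hf =>
    const_of_mem ι F (Ideal.pow_le_self hj hf)

theorem res_mk {j : ℕ} (hj : j ≠ 0) (f : MvPolynomial ι F) :
    res ι F hj (Ideal.Quotient.mk _ f) = MvPolynomial.constantCoeff f := rfl

theorem res_surjective {j : ℕ} (hj : j ≠ 0) : Function.Surjective (res ι F hj) := by
  intro c
  exact ⟨Ideal.Quotient.mk _ (MvPolynomial.C c), by rw [res_mk, MvPolynomial.constantCoeff_C]⟩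

theorem res_fac {i j : ℕ} (hi : i ≠ 0) (hj : j ≠ 0) (h : i ≤ j) :
    (res ι F hi).comp (fac ι F h) = res ι F hj := by
  refine RingHom.ext fun x => ?_
  obtain ⟨f, rfl⟩ := Ideal.Quotient.mk_surjective x
  rw [RingHom.comp_apply, fac_mk, res_mk, res_mk]

theorem fac_fac {i j l : ℕ} (h : i ≤ j) (h' : j ≤ l) :
    (fac ι F h).comp (fac ι F h') = fac ι F (h.trans h') := by
  refine RingHom.ext fun x => ?_
  obtain ⟨f, rfl⟩ := Ideal.Quotient.mk_surjective x
  rw [RingHom.comp_apply, fac_mk, fac_mk, fac_mk]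

theorem fac_fac_apply {i j l : ℕ} (h : i ≤ j) (h' : j ≤ l) (x : TR ι F l) :
    fac ι F h (fac ι F h' x) = fac ι F (h.trans h') x := by
  rw [← fac_fac ι F h h']
  rfl

theorem fac_surjective {i j : ℕ} (h : i ≤ j) : Function.Surjective (fac ι F h) := by
  intro x
  obtain ⟨f, rfl⟩ := Ideal.Quotient.mk_surjective x
  exact ⟨Ideal.Quotient.mk _ f, fac_mk ι F h f⟩

theorem mem_vars_of_const [Finite ι] {f : MvPolynomial ι F}
    (h : MvPolynomial.constantCoeff f = 0) : f ∈ MvPolynomial.idealOfVars ι F := by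
  have h1 := (MvPolynomial.mem_pow_idealOfVars_iff' 1 f).2 ?_
  · rwa [pow_one] at h1
  · intro x hx
    have hx0 : x = 0 := (Finsupp.degree_eq_zero_iff x).1 (by omega)
    subst hx0
    exact h

theorem ker_res_pow [Finite ι] {j : ℕ} (hj : j ≠ 0) : RingHom.ker (res ι F hj) ^ j = ⊥ := by
  have h1 : RingHom.ker (res ι F hj) ≤ (MvPolynomial.idealOfVars ι F).map
      (Ideal.Quotient.mk (MvPolynomial.idealOfVars ι F ^ j)) := by
    intro y hy
    obtain ⟨f, rfl⟩ := Ideal.Quotient.mk_surjective y
    exact Ideal.mem_map_of_mem _ (mem_vars_of_const ι F hy)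
  rw [eq_bot_iff]
  refine (Ideal.pow_right_mono h1 j).trans ?_
  rw [← Ideal.map_pow, Ideal.map_quotient_self]

end res

/-! ### the map from the truncated polynomials -/

section ev

variable {S A κ : Type} [CommRing S] [CommRing A] [Field κ] {q : S →+* A} {π : A →+* κ}
  {σ : κ →+* A} {M : ℕ} {t : Fin M → S} {k : ℕ}

/-- the situation: `A = S / m ^ k` with residue field `κ` and a field `σ κ` of representatives -/
structure Loc (q : S →+* A) (π : A →+* κ) (σ : κ →+* A) (t : Fin M → S) (k : ℕ) : Prop where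
  surj : Function.Surjective q
  sec : ∀ c, π (σ c) = c
  ker : ∀ x, q x = 0 ↔ x ∈ RingHom.ker (π.comp q) ^ k
  par : Par (RingHom.ker (π.comp q)) t
  two : 2 ≤ k

/-- evaluation at the parameters -/
noncomputable def evt (q : S →+* A) (σ : κ →+* A) (t : Fin M → S) :
    MvPolynomial (Fin M) κ →+* A :=
  MvPolynomial.eval₂Hom σ fun i => q (t i)

theorem evt_C (c : κ) : evt q σ t (MvPolynomial.C c) = σ c := MvPolynomial.eval₂Hom_C _ _ _

theorem evt_X (i : Fin M) : evt q σ t (MvPolynomial.X i) = q (t i) :=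
  MvPolynomial.eval₂Hom_X' _ _ _

variable (h : Loc q π σ t k)
include h

theorem Loc.pi_t (i : Fin M) : π (q (t i)) = 0 := h.par.mem i

theorem Loc.pi_evt (f : MvPolynomial (Fin M) κ) :
    π (evt q σ t f) = MvPolynomial.constantCoeff f := by
  have h1 : π.comp (evt q σ t) = MvPolynomial.constantCoeff := by
    apply MvPolynomial.ringHom_ext
    · intro c
      rw [RingHom.comp_apply, evt_C, h.sec, MvPolynomial.constantCoeff_C]
    · intro i
      rw [RingHom.comp_apply, evt_X, h.pi_t, MvPolynomial.constantCoeff_X]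
  exact DFunLike.congr_fun h1 f

theorem Loc.map_ker (j : ℕ) : (RingHom.ker (π.comp q) ^ j).map q = RingHom.ker π ^ j := by
  rw [Ideal.map_pow]
  congr 1
  apply le_antisymm
  · rw [Ideal.map_le_iff_le_comap]
    intro x hx
    exact hx
  · intro y hy
    obtain ⟨x, rfl⟩ := h.surj y
    exact Ideal.mem_map_of_mem q hy

theorem Loc.ker_pow : RingHom.ker π ^ k = ⊥ := by
  rw [← h.map_ker, eq_bot_iff, Ideal.map_le_iff_le_comap]
  intro x hx
  exact (h.ker x).2 hx

/-- `q x ∈ m_A ^ j` iff `x ∈ m ^ j` for `j ≤ k` -/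
theorem Loc.mem_pow {j : ℕ} (hj : j ≤ k) {x : S} (hx : q x ∈ RingHom.ker π ^ j) :
    x ∈ RingHom.ker (π.comp q) ^ j := by
  rw [← h.map_ker, Ideal.mem_map_iff_of_surjective q h.surj] at hx
  obtain ⟨y, hy, hyx⟩ := hx
  have h1 : q (x - y) = 0 := by rw [map_sub, hyx, sub_self]
  have h2 := Ideal.pow_le_pow_right hj ((h.ker _).1 h1)
  have h3 : x = (x - y) + y := by ring
  rw [h3]
  exact Ideal.add_mem _ h2 hy

theorem Loc.evt_mem (j : ℕ) {f : MvPolynomial (Fin M) κ}
    (hf : f ∈ MvPolynomial.idealOfVars (Fin M) κ ^ j) : evt q σ t f ∈ RingHom.ker π ^ j := by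
  have h1 : (MvPolynomial.idealOfVars (Fin M) κ).map (evt q σ t) ≤ RingHom.ker π := by
    rw [Ideal.map_le_iff_le_comap, MvPolynomial.idealOfVars, Ideal.span_le]
    rintro _ ⟨i, rfl⟩
    rw [SetLike.mem_coe, Ideal.mem_comap, evt_X]
    exact h.pi_t i
  have h2 := Ideal.mem_map_of_mem (evt q σ t) hf
  rw [Ideal.map_pow] at h2
  exact Ideal.pow_right_mono h1 j h2

theorem Loc.step (j : ℕ) : ∀ a ∈ RingHom.ker π ^ j,
    ∃ f ∈ MvPolynomial.idealOfVars (Fin M) κ ^ j, a - evt q σ t f ∈ RingHom.ker π ^ (j + 1) := by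
  induction j with
  | zero =>
    intro a _
    refine ⟨MvPolynomial.C (π a), by rw [pow_zero, Ideal.one_eq_top]; exact Submodule.mem_top, ?_⟩
    rw [zero_add, pow_one, RingHom.mem_ker, evt_C, map_sub, h.sec, sub_self]
  | succ j ih =>
    intro a ha
    rw [pow_succ] at ha
    induction ha using Submodule.mul_induction_on' with
    | mem_mul_mem a ha b hb =>
      obtain ⟨f, hf, hfa⟩ := ih a ha
      obtain ⟨x, rfl⟩ := h.surj b
      obtain ⟨c, hc⟩ := h.par.gen x hb
      have h1 : ∀ i, ∃ e ∈ RingHom.ker π, q (c i) = σ (π (q (c i))) + e := fun i =>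
        ⟨q (c i) - σ (π (q (c i))), by rw [RingHom.mem_ker, map_sub, h.sec, sub_self], by ring⟩
      choose e he hce using h1
      refine ⟨f * ∑ i, MvPolynomial.C (π (q (c i))) * MvPolynomial.X i, ?_, ?_⟩
      · rw [pow_succ]
        refine Ideal.mul_mem_mul hf (Ideal.sum_mem _ fun i _ => Ideal.mul_mem_left _ _ ?_)
        exact Ideal.subset_span ⟨i, rfl⟩
      · have h2 : q x - evt q σ t (∑ i, MvPolynomial.C (π (q (c i))) * MvPolynomial.X i) ∈
            RingHom.ker π ^ 2 := by
          have h3 : q x - evt q σ t (∑ i, MvPolynomial.C (π (q (c i))) * MvPolynomial.X i) =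
              q (x - ∑ i, c i * t i) + ∑ i, e i * q (t i) := by
            rw [map_sum, map_sub, map_sum]
            simp only [map_mul, evt_C, evt_X]
            have h4 : ∀ i, q (c i) * q (t i) = σ (π (q (c i))) * q (t i) + e i * q (t i) := by
              intro i
              rw [← add_mul, ← hce]
            simp only [h4]
            rw [Finset.sum_add_distrib]
            ring
          rw [h3]
          refine Ideal.add_mem _ ?_ (Ideal.sum_mem _ fun i _ => ?_)
          · rw [← h.map_ker]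
            exact Ideal.mem_map_of_mem q hc
          · rw [pow_two]
            exact Ideal.mul_mem_mul (he i) (h.pi_t i)
        have h5 : a * q x - evt q σ t (f * ∑ i, MvPolynomial.C (π (q (c i))) *
            MvPolynomial.X i) = (a - evt q σ t f) * q x + evt q σ t f *
            (q x - evt q σ t (∑ i, MvPolynomial.C (π (q (c i))) * MvPolynomial.X i)) := by
          rw [map_mul]
          ring
        rw [h5]
        refine Ideal.add_mem _ ?_ ?_
        · rw [pow_succ]
          exact Ideal.mul_mem_mul hfa hb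
        · have h6 := Ideal.mul_mem_mul (h.evt_mem j hf) h2
          rwa [← pow_add] at h6
    | add a _ b _ ha hb =>
      obtain ⟨f, hf, hfa⟩ := ha
      obtain ⟨f', hf', hfb⟩ := hb
      refine ⟨f + f', Ideal.add_mem _ hf hf', ?_⟩
      have h1 : a + b - evt q σ t (f + f') = (a - evt q σ t f) + (b - evt q σ t f') := by
        rw [map_add]
        ring
      rw [h1]
      exact Ideal.add_mem _ hfa hfb

theorem Loc.evt_surjective : Function.Surjective (evt q σ t) := by
  have key : ∀ j : ℕ, ∀ a : A, ∃ f, a - evt q σ t f ∈ RingHom.ker π ^ j := by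
    intro j
    induction j with
    | zero =>
      intro a
      exact ⟨0, by rw [pow_zero, Ideal.one_eq_top]; exact Submodule.mem_top⟩
    | succ j ih =>
      intro a
      obtain ⟨f, hf⟩ := ih a
      obtain ⟨f', _, hf'⟩ := h.step j _ hf
      refine ⟨f + f', ?_⟩
      have h1 : a - evt q σ t (f + f') = a - evt q σ t f - evt q σ t f' := by
        rw [map_add]
        ring
      rw [h1]
      exact hf'
  intro a
  obtain ⟨f, hf⟩ := key k a
  rw [h.ker_pow, Ideal.mem_bot, sub_eq_zero] at hf
  exact ⟨f, hf.symm⟩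

/-- the kernel has no linear terms -/
theorem Loc.coeff_of_evt {f : MvPolynomial (Fin M) κ} (hf : evt q σ t f = 0) :
    ∀ d : Fin M →₀ ℕ, degree d < 2 → MvPolynomial.coeff d f = 0 := by
  classical
  have h0 : MvPolynomial.constantCoeff f = 0 := by rw [← h.pi_evt, hf, map_zero]
  have hlin : f - ∑ i, MvPolynomial.C (MvPolynomial.coeff (Finsupp.single i 1) f) *
      MvPolynomial.X i ∈ MvPolynomial.idealOfVars (Fin M) κ ^ 2 := by
    rw [MvPolynomial.mem_pow_idealOfVars_iff']
    intro d hd
    rw [MvPolynomial.coeff_sub, MvPolynomial.coeff_sum]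
    simp only [MvPolynomial.coeff_C_mul, MvPolynomial.coeff_X]
    have h1 : degree d = 0 ∨ degree d = 1 := by omega
    rcases h1 with h1 | h1
    · have hd0 : d = 0 := (Finsupp.degree_eq_zero_iff d).1 h1
      subst hd0
      have h2 : MvPolynomial.coeff 0 f = 0 := h0
      rw [h2, zero_sub, neg_eq_zero]
      refine Finset.sum_eq_zero fun i _ => ?_
      rw [if_neg (by simp), mul_zero]
    · obtain ⟨i, rfl⟩ : ∃ i, d = Finsupp.single i 1 := deg_one h1
      rw [Finset.sum_eq_single i]
      · rw [if_pos rfl, mul_one, sub_self]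
      · intro j _ hj
        rw [if_neg, mul_zero]
        intro heq
        exact hj ((Finsupp.single_left_injective one_ne_zero) heq)
      · intro hn
        exact absurd (Finset.mem_univ i) hn
  have h1 := h.evt_mem 2 hlin
  rw [map_sub, hf, zero_sub, map_sum] at h1
  simp only [map_mul, evt_C, evt_X] at h1
  have h2 : ∀ i, ∃ c, q c = σ (MvPolynomial.coeff (Finsupp.single i 1) f) := fun i => h.surj _
  choose c hc using h2
  have h3 : q (∑ i, c i * t i) ∈ RingHom.ker π ^ 2 := by
    have h4 := (RingHom.ker π ^ 2).neg_mem h1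
    rw [neg_neg] at h4
    rw [map_sum]
    simp only [map_mul, hc]
    exact h4
  have h5 := h.par.ind c (h.mem_pow h.two h3)
  intro d hd
  have h6 : degree d = 0 ∨ degree d = 1 := by omega
  rcases h6 with h6 | h6
  · have hd0 : d = 0 := (Finsupp.degree_eq_zero_iff d).1 h6
    subst hd0
    exact h0
  · obtain ⟨i, rfl⟩ : ∃ i, d = Finsupp.single i 1 := deg_one h6
    have h7 := h5 i
    rw [RingHom.mem_ker, RingHom.comp_apply, hc, h.sec] at h7
    exact h7

end ev

end Pool.Agent.SuSM
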