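import Pool.Agent.Lib.MP_305fdd_al.LW.RepRing

/-!
# MP_305fdd_al, surface groups, block SM: the ring with the universal representation in `SL₂`
-/

set_option autoImplicit false

namespace Pool.Agent.SuSM

open Matrix Pool.Agent.Lib.MP_305fdd_al.LW

/-- the relations `det = 1` -/
noncomputable def detI (p : ℕ) (Λ : Type) [Group Λ] : Ideal (RepRing (ZMod p) Λ 2) :=
  Ideal.span {x | ∃ g, x = (RepRing.univ (ZMod p) Λ 2 g).det - 1}

/-- the ring over `ZMod p` with the universal representation `Λ → SL₂` -/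
def SR (p : ℕ) (Λ : Type) [Group Λ] : Type := RepRing (ZMod p) Λ 2 ⧸ detI p Λ

variable (p : ℕ) (Λ : Type) [Group Λ]

noncomputable instance : CommRing (SR p Λ) :=
  inferInstanceAs (CommRing (RepRing (ZMod p) Λ 2 ⧸ detI p Λ))

noncomputable instance : Algebra (ZMod p) (SR p Λ) :=
  inferInstanceAs (Algebra (ZMod p) (RepRing (ZMod p) Λ 2 ⧸ detI p Λ))

/-- the quotient map -/
noncomputable def SR.mk : RepRing (ZMod p) Λ 2 →ₐ[ZMod p] SR p Λ :=
  Ideal.Quotient.mkₐ (ZMod p) (detI p Λ)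

theorem SR.mk_surjective : Function.Surjective (SR.mk p Λ) := Ideal.Quotient.mkₐ_surjective _ _

instance [Group.FG Λ] : Algebra.FiniteType (ZMod p) (SR p Λ) :=
  Algebra.FiniteType.of_surjective (SR.mk p Λ) (SR.mk_surjective p Λ)

/-- the universal representation -/
noncomputable def SR.rho : Λ →* SpecialLinearGroup (Fin 2) (SR p Λ) where
  toFun g := ⟨(RepRing.univ (ZMod p) Λ 2 g).map (SR.mk p Λ), by
    have h1 : (RepRing.univ (ZMod p) Λ 2 g).det - 1 ∈ detI p Λ := Ideal.subset_span ⟨g, rfl⟩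
    have h2 : SR.mk p Λ ((RepRing.univ (ZMod p) Λ 2 g).det - 1) = 0 :=
      Ideal.Quotient.eq_zero_iff_mem.2 h1
    rw [map_sub, map_one, sub_eq_zero] at h2
    rw [← h2, AlgHom.map_det]
    rfl⟩
  map_one' := by
    apply Subtype.ext
    change (RepRing.univ (ZMod p) Λ 2 1).map (SR.mk p Λ) = 1
    rw [map_one, Matrix.map_one _ (map_zero _) (map_one _)]
  map_mul' x y := by
    apply Subtype.ext
    change (RepRing.univ (ZMod p) Λ 2 (x * y)).map (SR.mk p Λ) =
      (RepRing.univ (ZMod p) Λ 2 x).map (SR.mk p Λ) * (RepRing.univ (ZMod p) Λ 2 y).map (SR.mk p Λ)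
    rw [map_mul, Matrix.map_mul]

theorem SR.rho_apply (g : Λ) (i j : Fin 2) :
    (SR.rho p Λ g).1 i j = SR.mk p Λ (RepRing.univ (ZMod p) Λ 2 g i j) := rfl

variable {p Λ}

/-- the homomorphism of matrices -/
def toM {R : Type} [CommRing R] (r : Λ →* SpecialLinearGroup (Fin 2) R) :
    Λ →* Matrix (Fin 2) (Fin 2) R where
  toFun g := (r g).1
  map_one' := by rw [map_one]; rfl
  map_mul' x y := by rw [map_mul]; rfl

/-- the universal property -/
noncomputable def SR.lift {R : Type} [CommRing R] [Algebra (ZMod p) R]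
    (r : Λ →* SpecialLinearGroup (Fin 2) R) : SR p Λ →ₐ[ZMod p] R :=
  Ideal.Quotient.liftₐ (detI p Λ)
    ({ RepRing.lift (algebraMap (ZMod p) R) (toM r) with
        commutes' := fun c => RepRing.lift_algebraMap _ _ c } : RepRing (ZMod p) Λ 2 →ₐ[ZMod p] R) (by
      have key : detI p Λ ≤ RingHom.ker (RepRing.lift (algebraMap (ZMod p) R) (toM r)) := by
        rw [detI, Ideal.span_le]
        rintro _ ⟨g, rfl⟩
        rw [SetLike.mem_coe, RingHom.mem_ker, map_sub, map_one, RingHom.map_det]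
        have h1 : (RingHom.mapMatrix (RepRing.lift (algebraMap (ZMod p) R) (toM r)))
            (RepRing.univ (ZMod p) Λ 2 g) = (r g).1 := by
          ext i j
          exact RepRing.lift_univ _ _ g i j
        rw [h1, (r g).2, sub_self]
      exact fun x hx => key hx)

theorem SR.lift_rho {R : Type} [CommRing R] [Algebra (ZMod p) R]
    (r : Λ →* SpecialLinearGroup (Fin 2) R) (g : Λ) (i j : Fin 2) :
    SR.lift (p := p) r ((SR.rho p Λ g).1 i j) = (r g).1 i j :=
  RepRing.lift_univ (algebraMap (ZMod p) R) (toM r) g i j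

theorem SR.adjoin_rho : Algebra.adjoin (ZMod p) {x | ∃ g i j, x = (SR.rho p Λ g).1 i j} = ⊤ := by
  have h1 : {x | ∃ g i j, x = (SR.rho p Λ g).1 i j} = SR.mk p Λ ''
      (Set.range fun q : Λ × Fin 2 × Fin 2 => RepRing.univ (ZMod p) Λ 2 q.1 q.2.1 q.2.2) := by
    rw [← Set.range_comp]
    ext x
    constructor
    · rintro ⟨g, i, j, rfl⟩
      exact ⟨(g, i, j), rfl⟩
    · rintro ⟨⟨g, i, j⟩, rfl⟩
      exact ⟨g, i, j, rfl⟩
  rw [h1, ← AlgHom.map_adjoin, RepRing.adjoin_univ, Algebra.map_top, AlgHom.range_eq_top]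
  exact SR.mk_surjective p Λ

theorem SR.hom_ext {R : Type} [CommRing R] [Algebra (ZMod p) R] {φ ψ : SR p Λ →ₐ[ZMod p] R}
    (h : ∀ g i j, φ ((SR.rho p Λ g).1 i j) = ψ ((SR.rho p Λ g).1 i j)) : φ = ψ := by
  refine AlgHom.ext_of_adjoin_eq_top SR.adjoin_rho ?_
  rintro _ ⟨g, i, j, rfl⟩
  exact h g i j

theorem SR.lift_map {R R' : Type} [CommRing R] [Algebra (ZMod p) R] [CommRing R']
    [Algebra (ZMod p) R'] (f : R →ₐ[ZMod p] R') (r : Λ →* SpecialLinearGroup (Fin 2) R) :
    f.comp (SR.lift r) = SR.lift ((SpecialLinearGroup.map (f : R →+* R')).comp r) := by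
  refine SR.hom_ext fun g i j => ?_
  rw [AlgHom.comp_apply, SR.lift_rho, SR.lift_rho]
  rfl

theorem SR.lift_self : SR.lift (SR.rho p Λ) = AlgHom.id (ZMod p) (SR p Λ) := by
  refine SR.hom_ext fun g i j => ?_
  rw [SR.lift_rho]
  rfl

theorem SR.lift_comp {R : Type} [CommRing R] [Algebra (ZMod p) R] (f : SR p Λ →ₐ[ZMod p] R) :
    SR.lift ((SpecialLinearGroup.map (f : SR p Λ →+* R)).comp (SR.rho p Λ)) = f := by
  rw [← SR.lift_map, SR.lift_self]
  rfl

/-- the image of a homomorphism is generated by the entries -/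
theorem SR.range_lift {R : Type} [CommRing R] [Algebra (ZMod p) R]
    (r : Λ →* SpecialLinearGroup (Fin 2) R) :
    (SR.lift (p := p) r).range = Algebra.adjoin (ZMod p) {x | ∃ g i j, x = (r g).1 i j} := by
  rw [← Algebra.map_top, ← SR.adjoin_rho, AlgHom.map_adjoin]
  congr 1
  ext x
  constructor
  · rintro ⟨_, ⟨g, i, j, rfl⟩, rfl⟩
    exact ⟨g, i, j, SR.lift_rho r g i j⟩
  · rintro ⟨g, i, j, rfl⟩
    exact ⟨_, ⟨g, i, j, rfl⟩, SR.lift_rho r g i j⟩

end Pool.Agent.SuSM
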